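import Pool.Agent.Y439.LocJ

/-! The theorem for 3-graphs near Turán's construction, for families of sets. -/

set_option autoImplicit false
set_option linter.unusedVariables false
set_option linter.unusedSectionVars false

open Finset
open scoped Classical

namespace Pool.Agent.Y439.Loc

variable {n : ℕ}

/-- Turán's construction -/
def tgraph (c : Fin n → Fin 3) : Finset (Finset (Fin n)) :=
  univ.filter fun e => e.card = 3 ∧ ((∀ k, ∃ x ∈ e, c x = k) ∨
    ∃ k, (e.filter fun x => c x = k).card = 2 ∧ (e.filter fun x => c x = k + 1).card = 1)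

theorem tu_data : ∀ a b d : Fin 3, ((∀ k, a = k ∨ b = k ∨ d = k) ∨
    ∃ k, ((if a = k then 1 else 0) + ((if b = k then 1 else 0) + (if d = k then 1 else 0)) = 2 ∧
      (if a = k + 1 then 1 else 0) + ((if b = k + 1 then 1 else 0) +
        (if d = k + 1 then 1 else 0)) = 1)) ↔
    fdB a b d false false false false false false = true := by
  decide

theorem filter_three (c : Fin n → Fin 3) (x y z : Fin n) (h1 : x ≠ y) (h2 : y ≠ z) (h3 : x ≠ z)
    (k : Fin 3) : (({x, y, z} : Finset (Fin n)).filter fun w => c w = k).card =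
      (if c x = k then 1 else 0) + ((if c y = k then 1 else 0) + (if c z = k then 1 else 0)) := by
  rw [card_filter, sum_insert, sum_insert, sum_singleton]
  · simpa using h2
  · simp only [mem_insert, mem_singleton]; push Not; exact ⟨h1, h3⟩

theorem rel_tgraph (c : Fin n → Fin 3) (x y z : Fin n) : Rel (tgraph c) x y z ↔ Tu c x y z := by
  unfold Rel Tu FD
  refine and_congr_right fun h1 => and_congr_right fun h2 => and_congr_right fun h3 => ?_
  have hc : ({x, y, z} : Finset (Fin n)).card = 3 := card_eq_three.2 ⟨x, y, z, h1, h3, h2, rfl⟩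
  unfold tgraph
  rw [mem_filter, ← tu_data]
  simp only [mem_univ, true_and, hc, mem_insert, mem_singleton, exists_eq_or_imp, exists_eq_left,
    filter_three c x y z h1 h2 h3]

theorem wr_count (c : Fin n → Fin 3) (H : Finset (Finset (Fin n))) (hH : ∀ e ∈ H, e.card = 3)
    (v : Fin n) :
    wr c (Rel H) v = 2 * (((symmDiff H (tgraph c)).filter fun e => v ∈ e).card : ℝ) := by
  have hK : ∀ e ∈ symmDiff H (tgraph c), e.card = 3 := by
    intro e he
    rw [mem_symmDiff] at he
    rcases he with he | he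
    · exact hH e he.1
    · unfold tgraph at he
      rw [mem_filter] at he
      exact he.1.2.1
  rw [← vertex_count _ hK v]
  unfold wr
  refine sum_congr rfl fun y _ => sum_congr rfl fun z _ => ind_congr ?_
  rw [← rel_tgraph]
  unfold Rel
  rw [mem_symmDiff]
  tauto

theorem near_sets (H : Finset (Finset (Fin n))) (hH : ∀ e ∈ H, e.card = 3)
    (hfree : ∀ S : Finset (Fin n), S.card = 4 → ∃ e ⊆ S, e.card = 3 ∧ e ∉ H)
    (c : Fin n → Fin 3)
    (hsize : ∀ k, 3000 * (n / 3) ≤ 3000 * (univ.filter fun x => c x = k).card + n)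
    (hlink : ∀ v, 2 * 10 ^ 7 * ((symmDiff H (tgraph c)).filter fun e => v ∈ e).card ≤ n ^ 2)
    (hin : ∀ x y, x ≠ y →
      3000 * (H.filter fun e => x ∈ e ∧ y ∈ e ∧ ∀ z ∈ e, c z = c x).card ≤ n) :
    H.card ≤ tnum n ∧ (H.card = tnum n → ∃ A : Fin n → Fin n → Prop,
      (∀ x y, (A x y → c x ≠ c y) ∧ (c x ≠ c y → (A x y ↔ ¬ A y x))) ∧
      ∀ e : Finset (Fin n), e ∈ H ↔ e.card = 3 ∧ (∃ x ∈ e, ∃ y ∈ e, c x ≠ c y) ∧
        ∀ x ∈ e, ∀ y ∈ e, ∀ z ∈ e, A x y → A x z → y = z) := by
  have S := rel_sys c H hfree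
  have hnd : (n : ℝ) = 3 * ((n / 3 : ℕ) : ℝ) + ((n % 3 : ℕ) : ℝ) := by
    exact_mod_cast (Nat.div_add_mod n 3).symm
  have hn : ∑ _x : Fin n, (1 : ℝ) = 3 * ((n / 3 : ℕ) : ℝ) + ((n % 3 : ℕ) : ℝ) := by
    rw [← hnd]; simp
  have hn0 : (0 : ℝ) ≤ n := Nat.cast_nonneg n
  have h := near2 S (M := (n : ℝ) / 3) (n / 3) (n % 3) hn (by omega) (by rw [← hnd]; ring)
    (fun k => by
      have h1 := hsize k
      have h2 : (3000 : ℝ) * ((n / 3 : ℕ) : ℝ) ≤
          3000 * (((univ.filter fun x => c x = k).card : ℕ) : ℝ) + n := by exact_mod_cast h1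
      unfold sz
      rw [ind_sum_card]
      linarith)
    (fun v => by
      rw [wr_count c H hH v]
      have h1 := hlink v
      have h2 : (2 : ℝ) * 10 ^ 7 * ((((symmDiff H (tgraph c)).filter fun e => v ∈ e).card : ℕ) : ℝ) ≤
          (n : ℝ) ^ 2 := by exact_mod_cast h1
      have h3 : (0 : ℝ) ≤ ((((symmDiff H (tgraph c)).filter fun e => v ∈ e).card : ℕ) : ℝ) :=
        Nat.cast_nonneg _
      have h4 : ((n : ℝ) / 3) ^ 2 = (n : ℝ) ^ 2 / 9 := by ring
      rw [h4]
      linarith)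
    (fun x y => io_count c H hH x y _ (by positivity) (fun hxy => by
      have h1 := hin x y hxy
      have h2 : (3000 : ℝ) * (((H.filter fun e => x ∈ e ∧ y ∈ e ∧ ∀ z ∈ e, c z = c x).card : ℕ) : ℝ) ≤
          n := by exact_mod_cast h1
      linarith))
  have htot := total_count H hH
  have hT := tnum_TT n
  rw [htot, ← hT] at h
  refine ⟨?_, fun heq => ?_⟩
  · have h1 : (H.card : ℝ) ≤ (tnum n : ℝ) := by linarith [h.1]
    exact_mod_cast h1
  · have h1 : 6 * (H.card : ℝ) = 6 * (tnum n : ℝ) := by rw [heq]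
    obtain ⟨rev, hrel⟩ := h.2 h1
    exact fd_sets c c (Or.inl rfl) rev H hH hrel

end Pool.Agent.Y439.Loc
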