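import Pool.Agent.Y439.LocI

/-! From families of 3-element sets to relations. -/

set_option autoImplicit false
set_option linter.unusedVariables false
set_option linter.unusedSectionVars false

open Finset
open scoped Classical

namespace Pool.Agent.Y439.Loc

variable {n : ℕ}

/-- the relation of a family of sets -/
def Rel (K : Finset (Finset (Fin n))) (x y z : Fin n) : Prop :=
  x ≠ y ∧ y ≠ z ∧ x ≠ z ∧ ({x, y, z} : Finset (Fin n)) ∈ K

theorem ind_sum_card {α : Type} [Fintype α] (P : α → Prop) [DecidablePred P] :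
    ∑ x, ind (P x) = ((univ.filter P).card : ℝ) := by
  rw [card_filter]
  push_cast
  refine sum_congr rfl fun x _ => ?_
  by_cases h : P x
  · rw [ind_t h, if_pos h]
  · rw [ind_f h, if_neg h]

theorem ind_sum_card' {α : Type} (s : Finset α) (P : α → Prop) [DecidablePred P] :
    ∑ x ∈ s, ind (P x) = ((s.filter P).card : ℝ) := by
  rw [card_filter]
  push_cast
  refine sum_congr rfl fun x _ => ?_
  by_cases h : P x
  · rw [ind_t h, if_pos h]
  · rw [ind_f h, if_neg h]

theorem pair_count (K : Finset (Finset (Fin n))) (hK : ∀ e ∈ K, e.card = 3) (x y : Fin n)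
    (hxy : x ≠ y) : ∑ z, ind (Rel K x y z) = ((K.filter fun e => x ∈ e ∧ y ∈ e).card : ℝ) := by
  rw [ind_sum_card]
  congr 1
  refine card_bij (fun z _ => ({x, y, z} : Finset (Fin n))) ?_ ?_ ?_
  · intro z hz
    rw [mem_filter] at hz ⊢
    exact ⟨hz.2.2.2.2, by simp, by simp⟩
  · intro z hz w hw h
    rw [mem_filter] at hz hw
    have h1 : z ∈ ({x, y, w} : Finset (Fin n)) := by rw [← h]; simp
    simp only [mem_insert, mem_singleton] at h1
    rcases h1 with h1 | h1 | h1
    · exact absurd h1.symm hz.2.2.2.1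
    · exact absurd h1.symm hz.2.2.1
    · exact h1
  · intro e he
    rw [mem_filter] at he
    obtain ⟨h1, h2, h3⟩ := he
    have hc := hK e h1
    have hsub : ({x, y} : Finset (Fin n)) ⊆ e := by
      intro w hw
      simp only [mem_insert, mem_singleton] at hw
      rcases hw with rfl | rfl <;> assumption
    have hcd : (e \ {x, y}).card = 1 := by
      rw [card_sdiff_of_subset hsub, hc, card_pair hxy]
    obtain ⟨z, hz⟩ := card_eq_one.1 hcd
    have hz1 : z ∈ e \ {x, y} := by rw [hz]; simp
    rw [mem_sdiff] at hz1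
    simp only [mem_insert, mem_singleton, not_or] at hz1
    have heq : ({x, y, z} : Finset (Fin n)) = e := by
      have h5 : ({x, y} : Finset (Fin n)) ∪ (e \ {x, y}) = e := union_sdiff_of_subset hsub
      rw [hz] at h5
      rw [← h5]
      ext w
      simp only [mem_insert, mem_singleton, mem_union]
      tauto
    refine ⟨z, ?_, heq⟩
    rw [mem_filter]
    refine ⟨mem_univ _, hxy, fun h => hz1.2.2 h.symm, fun h => hz1.2.1 h.symm, ?_⟩
    rw [heq]
    exact h1

theorem vertex_count (K : Finset (Finset (Fin n))) (hK : ∀ e ∈ K, e.card = 3) (x : Fin n) :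
    ∑ y, ∑ z, ind (Rel K x y z) = 2 * ((K.filter fun e => x ∈ e).card : ℝ) := by
  have h1 : ∀ y, ∑ z, ind (Rel K x y z) =
      ∑ e ∈ K.filter (fun e => x ∈ e), ind (x ≠ y ∧ y ∈ e) := by
    intro y
    by_cases h : x = y
    · subst h
      rw [sum_eq_zero fun z _ => ind_f fun h => h.1 rfl]
      exact (sum_eq_zero fun e _ => ind_f fun h => h.1 rfl).symm
    · rw [pair_count K hK x y h, ind_sum_card']
      congr 2
      rw [filter_filter]
      refine filter_congr fun e _ => ?_
      tauto
  rw [sum_congr rfl fun y _ => h1 y, sum_comm]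
  have h2 : ∀ e ∈ K.filter (fun e => x ∈ e), ∑ y, ind (x ≠ y ∧ y ∈ e) = 2 := by
    intro e he
    rw [mem_filter] at he
    rw [ind_sum_card]
    have : (univ.filter fun y => x ≠ y ∧ y ∈ e) = e.erase x := by
      ext w
      simp only [mem_filter, mem_univ, true_and, mem_erase]
      tauto
    rw [this, card_erase_of_mem he.2, hK e he.1]
    norm_num
  rw [sum_congr rfl h2, sum_const, nsmul_eq_mul]
  ring

theorem total_count (K : Finset (Finset (Fin n))) (hK : ∀ e ∈ K, e.card = 3) :
    tot (Rel K) = 6 * (K.card : ℝ) := by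
  unfold tot
  rw [sum_congr rfl fun x _ => vertex_count K hK x, ← mul_sum]
  have h1 : ∑ x : Fin n, ((K.filter fun e => x ∈ e).card : ℝ) = ∑ x, ∑ e ∈ K, ind (x ∈ e) :=
    sum_congr rfl fun x _ => (ind_sum_card' K _).symm
  rw [h1, sum_comm]
  have h2 : ∀ e ∈ K, ∑ x, ind (x ∈ e) = 3 := by
    intro e he
    rw [ind_sum_card]
    have : (univ.filter fun y => y ∈ e) = e := by ext w; simp
    rw [this, hK e he]
    norm_num
  rw [sum_congr rfl h2, sum_const, nsmul_eq_mul]
  ring

theorem rel_sys (c : Fin n → Fin 3) (H : Finset (Finset (Fin n)))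
    (hfree : ∀ S : Finset (Fin n), S.card = 4 → ∃ e ⊆ S, e.card = 3 ∧ e ∉ H) :
    Sys c (Rel H) where
  s1 x y z h := by
    refine ⟨h.1.symm, h.2.2.1, h.2.1, ?_⟩
    have : ({y, x, z} : Finset (Fin n)) = {x, y, z} := insert_comm _ _ _
    rw [this]; exact h.2.2.2
  s2 x y z h := by
    refine ⟨h.2.2.1, h.2.1.symm, h.1, ?_⟩
    have : ({x, z, y} : Finset (Fin n)) = {x, y, z} := by rw [pair_comm z y]
    rw [this]; exact h.2.2.2
  ne x y z h := h.1
  k4 x y z w h1 h2 h3 h4 := by
    have n1 := h1.1
    have n2 := h1.2.1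
    have n3 := h1.2.2.1
    have n4 := h2.2.1
    have n5 := h2.2.2.1
    have n6 := h3.2.1
    have hS : ({x, y, z, w} : Finset (Fin n)).card = 4 := by
      rw [card_insert_of_notMem, card_insert_of_notMem, card_pair n6]
      · simp only [mem_insert, mem_singleton]; push Not; exact ⟨n2, n4⟩
      · simp only [mem_insert, mem_singleton]; push Not; exact ⟨n1, n3, n5⟩
    obtain ⟨e, he1, he2, he3⟩ := hfree _ hS
    apply he3
    -- the missing vertex
    have hcd : (({x, y, z, w} : Finset (Fin n)) \ e).card = 1 := by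
      rw [card_sdiff_of_subset he1, hS, he2]
    obtain ⟨u, hu⟩ := card_eq_one.1 hcd
    have hu1 : u ∈ ({x, y, z, w} : Finset (Fin n)) \ e := by rw [hu]; simp
    have heq : e = ({x, y, z, w} : Finset (Fin n)).erase u := by
      rw [← sdiff_singleton_eq_erase, ← hu]
      rw [Finset.sdiff_sdiff_eq_self he1]
    rw [mem_sdiff] at hu1
    have hu2 := hu1.1
    simp only [mem_insert, mem_singleton] at hu2
    rcases hu2 with rfl | rfl | rfl | rfl
    · have : e = {y, z, w} := by
        rw [heq]; ext t; simp only [mem_erase, mem_insert, mem_singleton]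
        constructor
        · rintro ⟨a, b | b | b | b⟩
          · exact absurd b a
          · exact Or.inl b
          · exact Or.inr (Or.inl b)
          · exact Or.inr (Or.inr b)
        · rintro (b | b | b)
          · subst b; exact ⟨n1.symm, by simp⟩
          · subst b; exact ⟨n3.symm, by simp⟩
          · subst b; exact ⟨n5.symm, by simp⟩
      rw [this]; exact h4.2.2.2
    · have : e = {x, z, w} := by
        rw [heq]; ext t; simp only [mem_erase, mem_insert, mem_singleton]
        constructor
        · rintro ⟨a, b | b | b | b⟩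
          · exact Or.inl b
          · exact absurd b a
          · exact Or.inr (Or.inl b)
          · exact Or.inr (Or.inr b)
        · rintro (b | b | b)
          · subst b; exact ⟨n1, by simp⟩
          · subst b; exact ⟨n2.symm, by simp⟩
          · subst b; exact ⟨n4.symm, by simp⟩
      rw [this]; exact h3.2.2.2
    · have : e = {x, y, w} := by
        rw [heq]; ext t; simp only [mem_erase, mem_insert, mem_singleton]
        constructor
        · rintro ⟨a, b | b | b | b⟩
          · exact Or.inl b
          · exact Or.inr (Or.inl b)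
          · exact absurd b a
          · exact Or.inr (Or.inr b)
        · rintro (b | b | b)
          · subst b; exact ⟨n3, by simp⟩
          · subst b; exact ⟨n2, by simp⟩
          · subst b; exact ⟨n6.symm, by simp⟩
      rw [this]; exact h2.2.2.2
    · have : e = {x, y, z} := by
        rw [heq]; ext t; simp only [mem_erase, mem_insert, mem_singleton]
        constructor
        · rintro ⟨a, b | b | b | b⟩
          · exact Or.inl b
          · exact Or.inr (Or.inl b)
          · exact Or.inr (Or.inr b)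
          · exact absurd b a
        · rintro (b | b | b)
          · subst b; exact ⟨n5, by simp⟩
          · subst b; exact ⟨n4, by simp⟩
          · subst b; exact ⟨n6, by simp⟩
      rw [this]; exact h1.2.2.2

theorem all_colours : ∀ a b d : Fin 3, (∀ k, a = k ∨ b = k ∨ d = k) ↔
    ((b = a + 1 ∧ d = a + 2) ∨ (b = a + 2 ∧ d = a + 1)) := by decide

theorem TD_count (c : Fin n → Fin 3) (H : Finset (Finset (Fin n))) (hH : ∀ e ∈ H, e.card = 3)
    (hs : Sys c (Rel H)) (v : Fin n) :
    TD c (Rel H) v = ((H.filter fun e => v ∈ e ∧ ∀ k, ∃ x ∈ e, c x = k).card : ℝ) := by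
  have h1 := vertex_count (H.filter fun e => ∀ k, ∃ x ∈ e, c x = k)
    (fun e he => hH e (mem_filter.1 he).1) v
  rw [filter_filter] at h1
  have h2 : ∑ y, ∑ z, ind (Rel (H.filter fun e => ∀ k, ∃ x ∈ e, c x = k) v y z) =
      ∑ y, ∑ z, (ind (c y = c v + 1 ∧ c z = c v + 2 ∧ Rel H v y z) +
        ind (c z = c v + 1 ∧ c y = c v + 2 ∧ Rel H v z y)) := by
    refine sum_congr rfl fun y _ => sum_congr rfl fun z _ => ?_
    have hsym : Rel H v z y ↔ Rel H v y z := ⟨hs.s2 _ _ _, hs.s2 _ _ _⟩
    have e1 : Rel (H.filter fun e => ∀ k, ∃ x ∈ e, c x = k) v y z ↔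
        Rel H v y z ∧ ((c y = c v + 1 ∧ c z = c v + 2) ∨ (c y = c v + 2 ∧ c z = c v + 1)) := by
      unfold Rel
      rw [mem_filter, ← all_colours]
      simp only [mem_insert, mem_singleton, exists_eq_or_imp, exists_eq_left]
      tauto
    by_cases h3 : Rel H v y z
    · by_cases h4 : c y = c v + 1 ∧ c z = c v + 2
      · have h5 : ¬ (c z = c v + 1 ∧ c y = c v + 2 ∧ Rel H v z y) := by
          rintro ⟨a, b, -⟩
          rw [h4.1] at b
          exact fin3_ne12 _ b
        rw [ind_t (e1.2 ⟨h3, Or.inl h4⟩), ind_t ⟨h4.1, h4.2, h3⟩, ind_f h5]; norm_num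
      · by_cases h5 : c y = c v + 2 ∧ c z = c v + 1
        · rw [ind_t (e1.2 ⟨h3, Or.inr h5⟩), ind_f (fun h => h4 ⟨h.1, h.2.1⟩),
            ind_t ⟨h5.2, h5.1, hsym.2 h3⟩]; norm_num
        · rw [ind_f (fun h => by rcases (e1.1 h).2 with h | h; exacts [h4 h, h5 h]),
            ind_f (fun h => h4 ⟨h.1, h.2.1⟩), ind_f (fun h => h5 ⟨h.2.1, h.1⟩)]; norm_num
    · rw [ind_f (fun h => h3 (e1.1 h).1), ind_f (fun h => h3 h.2.2),
        ind_f (fun h => h3 (hsym.1 h.2.2))]; norm_num
  have h3 : ∑ y, ∑ z, (ind (c y = c v + 1 ∧ c z = c v + 2 ∧ Rel H v y z) +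
        ind (c z = c v + 1 ∧ c y = c v + 2 ∧ Rel H v z y)) = 2 * TD c (Rel H) v := by
    simp only [sum_add_distrib]
    have : ∑ y, ∑ z, ind (c z = c v + 1 ∧ c y = c v + 2 ∧ Rel H v z y) = TD c (Rel H) v := by
      unfold TD
      rw [sum_comm]
    rw [this]
    unfold TD
    ring
  rw [h2, h3] at h1
  have h4 : (H.filter fun e => (∀ k, ∃ x ∈ e, c x = k) ∧ v ∈ e) =
      H.filter fun e => v ∈ e ∧ ∀ k, ∃ x ∈ e, c x = k := filter_congr fun e _ => and_comm
  rw [h4] at h1
  linarith

theorem io_count (c : Fin n → Fin 3) (H : Finset (Finset (Fin n))) (hH : ∀ e ∈ H, e.card = 3)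
    (x y : Fin n) (b : ℝ) (hb : 0 ≤ b)
    (h : x ≠ y → ((H.filter fun e => x ∈ e ∧ y ∈ e ∧ ∀ z ∈ e, c z = c x).card : ℝ) ≤ b) :
    io c (Rel H) x y ≤ b := by
  by_cases hxy : x = y
  · subst hxy
    unfold io
    rw [sum_eq_zero fun z _ => ind_f fun h => h.2.1 rfl]
    exact hb
  · refine le_trans ?_ (h hxy)
    have h1 := pair_count (H.filter fun e => ∀ z ∈ e, c z = c x)
      (fun e he => hH e (mem_filter.1 he).1) x y hxy
    rw [filter_filter] at h1
    have h4 : (H.filter fun e => (∀ z ∈ e, c z = c x) ∧ x ∈ e ∧ y ∈ e) =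
      H.filter fun e => x ∈ e ∧ y ∈ e ∧ ∀ z ∈ e, c z = c x := filter_congr fun e _ => by tauto
    rw [h4] at h1
    rw [← h1]
    unfold io
    refine sum_le_sum fun z _ => ind_mono ?_
    rintro ⟨⟨a1, a2⟩, a3, a4, a5, a6⟩
    refine ⟨a3, a4, a5, ?_⟩
    rw [mem_filter]
    refine ⟨a6, ?_⟩
    intro w hw
    simp only [mem_insert, mem_singleton] at hw
    rcases hw with rfl | rfl | rfl
    · rfl
    · exact a1
    · exact a2

/-- number of edges of Turán's construction -/
def tnum (n : ℕ) : ℕ :=
  n / 3 * ((n + 1) / 3) * ((n + 2) / 3) + (n / 3).choose 2 * ((n + 1) / 3) +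
    ((n + 1) / 3).choose 2 * ((n + 2) / 3) + ((n + 2) / 3).choose 2 * (n / 3)

theorem tnum_TT (n : ℕ) : 6 * (tnum n : ℝ) = TT (n / 3 : ℕ) (n % 3 : ℕ) := by
  have hr : n % 3 < 3 := Nat.mod_lt _ (by norm_num)
  unfold tnum TT
  push_cast [Nat.cast_choose_two]
  obtain h | h | h : n % 3 = 0 ∨ n % 3 = 1 ∨ n % 3 = 2 := by omega
  · have e1 : (n + 1) / 3 = n / 3 := by omega
    have e2 : (n + 2) / 3 = n / 3 := by omega
    rw [e1, e2, h]
    push_cast
    ring
  · have e1 : (n + 1) / 3 = n / 3 := by omega
    have e2 : (n + 2) / 3 = n / 3 + 1 := by omega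
    rw [e1, e2, h]
    push_cast
    ring
  · have e1 : (n + 1) / 3 = n / 3 + 1 := by omega
    have e2 : (n + 2) / 3 = n / 3 + 1 := by omega
    rw [e1, e2, h]
    push_cast
    ring

theorem fd_sets (c c' : Fin n → Fin 3) (hc : c' = c ∨ c' = neg3 c) (rev : Fin n → Fin n → Bool)
    (H : Finset (Finset (Fin n))) (hH : ∀ e ∈ H, e.card = 3)
    (h : ∀ x y z, Rel H x y z ↔ FD c' rev x y z) :
    ∃ A : Fin n → Fin n → Prop,
      (∀ x y, (A x y → c x ≠ c y) ∧ (c x ≠ c y → (A x y ↔ ¬ A y x))) ∧
      ∀ e : Finset (Fin n), e ∈ H ↔ e.card = 3 ∧ (∃ x ∈ e, ∃ y ∈ e, c x ≠ c y) ∧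
        ∀ x ∈ e, ∀ y ∈ e, ∀ z ∈ e, A x y → A x z → y = z := by
  have hcc : ∀ x y, c' x = c' y ↔ c x = c y := by
    intro x y
    rcases hc with rfl | rfl
    · exact Iff.rfl
    · unfold neg3; exact neg_eq_iff' _ _
  refine ⟨Ar c' rev, fun x y => ⟨fun hA he => ?_, fun hne => ?_⟩, fun e => ?_⟩
  · unfold Ar at hA
    rw [(hcc x y).2 he, arc_same] at hA
    exact absurd hA (by simp)
  · exact arc_two _ _ _ _ (fun h => hne ((hcc x y).1 h))
  · have hir : ∀ x, ¬ Ar c' rev x x := Ar_irrefl
    constructor
    · intro he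
      have h3 := hH e he
      obtain ⟨x, y, z, n1, n2, n3, rfl⟩ := card_eq_three.1 h3
      have hR : Rel H x y z := ⟨n1, n3, n2, he⟩
      obtain ⟨-, -, -, hf⟩ := (h x y z).1 hR
      unfold fdB at hf
      simp only [Bool.and_eq_true, Bool.not_eq_true', Bool.and_eq_false_iff] at hf
      obtain ⟨⟨⟨f0, f1⟩, f2⟩, f3⟩ := hf
      refine ⟨h3, ?_, ?_⟩
      · by_contra hcon
        push Not at hcon
        have g1 : c x = c y := hcon x (by simp) y (by simp)
        have g2 : c y = c z := hcon y (by simp) z (by simp)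
        rcases f0 with f0 | f0
        · simp only [beq_eq_false_iff_ne] at f0
          exact f0 ((hcc x y).2 g1)
        · simp only [beq_eq_false_iff_ne] at f0
          exact f0 ((hcc y z).2 g2)
      · have F1 : ¬ (Ar c' rev x y ∧ Ar c' rev x z) := by
          rintro ⟨a, b⟩
          unfold Ar at a b
          rcases f1 with f | f
          · rw [a] at f; exact absurd f (by simp)
          · rw [b] at f; exact absurd f (by simp)
        have F2 : ¬ (Ar c' rev y x ∧ Ar c' rev y z) := by
          rintro ⟨a, b⟩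
          unfold Ar at a b
          rcases f2 with f | f
          · rw [a] at f; exact absurd f (by simp)
          · rw [b] at f; exact absurd f (by simp)
        have F3 : ¬ (Ar c' rev z x ∧ Ar c' rev z y) := by
          rintro ⟨a, b⟩
          unfold Ar at a b
          rcases f3 with f | f
          · rw [a] at f; exact absurd f (by simp)
          · rw [b] at f; exact absurd f (by simp)
        intro u hu v hv w hw a b
        simp only [mem_insert, mem_singleton] at hu hv hw
        have key : ∀ p q r : Fin n, ¬ (Ar c' rev p q ∧ Ar c' rev p r) → (v = q ∨ v = r ∨ v = p) →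
            (w = q ∨ w = r ∨ w = p) → u = p → v = w := by
          intro p q r hn h1 h2 h3
          subst h3
          rcases h1 with h1 | h1 | h1 <;> rcases h2 with h2 | h2 | h2
          · rw [h1, h2]
          · rw [h1] at a; rw [h2] at b; exact (hn ⟨a, b⟩).elim
          · rw [h2] at b; exact (hir _ b).elim
          · rw [h1] at a; rw [h2] at b; exact (hn ⟨b, a⟩).elim
          · rw [h1, h2]
          · rw [h2] at b; exact (hir _ b).elim
          · rw [h1] at a; exact (hir _ a).elim
          · rw [h1] at a; exact (hir _ a).elim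
          · rw [h1, h2]
        have p1 : ∀ t : Fin n, (t = x ∨ t = y ∨ t = z) → (t = y ∨ t = z ∨ t = x) := by
          intro t h
          rcases h with h | h | h
          · exact Or.inr (Or.inr h)
          · exact Or.inl h
          · exact Or.inr (Or.inl h)
        have p2 : ∀ t : Fin n, (t = x ∨ t = y ∨ t = z) → (t = x ∨ t = z ∨ t = y) := by
          intro t h
          rcases h with h | h | h
          · exact Or.inl h
          · exact Or.inr (Or.inr h)
          · exact Or.inr (Or.inl h)
        rcases hu with hu | hu | hu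
        · exact key x y z F1 (p1 v hv) (p1 w hw) hu
        · exact key y x z F2 (p2 v hv) (p2 w hw) hu
        · exact key z x y F3 hv hw hu
    · rintro ⟨h3, hm, ho⟩
      obtain ⟨x, y, z, n1, n2, n3, rfl⟩ := card_eq_three.1 h3
      have hF : FD c' rev x y z := by
        refine ⟨n1, n3, n2, ?_⟩
        unfold fdB
        simp only [Bool.and_eq_true, Bool.not_eq_true', Bool.and_eq_false_iff]
        refine ⟨⟨⟨?_, ?_⟩, ?_⟩, ?_⟩
        · by_contra hcon
          push Not at hcon
          obtain ⟨g1, g2⟩ := hcon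
          simp only [ne_eq, beq_eq_false_iff_ne, not_not] at g1 g2
          have g1' := (hcc x y).1 g1
          have g2' := (hcc y z).1 g2
          obtain ⟨u, hu, v, hv, huv⟩ := hm
          apply huv
          simp only [mem_insert, mem_singleton] at hu hv
          rcases hu with rfl | rfl | rfl <;> rcases hv with rfl | rfl | rfl <;>
            simp [g1', g2']
        · by_contra hcon
          push Not at hcon
          obtain ⟨g1, g2⟩ := hcon
          simp only [ne_eq, Bool.not_eq_false] at g1 g2
          exact n3 (ho x (by simp) y (by simp) z (by simp) g1 g2)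
        · by_contra hcon
          push Not at hcon
          obtain ⟨g1, g2⟩ := hcon
          simp only [ne_eq, Bool.not_eq_false] at g1 g2
          exact n2 (ho y (by simp) x (by simp) z (by simp) g1 g2)
        · by_contra hcon
          push Not at hcon
          obtain ⟨g1, g2⟩ := hcon
          simp only [ne_eq, Bool.not_eq_false] at g1 g2
          exact n1 (ho z (by simp) x (by simp) y (by simp) g1 g2)
      exact ((h x y z).2 hF).2.2.2

end Pool.Agent.Y439.Loc
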