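import Mathlib

/-!
3-graphs near Turán's construction: the majority orientation and the comparison with its
Fon-der-Flaass 3-graph.
-/

set_option autoImplicit false
set_option linter.unusedVariables false

open Finset
open scoped Classical

namespace Pool.Agent.Y439.Loc

/-- The arc relation on data: classes `cx`, `cy`; `rxy` says that the pair is reversed. -/
def arcB (cx cy : Fin 3) (rxy ryx : Bool) : Bool := (cy == cx + 1 && !rxy) || (cx == cy + 1 && ryx)

/-- The triple with these data is not monochromatic and has no vertex with two out-neighbours. -/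
def fdB (cx cy cz : Fin 3) (rxy ryx rxz rzx ryz rzy : Bool) : Bool :=
  !(cx == cy && cy == cz) && !(arcB cx cy rxy ryx && arcB cx cz rxz rzx) &&
    !(arcB cy cx ryx rxy && arcB cy cz ryz rzy) && !(arcB cz cx rzx rxz && arcB cz cy rzy ryz)

theorem ext_data : ∀ (cx cy cz : Fin 3) (rxy ryx rxz rzx ryz rzy : Bool),
    fdB cx cy cz rxy ryx rxz rzx ryz rzy = false →
    ∃ k : Fin 3, fdB cx cy k rxy ryx false false false false = true ∧
      fdB cx cz k rxz rzx false false false false = true ∧
      fdB cy cz k ryz rzy false false false false = true := by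
  decide +kernel

theorem cod_same : ∀ (cx cz : Fin 3) (rxy ryx rxz rzx ryz rzy : Bool),
    fdB cx cx cz rxy ryx rxz rzx ryz rzy = false → cx ≠ cz →
    cz = cx + 2 ∨ (cz = cx + 1 ∧ rxz = true) := by
  decide +kernel

theorem cod_nor : ∀ (cx cz : Fin 3) (rxy ryx rxz rzx ryz rzy : Bool),
    fdB cx (cx + 1) cz rxy ryx rxz rzx ryz rzy = false → rxy = false →
    (cz = cx + 1) ∨ (cz = cx + 1 + 1 ∧ ryz = true) ∨ (cx = cz + 1 ∧ rzx = true) := by
  decide +kernel

theorem cod_rev : ∀ (cx cz : Fin 3) (rxy ryx rxz rzx ryz rzy : Bool),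
    fdB cx (cx + 1) cz rxy ryx rxz rzx ryz rzy = false → rxy = true →
    (cx + 1 = cz + 1 ∧ rzy = true) ∨ (cz = cx + 2) := by
  decide +kernel

/-- indicator -/
noncomputable def ind (p : Prop) : ℝ := if p then 1 else 0

theorem ind_nonneg (p : Prop) : 0 ≤ ind p := by unfold ind; split_ifs <;> norm_num
theorem ind_le_one (p : Prop) : ind p ≤ 1 := by unfold ind; split_ifs <;> norm_num
theorem ind_t {p : Prop} (h : p) : ind p = 1 := if_pos h
theorem ind_f {p : Prop} (h : ¬ p) : ind p = 0 := if_neg h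
theorem ind_mono {p q : Prop} (h : p → q) : ind p ≤ ind q := by
  by_cases hp : p
  · rw [ind_t hp, ind_t (h hp)]
  · rw [ind_f hp]; exact ind_nonneg q
theorem ind_or {p q r : Prop} (h : p → q ∨ r) : ind p ≤ ind q + ind r := by
  by_cases hp : p
  · rcases h hp with hq | hr
    · rw [ind_t hp, ind_t hq]; linarith [ind_nonneg r]
    · rw [ind_t hp, ind_t hr]; linarith [ind_nonneg q]
  · rw [ind_f hp]; linarith [ind_nonneg q, ind_nonneg r]
theorem ind_or3 {p q r s : Prop} (h : p → q ∨ r ∨ s) : ind p ≤ ind q + ind r + ind s := by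
  have h1 : ind p ≤ ind q + ind (r ∨ s) := ind_or h
  have h2 : ind (r ∨ s) ≤ ind r + ind s := ind_or (fun h => h)
  linarith
theorem ind_or4 {p q r s t : Prop} (h : p → q ∨ r ∨ s ∨ t) :
    ind p ≤ ind q + ind r + ind s + ind t := by
  have h1 : ind p ≤ ind q + ind (r ∨ s ∨ t) := ind_or h
  have h2 : ind (r ∨ s ∨ t) ≤ ind r + ind s + ind t := ind_or3 (fun h => h)
  linarith
theorem ind_mul (p q : Prop) : ind p * ind q = ind (p ∧ q) := by
  by_cases hp : p <;> by_cases hq : q <;> simp [ind, hp, hq]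

set_option linter.unusedSectionVars false
variable {V : Type} [Fintype V]

/-- A 3-graph without `K_4^3`. -/
structure Sys (c : V → Fin 3) (H : V → V → V → Prop) : Prop where
  s1 : ∀ x y z, H x y z → H y x z
  s2 : ∀ x y z, H x y z → H x z y
  ne : ∀ x y z, H x y z → x ≠ y
  k4 : ∀ x y z w, H x y z → H x y w → H x z w → H y z w → False

/-- triple system of an orientation of the pairs between the classes -/
def FD (c : V → Fin 3) (rev : V → V → Bool) (x y z : V) : Prop :=
  x ≠ y ∧ y ≠ z ∧ x ≠ z ∧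
    fdB (c x) (c y) (c z) (rev x y) (rev y x) (rev x z) (rev z x) (rev y z) (rev z y) = true

/-- Turán's construction with the classes of `c` -/
def Tu (c : V → Fin 3) : V → V → V → Prop := FD c (fun _ _ => false)

/-- number of ordered pairs on which the links of `v` in `H` and in `T` differ -/
noncomputable def wr (c : V → Fin 3) (H : V → V → V → Prop) (v : V) : ℝ :=
  ∑ y, ∑ z, ind (¬ (H v y z ↔ Tu c v y z))

noncomputable def sz (c : V → Fin 3) (k : Fin 3) : ℝ := ∑ x, ind (c x = k)

noncomputable def gam (c : V → Fin 3) (H : V → V → V → Prop) (x y : V) : ℝ :=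
  ∑ z, ind (c z = c y ∧ H x y z)
noncomputable def tt (c : V → Fin 3) (H : V → V → V → Prop) (x y : V) : ℝ :=
  ∑ z, ind (c z = c x + 2 ∧ H x y z)
noncomputable def nu (c : V → Fin 3) (H : V → V → V → Prop) (x y : V) : ℝ :=
  ∑ z, ind (c z = c x + 2 ∧ ¬ H x y z)

/-- edges inside a class at a pair of vertices -/
noncomputable def io (c : V → Fin 3) (H : V → V → V → Prop) (x y : V) : ℝ :=
  ∑ z, ind ((c y = c x ∧ c z = c x) ∧ H x y z)

/-- the majority rule -/
noncomputable def rv (c : V → Fin 3) (H : V → V → V → Prop) (x y : V) : Bool :=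
  decide (c y = c x + 1 ∧ tt c H x y ≤ gam c H x y)

theorem rv_iff (c : V → Fin 3) (H : V → V → V → Prop) (x y : V) :
    rv c H x y = true ↔ c y = c x + 1 ∧ tt c H x y ≤ gam c H x y := by
  unfold rv; simp

theorem sum_nonneg' {f : V → ℝ} (h : ∀ x, 0 ≤ f x) : 0 ≤ ∑ x, f x := sum_nonneg fun x _ => h x

theorem tt_nu (c : V → Fin 3) (H : V → V → V → Prop) (x y : V) :
    tt c H x y + nu c H x y = sz c (c x + 2) := by
  unfold tt nu sz
  rw [← sum_add_distrib]
  refine sum_congr rfl fun z _ => ?_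
  by_cases h1 : c z = c x + 2 <;> by_cases h2 : H x y z <;> simp [ind, h1, h2]

theorem fin3_ne1 : ∀ k : Fin 3, k ≠ k + 1 := by decide
theorem fin3_ne2 : ∀ k : Fin 3, k ≠ k + 2 := by decide
theorem fin3_ne12 : ∀ k : Fin 3, k + 1 ≠ k + 2 := by decide
theorem fin3_21 : ∀ k : Fin 3, k + 2 + 1 = k := by decide
theorem fin3_11 : ∀ k : Fin 3, k + 1 + 1 = k + 2 := by decide
theorem fin3_12 : ∀ k : Fin 3, k + 1 + 2 = k := by decide

/-- Turán triples with three different classes -/
theorem tu_three {c : V → Fin 3} {x y z : V} (h1 : c y = c x + 1) (h2 : c z = c x + 2) :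
    Tu c x y z := by
  have n1 : x ≠ y := fun h => fin3_ne1 (c x) (by rw [← h1, h])
  have n2 : x ≠ z := fun h => fin3_ne2 (c x) (by rw [← h2, h])
  have n3 : y ≠ z := fun h => fin3_ne12 (c x) (by rw [← h1, ← h2, h])
  refine ⟨n1, n3, n2, ?_⟩
  rw [h1, h2]
  beta_reduce
  generalize c x = k
  revert k; decide

/-- two vertices in a class and the third in the next one -/
theorem tu_two {c : V → Fin 3} {x y z : V} (h1 : c y = c x) (h2 : c z = c x + 1) (h3 : x ≠ y) :
    Tu c x y z := by
  have n2 : x ≠ z := fun h => fin3_ne1 (c x) (by rw [← h2, h])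
  have n3 : y ≠ z := fun h => fin3_ne1 (c x) (by rw [← h2, ← h, h1])
  refine ⟨h3, n3, n2, ?_⟩
  rw [h1, h2]
  beta_reduce
  generalize c x = k
  revert k; decide

/-- a vertex and two vertices in the preceding class -/
theorem tu_pre {c : V → Fin 3} {x y z : V} (h1 : c y = c x + 2) (h2 : c z = c x + 2) (h3 : y ≠ z) :
    Tu c x y z := by
  have n2 : x ≠ y := fun h => fin3_ne2 (c x) (by rw [← h1, h])
  have n3 : x ≠ z := fun h => fin3_ne2 (c x) (by rw [← h2, h])
  refine ⟨n2, h3, n3, ?_⟩
  rw [h1, h2]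
  beta_reduce
  generalize c x = k
  revert k; decide

/-- a vertex and two vertices in the next class -/
theorem tu_not {c : V → Fin 3} {x y z : V} (h1 : c y = c x + 1) (h2 : c z = c x + 1) :
    ¬ Tu c x y z := by
  rintro ⟨-, -, -, h⟩
  rw [h1, h2] at h
  beta_reduce at h
  revert h
  generalize c x = k
  revert k; decide

/-- a vertex, a vertex of the same class and a vertex of the preceding class -/
theorem tu_not' {c : V → Fin 3} {x y z : V} (h1 : c y = c x) (h2 : c z = c x + 2) :
    ¬ Tu c x y z := by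
  rintro ⟨-, -, -, h⟩
  rw [h1, h2] at h
  beta_reduce at h
  revert h
  generalize c x = k
  revert k; decide

section
variable {c : V → Fin 3} {H : V → V → V → Prop}

theorem Sys.s3 (S : Sys c H) {x y z : V} (h : H x y z) : H z x y :=
  S.s1 _ _ _ (S.s2 _ _ _ h)

theorem Sys.ne23 (S : Sys c H) {x y z : V} (h : H x y z) : y ≠ z :=
  S.ne _ _ _ (S.s3 (S.s3 h))

theorem Sys.ne13 (S : Sys c H) {x y z : V} (h : H x y z) : x ≠ z := fun e =>
  S.ne _ _ _ (S.s3 h) e.symm

/-- reversed pairs at the first vertex -/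
theorem rho1 (S : Sys c H) (x : V) (L : ℝ) (hL : L ≤ sz c (c x + 2)) :
    (∑ y, ind (rv c H x y = true)) * L ≤ wr c H x := by
  rw [sum_mul]
  unfold wr
  refine sum_le_sum fun y _ => ?_
  by_cases h : rv c H x y = true
  · rw [ind_t h, one_mul]
    obtain ⟨h1, h2⟩ := (rv_iff c H x y).1 h
    have h3 := tt_nu c H x y
    have h4 : L ≤ gam c H x y + nu c H x y := by linarith
    refine h4.trans ?_
    unfold gam nu
    rw [← sum_add_distrib]
    refine sum_le_sum fun z _ => ?_
    by_cases h5 : c z = c y ∧ H x y z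
    · have h6 : ¬ (c z = c x + 2 ∧ ¬ H x y z) := fun h => h.2 h5.2
      have h7 : ¬ Tu c x y z := tu_not h1 (h5.1.trans h1)
      rw [ind_t h5, ind_f h6, ind_t (fun h => h7 (h.1 h5.2))]
      norm_num
    · rw [ind_f h5, zero_add]
      refine ind_mono fun h8 h9 => ?_
      exact h8.2 (h9.2 (tu_three h1 h8.1))
  · rw [ind_f h, zero_mul]
    exact sum_nonneg' fun _ => ind_nonneg _

/-- reversed pairs at the second vertex -/
theorem rho2 (S : Sys c H) (y : V) (L : ℝ) (hL : ∀ k, L ≤ sz c k) :
    (∑ x, ind (rv c H x y = true)) * L ≤ wr c H y := by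
  rw [sum_mul]
  unfold wr
  refine sum_le_sum fun x _ => ?_
  by_cases h : rv c H x y = true
  · rw [ind_t h, one_mul]
    obtain ⟨h1, h2⟩ := (rv_iff c H x y).1 h
    have h3 := tt_nu c H x y
    have h4 : L ≤ gam c H x y + nu c H x y := by linarith [hL (c x + 2)]
    refine h4.trans ?_
    have hx : c x = c y + 2 := by rw [h1]; exact (fin3_12 (c x)).symm
    unfold gam nu
    rw [← sum_add_distrib]
    refine sum_le_sum fun z _ => ?_
    by_cases h5 : c z = c y ∧ H x y z
    · have h6 : ¬ (c z = c x + 2 ∧ ¬ H x y z) := fun h => h.2 h5.2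
      have h7 : ¬ Tu c y x z := by
        rintro ⟨-, -, -, h⟩
        rw [h5.1, hx] at h
        beta_reduce at h
        revert h
        generalize c y = k
        revert k; decide
      rw [ind_t h5, ind_f h6, ind_t (fun h => h7 (h.1 (S.s1 _ _ _ h5.2)))]
      norm_num
    · rw [ind_f h5, zero_add]
      refine ind_mono fun h8 h9 => ?_
      refine h8.2 (S.s1 _ _ _ (h9.2 ?_))
      have hz : c z = c y + 1 := by rw [h8.1, h1]; exact (fin3_11 (c x)).symm
      have n1 : x ≠ y := fun h => fin3_ne1 (c x) (by rw [← h1, h])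
      have n2 : x ≠ z := fun h => fin3_ne2 (c x) (by rw [← h8.1, h])
      have n3 : y ≠ z := fun h => fin3_ne12 (c x) (by rw [← h1, ← h8.1, h])
      refine ⟨n1.symm, n2, n3, ?_⟩
      rw [hz, hx]
      beta_reduce
      generalize c y = k
      revert k; decide
  · rw [ind_f h, zero_mul]
    exact sum_nonneg' fun _ => ind_nonneg _

/-- few wrong triples or few transversals at a pair -/
theorem gam_tt (S : Sys c H) (x y : V) (h : c y = c x + 1) :
    gam c H x y * tt c H x y ≤ wr c H x + wr c H y := by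
  unfold gam tt wr
  rw [sum_mul_sum, ← sum_add_distrib]
  refine sum_le_sum fun z _ => ?_
  rw [← sum_add_distrib]
  refine sum_le_sum fun u _ => ?_
  rw [ind_mul]
  refine ind_or ?_
  rintro ⟨⟨h1, h2⟩, h3, h4⟩
  by_contra hc
  push Not at hc
  obtain ⟨hc1, hc2⟩ := hc
  have e1 : H x z u := hc1.2 (tu_three (h1.trans h) h3)
  have e2 : H y z u := hc2.2 (tu_two h1 (by rw [h3, h]; exact (fin3_11 (c x)).symm) (S.ne23 h2))
  exact S.k4 x y z u h2 h4 e1 e2

/-- few wrong triples at a pair inside a class -/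
theorem zz (S : Sys c H) (x y : V) (h : c y = c x) :
    tt c H x y * tt c H x y ≤ tt c H x y + (wr c H x + wr c H y) := by
  unfold tt wr
  rw [sum_mul_sum, ← sum_add_distrib, ← sum_add_distrib]
  refine sum_le_sum fun z _ => ?_
  by_cases hz : c z = c x + 2 ∧ H x y z
  · rw [ind_t hz]
    have : ∑ u, 1 * ind (c u = c x + 2 ∧ H x y u) ≤
        ∑ u, (ind (u = z) + (ind (¬ (H x z u ↔ Tu c x z u)) + ind (¬ (H y z u ↔ Tu c y z u)))) := by
      refine sum_le_sum fun u _ => ?_
      rw [one_mul]
      have := @ind_or3 (c u = c x + 2 ∧ H x y u) (u = z) (¬ (H x z u ↔ Tu c x z u))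
        (¬ (H y z u ↔ Tu c y z u)) ?_
      · linarith
      rintro ⟨h1, h2⟩
      by_contra hc
      push Not at hc
      obtain ⟨hc0, hc1, hc2⟩ := hc
      have e1 : H x z u := hc1.2 (tu_pre hz.1 h1 (Ne.symm hc0))
      have e2 : H y z u := hc2.2 (tu_pre (by rw [h]; exact hz.1) (by rw [h]; exact h1) (Ne.symm hc0))
      exact S.k4 x y z u hz.2 h2 e1 e2
    refine this.trans ?_
    rw [sum_add_distrib, sum_add_distrib]
    have h2 : ∑ u, ind (u = z) = 1 := by
      simp [ind]
    rw [h2]
  · rw [ind_f hz]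
    simp only [zero_mul, sum_const_zero, zero_add]
    exact add_nonneg (sum_nonneg' fun _ => ind_nonneg _) (sum_nonneg' fun _ => ind_nonneg _)

end

end Pool.Agent.Y439.Loc
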