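import Pool.Agent.Y439.LocA

/-! Double counting for the majority orientation. -/

set_option autoImplicit false
set_option linter.unusedVariables false
set_option linter.unusedSectionVars false

open Finset
open scoped Classical

namespace Pool.Agent.Y439.Loc

variable {V : Type} [Fintype V] {c : V → Fin 3} {H : V → V → V → Prop}

/-- The triple system of the majority orientation. -/
noncomputable def RR (c : V → Fin 3) (H : V → V → V → Prop) : V → V → V → Prop := FD c (rv c H)

theorem fdB_s1 : ∀ (cx cy cz : Fin 3) (rxy ryx rxz rzx ryz rzy : Bool),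
    fdB cx cy cz rxy ryx rxz rzx ryz rzy = fdB cy cx cz ryx rxy ryz rzy rxz rzx := by
  decide +kernel

theorem fdB_s2 : ∀ (cx cy cz : Fin 3) (rxy ryx rxz rzx ryz rzy : Bool),
    fdB cx cy cz rxy ryx rxz rzx ryz rzy = fdB cx cz cy rxz rzx rxy ryx rzy ryz := by
  decide +kernel

theorem FD_s1 {rev : V → V → Bool} {x y z : V} (h : FD c rev x y z) : FD c rev y x z := by
  obtain ⟨h1, h2, h3, h4⟩ := h
  exact ⟨h1.symm, h3, h2, by rw [← fdB_s1]; exact h4⟩

theorem FD_s2 {rev : V → V → Bool} {x y z : V} (h : FD c rev x y z) : FD c rev x z y := by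
  obtain ⟨h1, h2, h3, h4⟩ := h
  exact ⟨h3, h2.symm, h1, by rw [← fdB_s2]; exact h4⟩

/-- superfluous and missing triples -/
noncomputable def Dp (c : V → Fin 3) (H : V → V → V → Prop) (x y z : V) : Prop :=
  H x y z ∧ ¬ RR c H x y z
noncomputable def Dm (c : V → Fin 3) (H : V → V → V → Prop) (x y z : V) : Prop :=
  RR c H x y z ∧ ¬ H x y z

theorem Dp_s1 (S : Sys c H) {x y z : V} (h : Dp c H x y z) : Dp c H y x z :=
  ⟨S.s1 _ _ _ h.1, fun h' => h.2 (FD_s1 h')⟩
theorem Dp_s2 (S : Sys c H) {x y z : V} (h : Dp c H x y z) : Dp c H x z y :=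
  ⟨S.s2 _ _ _ h.1, fun h' => h.2 (FD_s2 h')⟩

noncomputable def dp (c : V → Fin 3) (H : V → V → V → Prop) (x y : V) : ℝ := ∑ z, ind (Dp c H x y z)
noncomputable def dm (c : V → Fin 3) (H : V → V → V → Prop) (x y : V) : ℝ := ∑ z, ind (Dm c H x y z)

/-- Every superfluous triple is completed by almost all vertices of some class. -/
theorem ext (S : Sys c H) {L ρ : ℝ} (hL : ∀ k, L ≤ sz c k)
    (hr1 : ∀ x, ∑ y, ind (rv c H x y = true) ≤ ρ) (hr2 : ∀ y, ∑ x, ind (rv c H x y = true) ≤ ρ)
    {x y z : V} (h : Dp c H x y z) :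
    L ≤ dm c H x y + dm c H x z + dm c H y z + (6 * ρ + 3) := by
  obtain ⟨h1, h2⟩ := h
  have n1 := S.ne _ _ _ h1
  have n2 := S.ne23 h1
  have n3 := S.ne13 h1
  have hf : fdB (c x) (c y) (c z) (rv c H x y) (rv c H y x) (rv c H x z) (rv c H z x)
      (rv c H y z) (rv c H z y) = false := by
    by_contra hc
    exact h2 ⟨n1, n2, n3, by simpa using hc⟩
  obtain ⟨k, k1, k2, k3⟩ := ext_data _ _ _ _ _ _ _ _ _ hf
  refine (hL k).trans ?_
  have key : sz c k ≤ ∑ w, (ind (Dm c H x y w) + ind (Dm c H x z w) + ind (Dm c H y z w) +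
      (ind (w = x) + ind (w = y) + ind (w = z)) +
      (ind (rv c H x w = true) + ind (rv c H w x = true) + (ind (rv c H y w = true) +
        ind (rv c H w y = true)) + (ind (rv c H z w = true) + ind (rv c H w z = true)))) := by
    unfold sz
    refine sum_le_sum fun w _ => ?_
    by_cases hw : c w = k
    · rw [ind_t hw]
      by_cases e1 : w = x
      · rw [ind_t e1]
        linarith [ind_nonneg (Dm c H x y w), ind_nonneg (Dm c H x z w), ind_nonneg (Dm c H y z w),
          ind_nonneg (w = y), ind_nonneg (w = z), ind_nonneg (rv c H x w = true),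
          ind_nonneg (rv c H w x = true), ind_nonneg (rv c H y w = true),
          ind_nonneg (rv c H w y = true), ind_nonneg (rv c H z w = true),
          ind_nonneg (rv c H w z = true)]
      by_cases e2 : w = y
      · rw [ind_t e2]
        linarith [ind_nonneg (Dm c H x y w), ind_nonneg (Dm c H x z w), ind_nonneg (Dm c H y z w),
          ind_nonneg (w = x), ind_nonneg (w = z), ind_nonneg (rv c H x w = true),
          ind_nonneg (rv c H w x = true), ind_nonneg (rv c H y w = true),
          ind_nonneg (rv c H w y = true), ind_nonneg (rv c H z w = true),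
          ind_nonneg (rv c H w z = true)]
      by_cases e3 : w = z
      · rw [ind_t e3]
        linarith [ind_nonneg (Dm c H x y w), ind_nonneg (Dm c H x z w), ind_nonneg (Dm c H y z w),
          ind_nonneg (w = x), ind_nonneg (w = y), ind_nonneg (rv c H x w = true),
          ind_nonneg (rv c H w x = true), ind_nonneg (rv c H y w = true),
          ind_nonneg (rv c H w y = true), ind_nonneg (rv c H z w = true),
          ind_nonneg (rv c H w z = true)]
      by_cases hb : rv c H x w = true ∨ rv c H w x = true ∨ rv c H y w = true ∨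
          rv c H w y = true ∨ rv c H z w = true ∨ rv c H w z = true
      · have : 1 ≤ (ind (rv c H x w = true) + ind (rv c H w x = true) + (ind (rv c H y w = true) +
            ind (rv c H w y = true)) + (ind (rv c H z w = true) + ind (rv c H w z = true))) := by
          rcases hb with hb | hb | hb | hb | hb | hb <;> rw [ind_t hb] <;>
          linarith [ind_nonneg (rv c H x w = true),
            ind_nonneg (rv c H w x = true), ind_nonneg (rv c H y w = true),
            ind_nonneg (rv c H w y = true), ind_nonneg (rv c H z w = true),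
            ind_nonneg (rv c H w z = true)]
        linarith [ind_nonneg (Dm c H x y w), ind_nonneg (Dm c H x z w), ind_nonneg (Dm c H y z w),
          ind_nonneg (w = x), ind_nonneg (w = y), ind_nonneg (w = z)]
      · push Not at hb
        obtain ⟨b1, b2, b3, b4, b5, b6⟩ := hb
        simp only [ne_eq, Bool.not_eq_true] at b1 b2 b3 b4 b5 b6
        have r1 : RR c H x y w := ⟨n1, Ne.symm e2, Ne.symm e1, by rw [b1, b2, b3, b4, hw]; exact k1⟩
        have r2 : RR c H x z w := ⟨n3, Ne.symm e3, Ne.symm e1, by rw [b1, b2, b5, b6, hw]; exact k2⟩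
        have r3 : RR c H y z w := ⟨n2, Ne.symm e3, Ne.symm e2, by rw [b3, b4, b5, b6, hw]; exact k3⟩
        have : 1 ≤ ind (Dm c H x y w) + ind (Dm c H x z w) + ind (Dm c H y z w) := by
          by_cases t1 : H x y w
          · by_cases t2 : H x z w
            · have t3 : ¬ H y z w := fun t => S.k4 x y z w h1 t1 t2 t
              rw [@ind_t (Dm c H y z w) ⟨r3, t3⟩]
              linarith [ind_nonneg (Dm c H x y w), ind_nonneg (Dm c H x z w)]
            · rw [@ind_t (Dm c H x z w) ⟨r2, t2⟩]
              linarith [ind_nonneg (Dm c H x y w), ind_nonneg (Dm c H y z w)]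
          · rw [@ind_t (Dm c H x y w) ⟨r1, t1⟩]
            linarith [ind_nonneg (Dm c H x z w), ind_nonneg (Dm c H y z w)]
        linarith [ind_nonneg (w = x), ind_nonneg (w = y), ind_nonneg (w = z),
          ind_nonneg (rv c H x w = true),
          ind_nonneg (rv c H w x = true), ind_nonneg (rv c H y w = true),
          ind_nonneg (rv c H w y = true), ind_nonneg (rv c H z w = true),
          ind_nonneg (rv c H w z = true)]
    · rw [ind_f hw]
      linarith [ind_nonneg (Dm c H x y w), ind_nonneg (Dm c H x z w), ind_nonneg (Dm c H y z w),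
        ind_nonneg (w = x), ind_nonneg (w = y), ind_nonneg (w = z), ind_nonneg (rv c H x w = true),
        ind_nonneg (rv c H w x = true), ind_nonneg (rv c H y w = true),
        ind_nonneg (rv c H w y = true), ind_nonneg (rv c H z w = true),
        ind_nonneg (rv c H w z = true)]
  refine key.trans ?_
  simp only [sum_add_distrib]
  have e1 : ∀ a : V, ∑ w, ind (w = a) = 1 := fun a => by simp [ind]
  rw [e1, e1, e1]
  have := hr1 x
  have := hr1 y
  have := hr1 z
  have := hr2 x
  have := hr2 y
  have := hr2 z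
  unfold dm
  linarith

theorem sum3_comm (f : V → V → V → ℝ) :
    ∑ x, ∑ y, ∑ z, f x z y = ∑ x, ∑ y, ∑ z, f x y z :=
  sum_congr rfl fun x _ => sum_comm

/-- the double count -/
theorem double (S : Sys c H) {K M : ℝ}
    (hK : ∀ x y z, Dp c H x y z → K ≤ dm c H x y + dm c H x z + dm c H y z)
    (hM : ∀ x y, dp c H x y ≤ M) :
    K * ∑ x, ∑ y, dp c H x y ≤ 3 * M * ∑ x, ∑ y, dm c H x y := by
  have dmn : ∀ x y, 0 ≤ dm c H x y := fun x y => sum_nonneg' fun _ => ind_nonneg _
  have h1 : K * ∑ x, ∑ y, dp c H x y ≤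
      ∑ x, ∑ y, ∑ z, ind (Dp c H x y z) * (dm c H x y + dm c H x z + dm c H y z) := by
    rw [mul_sum]
    refine sum_le_sum fun x _ => ?_
    rw [mul_sum]
    refine sum_le_sum fun y _ => ?_
    unfold dp
    rw [mul_sum]
    refine sum_le_sum fun z _ => ?_
    by_cases h : Dp c H x y z
    · rw [ind_t h, mul_one, one_mul]
      exact hK x y z h
    · rw [ind_f h, mul_zero, zero_mul]
  have A1 : ∑ x, ∑ y, ∑ z, ind (Dp c H x y z) * dm c H x y =
      ∑ x, ∑ y, dp c H x y * dm c H x y := by
    refine sum_congr rfl fun x _ => sum_congr rfl fun y _ => ?_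
    unfold dp
    rw [sum_mul]
  have A2 : ∑ x, ∑ y, ∑ z, ind (Dp c H x y z) * dm c H x z =
      ∑ x, ∑ y, dp c H x y * dm c H x y := by
    rw [← sum3_comm, ← A1]
    refine sum_congr rfl fun x _ => sum_congr rfl fun y _ => sum_congr rfl fun z _ => ?_
    congr 1
    unfold ind
    rw [if_congr (⟨Dp_s2 S, Dp_s2 S⟩) rfl rfl]
  have A3 : ∑ x, ∑ y, ∑ z, ind (Dp c H x y z) * dm c H y z =
      ∑ x, ∑ y, dp c H x y * dm c H x y := by
    rw [← A2]
    rw [sum_comm]
    refine sum_congr rfl fun x _ => sum_congr rfl fun y _ => sum_congr rfl fun z _ => ?_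
    congr 1
    unfold ind
    rw [if_congr (⟨Dp_s1 S, Dp_s1 S⟩) rfl rfl]
  have h2 : ∑ x, ∑ y, ∑ z, ind (Dp c H x y z) * (dm c H x y + dm c H x z + dm c H y z) =
      3 * ∑ x, ∑ y, dp c H x y * dm c H x y := by
    have : ∀ x y z, ind (Dp c H x y z) * (dm c H x y + dm c H x z + dm c H y z) =
        ind (Dp c H x y z) * dm c H x y + ind (Dp c H x y z) * dm c H x z +
          ind (Dp c H x y z) * dm c H y z := fun x y z => by ring
    simp only [this, sum_add_distrib]
    rw [A1, A2, A3]
    ring
  have h3 : ∑ x, ∑ y, dp c H x y * dm c H x y ≤ M * ∑ x, ∑ y, dm c H x y := by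
    rw [mul_sum]
    refine sum_le_sum fun x _ => ?_
    rw [mul_sum]
    exact sum_le_sum fun y _ => mul_le_mul_of_nonneg_right (hM x y) (dmn x y)
  rw [h2] at h1
  linarith

/-- bound for the number of superfluous triples at a pair -/
theorem cod (S : Sys c H) {s ρ w ι : ℝ} (hs : 0 ≤ s) (hr : 0 ≤ ρ) (hw : ∀ v, wr c H v ≤ w)
    (hι : 0 ≤ ι) (hI : ∀ x y, io c H x y ≤ ι)
    (h2 : 2 * w ≤ s ^ 2)
    (hr1 : ∀ x, ∑ y, ind (rv c H x y = true) ≤ ρ) (hr2 : ∀ y, ∑ x, ind (rv c H x y = true) ≤ ρ)
    (x y : V) : dp c H x y ≤ s + 1 + 2 * ρ + ι := by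
  have gn : ∀ x y, 0 ≤ gam c H x y := fun x y => sum_nonneg' fun _ => ind_nonneg _
  have tn : ∀ x y, 0 ≤ tt c H x y := fun x y => sum_nonneg' fun _ => ind_nonneg _
  have cross : ∀ x y, c y = c x + 1 → dp c H x y ≤ s + 1 + 2 * ρ := by
    intro x y h
    have hg := gam_tt S x y h
    have hg' : gam c H x y * tt c H x y ≤ s ^ 2 := by linarith [hw x, hw y]
    by_cases hrv : rv c H x y = true
    · obtain ⟨-, h3⟩ := (rv_iff c H x y).1 hrv
      have h4 : tt c H x y ≤ s := by
        by_contra hc
        push Not at hc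
        nlinarith [gn x y, tn x y, mul_le_mul_of_nonneg_right h3 (tn x y)]
      have h5 : dp c H x y ≤ ∑ z, (ind (rv c H z y = true) + ind (c z = c x + 2 ∧ H x y z)) := by
        refine sum_le_sum fun z _ => ind_or ?_
        rintro ⟨t1, t2⟩
        have hf : fdB (c x) (c x + 1) (c z) (rv c H x y) (rv c H y x) (rv c H x z) (rv c H z x)
            (rv c H y z) (rv c H z y) = false := by
          by_contra hc
          refine t2 ⟨S.ne _ _ _ t1, S.ne23 t1, S.ne13 t1, ?_⟩
          rw [h]; simpa using hc
        rcases cod_rev _ _ _ _ _ _ _ _ hf hrv with h6 | h6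
        · exact Or.inl h6.2
        · exact Or.inr ⟨h6, t1⟩
      rw [sum_add_distrib] at h5
      have h7 := hr2 y
      unfold tt at h4
      linarith
    · have h3 : gam c H x y < tt c H x y := by
        by_contra hc
        push Not at hc
        exact hrv ((rv_iff c H x y).2 ⟨h, hc⟩)
      have h4 : gam c H x y ≤ s := by
        by_contra hc
        push Not at hc
        nlinarith [gn x y, tn x y, mul_le_mul_of_nonneg_left h3.le (gn x y)]
      have h5 : dp c H x y ≤ ∑ z, (ind (c z = c y ∧ H x y z) + ind (rv c H y z = true) +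
          ind (rv c H z x = true)) := by
        refine sum_le_sum fun z _ => ind_or3 ?_
        rintro ⟨t1, t2⟩
        have hf : fdB (c x) (c x + 1) (c z) (rv c H x y) (rv c H y x) (rv c H x z) (rv c H z x)
            (rv c H y z) (rv c H z y) = false := by
          by_contra hc
          refine t2 ⟨S.ne _ _ _ t1, S.ne23 t1, S.ne13 t1, ?_⟩
          rw [h]; simpa using hc
        rcases cod_nor _ _ _ _ _ _ _ _ hf (by simpa using hrv) with h6 | h6 | h6
        · exact Or.inl ⟨h6.trans h.symm, t1⟩
        · exact Or.inr (Or.inl h6.2)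
        · exact Or.inr (Or.inr h6.2)
      rw [sum_add_distrib, sum_add_distrib] at h5
      have h7 := hr2 x
      have h8 := hr1 y
      unfold gam at h4
      linarith
  have hsym : dp c H x y = dp c H y x := by
    unfold dp
    refine sum_congr rfl fun z _ => ?_
    unfold ind
    rw [if_congr (⟨Dp_s1 S, Dp_s1 S⟩) rfl rfl]
  have tri : ∀ a b : Fin 3, b = a ∨ b = a + 1 ∨ a = b + 1 := by decide
  rcases tri (c x) (c y) with h | h | h
  · have hz := zz S x y h
    have h4 : tt c H x y ≤ s + 1 := by
      by_contra hc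
      push Not at hc
      nlinarith [tn x y, hw x, hw y]
    have h5 : dp c H x y ≤ ∑ z, (ind (c z = c x + 2 ∧ H x y z) + ind (rv c H x z = true) +
        ind ((c y = c x ∧ c z = c x) ∧ H x y z)) := by
      refine sum_le_sum fun z _ => ind_or3 ?_
      rintro ⟨t1, t2⟩
      have hf : fdB (c x) (c x) (c z) (rv c H x y) (rv c H y x) (rv c H x z) (rv c H z x)
          (rv c H y z) (rv c H z y) = false := by
        by_contra hc
        refine t2 ⟨S.ne _ _ _ t1, S.ne23 t1, S.ne13 t1, ?_⟩
        rw [h]; simpa using hc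
      by_cases hne : c x = c z
      · exact Or.inr (Or.inr ⟨⟨h, hne.symm⟩, t1⟩)
      rcases cod_same _ _ _ _ _ _ _ _ hf hne with h6 | h6
      · exact Or.inl ⟨h6, t1⟩
      · exact Or.inr (Or.inl h6.2)
    rw [sum_add_distrib, sum_add_distrib] at h5
    have h8 := hr1 x
    have h9 := hI x y
    unfold tt at h4
    unfold io at h9
    linarith
  · have := cross x y h
    linarith
  · rw [hsym]
    have := cross y x h
    linarith

end Pool.Agent.Y439.Loc
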