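import Pool.Agent.Y439.LocB

/-! The number of triples of an orientation, and the theorem for 3-graphs near Turán's. -/

set_option autoImplicit false
set_option linter.unusedVariables false
set_option linter.unusedSectionVars false

open Finset
open scoped Classical

namespace Pool.Agent.Y439.Loc

variable {V : Type} [Fintype V] {c : V → Fin 3} {H : V → V → V → Prop}

theorem four_data : ∀ (cx cy cz : Fin 3) (rxy ryx rxz rzx ryz rzy : Bool),
    (if fdB cx cy cz rxy ryx rxz rzx ryz rzy = true then 1 else 0) +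
      (if arcB cx cy rxy ryx = true ∧ arcB cx cz rxz rzx = true then 1 else 0) +
      (if arcB cy cx ryx rxy = true ∧ arcB cy cz ryz rzy = true then 1 else 0) +
      (if arcB cz cx rzx rxz = true ∧ arcB cz cy rzy ryz = true then 1 else 0) ≤
      (if ¬ (cx = cy ∧ cy = cz) then 1 else 0 : ℕ) := by
  decide +kernel

theorem arc_same : ∀ (cx : Fin 3) (r r' : Bool), arcB cx cx r r' = false := by decide

theorem arc_two : ∀ (cx cy : Fin 3) (r r' : Bool), cx ≠ cy →
    (arcB cx cy r r' = true ↔ ¬ arcB cy cx r' r = true) := by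
  decide

/-- arcs -/
def Ar (c : V → Fin 3) (rev : V → V → Bool) (x y : V) : Prop :=
  arcB (c x) (c y) (rev x y) (rev y x) = true

theorem Ar_irrefl {rev : V → V → Bool} (x : V) : ¬ Ar c rev x x := by
  unfold Ar; rw [arc_same]; simp

noncomputable def outd (c : V → Fin 3) (rev : V → V → Bool) (x : V) : ℝ := ∑ y, ind (Ar c rev x y)

theorem four {rev : V → V → Bool} (x y z : V) :
    ind (FD c rev x y z) + ind (y ≠ z ∧ Ar c rev x y ∧ Ar c rev x z) +
      ind (x ≠ z ∧ Ar c rev y x ∧ Ar c rev y z) + ind (x ≠ y ∧ Ar c rev z x ∧ Ar c rev z y) ≤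
      ind (x ≠ y ∧ y ≠ z ∧ x ≠ z ∧ ¬ (c x = c y ∧ c y = c z)) := by
  by_cases h1 : x = y
  · subst h1
    rw [@ind_f (FD c rev x x z) (fun h => h.1 rfl),
      @ind_f (x ≠ z ∧ Ar c rev x x ∧ Ar c rev x z) (fun h => Ar_irrefl x h.2.1),
      @ind_f (x ≠ x ∧ Ar c rev z x ∧ Ar c rev z x) (fun h => h.1 rfl)]
    linarith [ind_nonneg (x ≠ x ∧ x ≠ z ∧ x ≠ z ∧ ¬ (c x = c x ∧ c x = c z))]
  by_cases h2 : y = z
  · subst h2
    rw [@ind_f (FD c rev x y y) (fun h => h.2.1 rfl),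
      @ind_f (y ≠ y ∧ Ar c rev x y ∧ Ar c rev x y) (fun h => h.1 rfl),
      @ind_f (x ≠ y ∧ Ar c rev y x ∧ Ar c rev y y) (fun h => Ar_irrefl y h.2.2)]
    linarith [ind_nonneg (x ≠ y ∧ y ≠ y ∧ x ≠ y ∧ ¬ (c x = c y ∧ c y = c y))]
  by_cases h3 : x = z
  · subst h3
    rw [@ind_f (FD c rev x y x) (fun h => h.2.2.1 rfl),
      @ind_f (y ≠ x ∧ Ar c rev x y ∧ Ar c rev x x) (fun h => Ar_irrefl x h.2.2),
      @ind_f (x ≠ x ∧ Ar c rev y x ∧ Ar c rev y x) (fun h => h.1 rfl),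
      @ind_f (x ≠ y ∧ Ar c rev x x ∧ Ar c rev x y) (fun h => Ar_irrefl x h.2.1)]
    linarith [ind_nonneg (x ≠ y ∧ y ≠ x ∧ x ≠ x ∧ ¬ (c x = c y ∧ c y = c x))]
  have h := four_data (c x) (c y) (c z) (rev x y) (rev y x) (rev x z) (rev z x) (rev y z) (rev z y)
  have h' : (((if fdB (c x) (c y) (c z) (rev x y) (rev y x) (rev x z) (rev z x) (rev y z) (rev z y) = true then 1 else 0) +
      (if arcB (c x) (c y) (rev x y) (rev y x) = true ∧ arcB (c x) (c z) (rev x z) (rev z x) = true then 1 else 0) +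
      (if arcB (c y) (c x) (rev y x) (rev x y) = true ∧ arcB (c y) (c z) (rev y z) (rev z y) = true then 1 else 0) +
      (if arcB (c z) (c x) (rev z x) (rev x z) = true ∧ arcB (c z) (c y) (rev z y) (rev y z) = true then 1 else 0) : ℕ) : ℝ) ≤
      ((if ¬ (c x = c y ∧ c y = c z) then 1 else 0 : ℕ) : ℝ) := by exact_mod_cast h
  push_cast at h'
  have e1 : (FD c rev x y z) ↔ fdB (c x) (c y) (c z) (rev x y) (rev y x) (rev x z) (rev z x) (rev y z) (rev z y) = true :=
    ⟨fun h => h.2.2.2, fun h => ⟨h1, h2, h3, h⟩⟩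
  have e2 : (y ≠ z ∧ Ar c rev x y ∧ Ar c rev x z) ↔ (arcB (c x) (c y) (rev x y) (rev y x) = true ∧
      arcB (c x) (c z) (rev x z) (rev z x) = true) := ⟨fun h => h.2, fun h => ⟨h2, h⟩⟩
  have e3 : (x ≠ z ∧ Ar c rev y x ∧ Ar c rev y z) ↔ (arcB (c y) (c x) (rev y x) (rev x y) = true ∧
      arcB (c y) (c z) (rev y z) (rev z y) = true) := ⟨fun h => h.2, fun h => ⟨h3, h⟩⟩
  have e4 : (x ≠ y ∧ Ar c rev z x ∧ Ar c rev z y) ↔ (arcB (c z) (c x) (rev z x) (rev x z) = true ∧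
      arcB (c z) (c y) (rev z y) (rev y z) = true) := ⟨fun h => h.2, fun h => ⟨h1, h⟩⟩
  have e5 : (x ≠ y ∧ y ≠ z ∧ x ≠ z ∧ ¬ (c x = c y ∧ c y = c z)) ↔ ¬ (c x = c y ∧ c y = c z) :=
    ⟨fun h => h.2.2.2, fun h => ⟨h1, h2, h3, h⟩⟩
  unfold ind
  simp only [e1, e2, e3, e4, e5]
  exact h'

theorem Gle (x y z : V) :
    ind (x ≠ y ∧ y ≠ z ∧ x ≠ z ∧ ¬ (c x = c y ∧ c y = c z)) ≤
      (1 - ind (c x = c y) * ind (c y = c z)) - ind (x = y) * (1 - ind (c x = c z)) -
        ind (y = z) * (1 - ind (c x = c y)) - ind (x = z) * (1 - ind (c x = c y)) := by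
  by_cases h1 : x = y
  · subst h1
    rw [ind_f (fun h : x ≠ x ∧ _ => h.1 rfl), @ind_t (c x = c x) rfl, @ind_t (x = x) rfl]
    linarith
  by_cases h2 : y = z
  · subst h2
    rw [ind_f (fun h : x ≠ y ∧ y ≠ y ∧ _ => h.2.1 rfl), @ind_t (c y = c y) rfl, @ind_t (y = y) rfl,
      @ind_f (x = y) h1]
    linarith
  by_cases h3 : x = z
  · subst h3
    rw [ind_f (fun h : x ≠ y ∧ y ≠ x ∧ x ≠ x ∧ _ => h.2.2.1 rfl), @ind_t (c x = c x) rfl,
      @ind_t (x = x) rfl, @ind_f (x = y) h1, @ind_f (y = x) h2]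
    by_cases h4 : c x = c y
    · rw [@ind_t (c x = c y) h4, @ind_t (c y = c x) h4.symm]; norm_num
    · rw [@ind_f (c x = c y) h4]; norm_num
  rw [@ind_f (x = y) h1, @ind_f (y = z) h2, @ind_f (x = z) h3]
  by_cases h4 : c x = c y
  · by_cases h5 : c y = c z
    · rw [ind_f (fun h : x ≠ y ∧ y ≠ z ∧ x ≠ z ∧ ¬ (c x = c y ∧ c y = c z) => h.2.2.2 ⟨h4, h5⟩),
        @ind_t (c x = c y) h4, @ind_t (c y = c z) h5]
      norm_num
    · rw [@ind_f (c y = c z) h5]
      linarith [ind_le_one (x ≠ y ∧ y ≠ z ∧ x ≠ z ∧ ¬ (c x = c y ∧ c y = c z))]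
  · rw [@ind_f (c x = c y) h4]
    linarith [ind_le_one (x ≠ y ∧ y ≠ z ∧ x ≠ z ∧ ¬ (c x = c y ∧ c y = c z))]

theorem ind_congr {p q : Prop} (h : p ↔ q) : ind p = ind q :=
  le_antisymm (ind_mono h.1) (ind_mono h.2)

theorem sum_ind_eq (a : V) : ∑ w, ind (w = a) = 1 := by simp [ind]
theorem sum_ind_eq' (a : V) : ∑ w, ind (a = w) = 1 := by simp [ind]

theorem cardV' : ∑ _x : V, (1 : ℝ) = sz c 0 + sz c 1 + sz c 2 := by
  have : ∀ x : V, (1 : ℝ) = ind (c x = 0) + ind (c x = 1) + ind (c x = 2) := by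
    intro x
    have : ∀ k : Fin 3, k = 0 ∨ k = 1 ∨ k = 2 := by decide
    rcases this (c x) with h | h | h <;> simp [ind, h]
  rw [sum_congr rfl fun x _ => this x, sum_add_distrib, sum_add_distrib]
  rfl

theorem by_class (f : Fin 3 → ℝ) :
    ∑ x, f (c x) = sz c 0 * f 0 + sz c 1 * f 1 + sz c 2 * f 2 := by
  have : ∀ x : V, f (c x) = ind (c x = 0) * f 0 + ind (c x = 1) * f 1 + ind (c x = 2) * f 2 := by
    intro x
    have : ∀ k : Fin 3, k = 0 ∨ k = 1 ∨ k = 2 := by decide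
    rcases this (c x) with h | h | h <;> simp [ind, h]
  rw [sum_congr rfl fun x _ => this x, sum_add_distrib, sum_add_distrib, ← sum_mul, ← sum_mul,
    ← sum_mul]
  rfl

theorem same_sz (x : V) : ∑ y, ind (c x = c y) = sz c (c x) := by
  unfold sz
  exact sum_congr rfl fun y _ => ind_congr eq_comm

theorem const_sum (a : ℝ) : ∑ _x : V, a = a * ∑ _x : V, (1 : ℝ) := by
  rw [mul_sum]; simp

/-- power sums of the class sizes -/
noncomputable def s2 (c : V → Fin 3) : ℝ := sz c 0 ^ 2 + sz c 1 ^ 2 + sz c 2 ^ 2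
noncomputable def s3 (c : V → Fin 3) : ℝ := sz c 0 ^ 3 + sz c 1 ^ 3 + sz c 2 ^ 3

theorem sumG {n : ℝ} (hn : ∑ _x : V, (1 : ℝ) = n) :
    ∑ x : V, ∑ y : V, ∑ z : V, ((1 - ind (c x = c y) * ind (c y = c z)) -
      ind (x = y) * (1 - ind (c x = c z)) -
        ind (y = z) * (1 - ind (c x = c y)) - ind (x = z) * (1 - ind (c x = c y))) =
      n ^ 3 - s3 c - 3 * n ^ 2 + 3 * s2 c := by
  have inner : ∀ x y : V, ∑ z : V, ((1 - ind (c x = c y) * ind (c y = c z)) -
      ind (x = y) * (1 - ind (c x = c z)) -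
        ind (y = z) * (1 - ind (c x = c y)) - ind (x = z) * (1 - ind (c x = c y))) =
      n - ind (c x = c y) * sz c (c y) - ind (x = y) * (n - sz c (c x)) - (1 - ind (c x = c y)) -
        (1 - ind (c x = c y)) := by
    intro x y
    rw [sum_sub_distrib, sum_sub_distrib, sum_sub_distrib, sum_sub_distrib, hn, ← mul_sum,
      same_sz y, ← mul_sum, sum_sub_distrib, hn, same_sz x, ← sum_mul, ← sum_mul,
      sum_ind_eq', sum_ind_eq']
    ring
  rw [sum_congr rfl fun x _ => sum_congr rfl fun y _ => inner x y]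
  have inner2 : ∀ x : V, ∑ y : V, (n - ind (c x = c y) * sz c (c y) -
      ind (x = y) * (n - sz c (c x)) -
      (1 - ind (c x = c y)) - (1 - ind (c x = c y))) =
      n ^ 2 - sz c (c x) ^ 2 - 3 * n + 3 * sz c (c x) := by
    intro x
    have e : ∀ y : V, (n - ind (c x = c y) * sz c (c y) - ind (x = y) * (n - sz c (c x)) -
      (1 - ind (c x = c y)) - (1 - ind (c x = c y))) =
      (n - 2) * 1 - ind (c x = c y) * (sz c (c x) - 2) - ind (x = y) * (n - sz c (c x)) := by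
      intro y
      by_cases h : c x = c y
      · rw [ind_t h, h]; ring
      · rw [ind_f h]; ring
    rw [sum_congr rfl fun y _ => e y, sum_sub_distrib, sum_sub_distrib, ← mul_sum, hn, ← sum_mul,
      ← sum_mul, same_sz x, sum_ind_eq']
    ring
  rw [sum_congr rfl fun x _ => inner2 x, by_class (fun k => n ^ 2 - sz c k ^ 2 - 3 * n + 3 * sz c k)]
  have := cardV' (c := c)
  rw [hn] at this
  unfold s2 s3
  rw [this]
  ring

theorem outsum {n : ℝ} (hn : ∑ _x : V, (1 : ℝ) = n) (rev : V → V → Bool) :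
    2 * ∑ x, outd c rev x = n ^ 2 - s2 c := by
  have h1 : ∑ x, outd c rev x + ∑ x, outd c rev x = n ^ 2 - s2 c := by
    have h2 : ∑ x, outd c rev x = ∑ x, ∑ y, ind (Ar c rev y x) := by
      unfold outd
      rw [sum_comm]
    nth_rewrite 2 [h2]
    unfold outd
    rw [← sum_add_distrib]
    have : ∀ x : V, (∑ y, ind (Ar c rev x y)) + ∑ y, ind (Ar c rev y x) = n - sz c (c x) := by
      intro x
      rw [← sum_add_distrib]
      have e : ∀ y : V, ind (Ar c rev x y) + ind (Ar c rev y x) = 1 - ind (c x = c y) := by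
        intro y
        by_cases h3 : c x = c y
        · have h1 : ¬ Ar c rev x y := by unfold Ar; rw [h3, arc_same]; simp
          have h2 : ¬ Ar c rev y x := by unfold Ar; rw [h3, arc_same]; simp
          simp [ind, h1, h2, h3]
        · have h := arc_two (c x) (c y) (rev x y) (rev y x) h3
          by_cases h1 : Ar c rev x y
          · have h2 : ¬ Ar c rev y x := h.1 h1
            simp [ind, h1, h2, h3]
          · have h2 : Ar c rev y x := by
              by_contra h4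
              exact h1 (h.2 h4)
            simp [ind, h1, h2, h3]
      rw [sum_congr rfl fun y _ => e y, sum_sub_distrib, hn, same_sz x]
    rw [sum_congr rfl fun x _ => this x, by_class (fun k => n - sz c k)]
    have := cardV' (c := c)
    rw [hn] at this
    unfold s2
    rw [this]
    ring
  linarith

theorem outsq (rev : V → V → Bool) (x : V) :
    ∑ y, ∑ z, ind (y ≠ z ∧ Ar c rev x y ∧ Ar c rev x z) = outd c rev x ^ 2 - outd c rev x := by
  have e : ∀ y z : V, ind (y ≠ z ∧ Ar c rev x y ∧ Ar c rev x z) =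
      ind (Ar c rev x y) * ind (Ar c rev x z) - ind (y = z) * ind (Ar c rev x y) := by
    intro y z
    by_cases h1 : y = z
    · subst h1
      by_cases h2 : Ar c rev x y <;> simp [ind, h2]
    · by_cases h2 : Ar c rev x y <;> by_cases h3 : Ar c rev x z <;> simp [ind, h1, h2, h3]
  rw [sum_congr rfl fun y _ => sum_congr rfl fun z _ => e y z]
  simp only [sum_sub_distrib]
  have h1 : ∑ y, ∑ z, ind (Ar c rev x y) * ind (Ar c rev x z) = outd c rev x ^ 2 := by
    unfold outd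
    rw [sq, sum_mul_sum]
  have h2 : ∑ y, ∑ z, ind (y = z) * ind (Ar c rev x y) = outd c rev x := by
    unfold outd
    refine sum_congr rfl fun y _ => ?_
    rw [← sum_mul, sum_ind_eq', one_mul]
  rw [h1, h2]

/-- ordered number of edges of Turán's construction on `3 q + r` vertices -/
noncomputable def TT (q r : ℝ) : ℝ :=
  15 * q ^ 3 + 15 * q ^ 2 * r + 6 * q * r ^ 2 + r ^ 3 - 9 * q ^ 2 - 9 * q * r - 3 * r ^ 2 + 2 * r

/-- excess of unequal classes -/
noncomputable def ex (b : ℝ) : ℝ := b * (b - 1) * (b - 2)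

/-- deviation of the outdegrees -/
noncomputable def od (c : V → Fin 3) (rev : V → V → Bool) (q : ℝ) (v : V) : ℝ :=
  (outd c rev v - q) * (outd c rev v - q - 1)

/-- the number of ordered triples of an orientation -/
theorem FDcount {q r : ℝ} (hn : ∑ _x : V, (1 : ℝ) = 3 * q + r) (rev : V → V → Bool) :
    ∑ x, ∑ y, ∑ z, ind (FD c rev x y z) ≤ TT q r -
      (ex (sz c 0 - q) + ex (sz c 1 - q) + ex (sz c 2 - q)) - 3 * ∑ v, od c rev q v := by
  have h1 : ∑ x : V, ∑ y : V, ∑ z : V, (ind (FD c rev x y z) +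
      ind (y ≠ z ∧ Ar c rev x y ∧ Ar c rev x z) +
      ind (x ≠ z ∧ Ar c rev y x ∧ Ar c rev y z) + ind (x ≠ y ∧ Ar c rev z x ∧ Ar c rev z y)) ≤
      (3 * q + r) ^ 3 - s3 c - 3 * (3 * q + r) ^ 2 + 3 * s2 c := by
    rw [← sumG hn]
    exact sum_le_sum fun x _ => sum_le_sum fun y _ => sum_le_sum fun z _ =>
      (four x y z).trans (Gle x y z)
  simp only [sum_add_distrib] at h1
  have A : ∑ x : V, ∑ y : V, ∑ z : V, ind (y ≠ z ∧ Ar c rev x y ∧ Ar c rev x z) =
      ∑ x, (outd c rev x ^ 2 - outd c rev x) := sum_congr rfl fun x _ => outsq rev x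
  have B : ∑ x : V, ∑ y : V, ∑ z : V, ind (x ≠ z ∧ Ar c rev y x ∧ Ar c rev y z) =
      ∑ x, (outd c rev x ^ 2 - outd c rev x) := by
    rw [← A, sum_comm]
  have C : ∑ x : V, ∑ y : V, ∑ z : V, ind (x ≠ y ∧ Ar c rev z x ∧ Ar c rev z y) =
      ∑ x, (outd c rev x ^ 2 - outd c rev x) := by
    rw [← B, ← sum3_comm]
  rw [A, B, C] at h1
  have h2 : ∑ x, (outd c rev x ^ 2 - outd c rev x) = ∑ v, od c rev q v +
      q * (2 * ∑ x, outd c rev x) - q * (q + 1) * ∑ _x : V, (1 : ℝ) := by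
    rw [mul_sum, mul_sum, mul_sum, ← sum_add_distrib, ← sum_sub_distrib]
    refine sum_congr rfl fun x _ => ?_
    unfold od
    ring
  rw [outsum hn rev, hn] at h2
  have h3 := cardV' (c := c)
  rw [hn] at h3
  have h4 : sz c 2 = 3 * q + r - sz c 0 - sz c 1 := by linarith
  rw [h2] at h1
  unfold TT ex
  unfold s2 s3 at h1
  rw [h4] at h1 ⊢
  nlinarith

/-- indicator sums are integers -/
theorem wr_int (v : V) : ∃ k : ℕ, wr c H v = k := by
  refine ⟨∑ y, ∑ z, (if ¬ (H v y z ↔ Tu c v y z) then 1 else 0), ?_⟩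
  unfold wr
  rw [Nat.cast_sum]
  refine sum_congr rfl fun y _ => ?_
  rw [Nat.cast_sum]
  refine sum_congr rfl fun z _ => ?_
  by_cases h : ¬ (H v y z ↔ Tu c v y z)
  · rw [ind_t h, if_pos h, Nat.cast_one]
  · rw [ind_f h, if_neg h, Nat.cast_zero]


end Pool.Agent.Y439.Loc
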