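import Pool.Agent.Y439.LocG

/-! 3-colourable 3-graphs containing almost all transversals: the orientation of the classes. -/

set_option autoImplicit false
set_option linter.unusedVariables false
set_option linter.unusedSectionVars false

open Finset
open scoped Classical

namespace Pool.Agent.Y439.Loc

variable {V : Type} [Fintype V] {c : V → Fin 3} {H : V → V → V → Prop}

/-- number of missing transversals at a vertex -/
noncomputable def mu (c : V → Fin 3) (H : V → V → V → Prop) (v : V) : ℝ :=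
  ∑ y, ∑ z, ind (c y = c v + 1 ∧ c z = c v + 2 ∧ ¬ H v y z)

noncomputable def np (c : V → Fin 3) (H : V → V → V → Prop) (x y : V) : ℝ :=
  ∑ z, ind (c z = c x + 1 ∧ H x y z)

theorem np_nm (S : Sys c H) {x y : V} (h : c y = c x) :
    np c H x y * tt c H x y ≤ mu c H x + mu c H y := by
  unfold np tt mu
  rw [sum_mul_sum, ← sum_add_distrib]
  refine sum_le_sum fun z _ => ?_
  rw [← sum_add_distrib]
  refine sum_le_sum fun u _ => ?_
  rw [ind_mul]
  refine ind_or ?_
  rintro ⟨⟨h1, h2⟩, h3, h4⟩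
  by_cases h5 : H x z u
  · right
    exact ⟨by rw [h, h1], by rw [h, h3], fun h6 => S.k4 x y z u h2 h4 h5 h6⟩
  · left; exact ⟨h1, h3, h5⟩

theorem fin3_split : ∀ a b d : Fin 3,
    (b = a + 1 ∧ d = a + 2) ∨ (b = a + 2 ∧ d = a + 1) ∨ b = a ∨ d = a ∨ d = b := by decide

noncomputable def TA (c : V → Fin 3) (H : V → V → V → Prop) : ℝ :=
  ∑ x, ∑ y, ∑ z, ind ((c y = c x + 1 ∧ c z = c x + 2) ∧ H x y z)
noncomputable def SI (c : V → Fin 3) (H : V → V → V → Prop) : ℝ :=
  ∑ x, ∑ y, ∑ z, ind (c y = c x ∧ H x y z)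

theorem tot_le (S : Sys c H) : tot H ≤ 2 * TA c H + 3 * SI c H := by
  have h1 : tot H ≤ ∑ x, ∑ y, ∑ z, (ind ((c y = c x + 1 ∧ c z = c x + 2) ∧ H x y z) +
      ind ((c z = c x + 1 ∧ c y = c x + 2) ∧ H x z y) + ind (c y = c x ∧ H x y z) +
      ind (c z = c x ∧ H x z y) + ind (c y = c z ∧ H z y x)) := by
    unfold tot
    refine sum_le_sum fun x _ => sum_le_sum fun y _ => sum_le_sum fun z _ => ?_
    have n1 := ind_nonneg ((c y = c x + 1 ∧ c z = c x + 2) ∧ H x y z)
    have n2 := ind_nonneg ((c z = c x + 1 ∧ c y = c x + 2) ∧ H x z y)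
    have n3 := ind_nonneg (c y = c x ∧ H x y z)
    have n4 := ind_nonneg (c z = c x ∧ H x z y)
    have n5 := ind_nonneg (c y = c z ∧ H z y x)
    by_cases h : H x y z
    · rw [ind_t h]
      have h' : H x z y := S.s2 _ _ _ h
      have h'' : H z y x := S.s2 _ _ _ (S.s3 h)
      rcases fin3_split (c x) (c y) (c z) with h1 | h1 | h1 | h1 | h1
      · rw [@ind_t ((c y = c x + 1 ∧ c z = c x + 2) ∧ H x y z) ⟨h1, h⟩]; linarith
      · rw [@ind_t ((c z = c x + 1 ∧ c y = c x + 2) ∧ H x z y) ⟨h1.symm, h'⟩]; linarith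
      · rw [@ind_t (c y = c x ∧ H x y z) ⟨h1, h⟩]; linarith
      · rw [@ind_t (c z = c x ∧ H x z y) ⟨h1, h'⟩]; linarith
      · rw [@ind_t (c y = c z ∧ H z y x) ⟨h1.symm, h''⟩]; linarith
    · rw [ind_f h]; linarith
  refine h1.trans (le_of_eq ?_)
  simp only [sum_add_distrib]
  have a2 : ∑ x : V, ∑ y : V, ∑ z : V, ind ((c z = c x + 1 ∧ c y = c x + 2) ∧ H x z y) = TA c H := by
    unfold TA
    exact sum3_comm (fun x y z => ind ((c y = c x + 1 ∧ c z = c x + 2) ∧ H x y z))
  have a4 : ∑ x : V, ∑ y : V, ∑ z : V, ind (c z = c x ∧ H x z y) = SI c H := by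
    unfold SI
    exact sum3_comm (fun x y z => ind (c y = c x ∧ H x y z))
  have a5 : ∑ x : V, ∑ y : V, ∑ z : V, ind (c y = c z ∧ H z y x) = SI c H := by
    rw [← sum3_comm (fun x y z => ind (c y = c z ∧ H z y x)), sum_comm]
    -- Σ_y Σ_x Σ_z ind (c z = c y ∧ H y z x)
    rw [← sum3_comm (fun y x z => ind (c z = c y ∧ H y z x))]
    rfl
  rw [a2, a4, a5]
  unfold TA SI
  ring

/-- The standing assumptions: `N` is an upper bound for the sizes of the classes. -/
structure Asm (c : V → Fin 3) (H : V → V → V → Prop) (N η : ℝ) : Prop where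
  S : Sys c H
  hU : ∀ k, sz c k ≤ N
  hL : ∀ k, 999 / 1000 * N ≤ sz c k
  hm : ∀ v, mu c H v ≤ η * N ^ 2
  hI : ∀ x y, io c H x y ≤ η * N
  ht : 15 * N ^ 3 - η * N ^ 3 ≤ tot H
  hN : 1000 ≤ N
  h0 : 0 ≤ η
  h1 : 1000000 * η ≤ 1

variable {N η : ℝ}

theorem Asm.pos (A : Asm c H N η) : 0 < N := by linarith [A.hN]

theorem Asm.card (A : Asm c H N η) : ∑ _x : V, (1 : ℝ) ≤ 3 * N := by
  rw [cardV' (c := c)]
  linarith [A.hU 0, A.hU 1, A.hU 2]

theorem sum_same' (x : V) : ∑ y, ind (c y = c x) = sz c (c x) := rfl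

theorem TA_le (A : Asm c H N η) : TA c H ≤ 3 * N ^ 3 := by
  unfold TA
  have hp := A.pos
  have : ∀ x, ∑ y, ∑ z, ind ((c y = c x + 1 ∧ c z = c x + 2) ∧ H x y z) ≤ N ^ 2 := by
    intro x
    have h1 : ∑ y, ∑ z, ind ((c y = c x + 1 ∧ c z = c x + 2) ∧ H x y z) ≤
        ∑ y, ∑ z, ind (c y = c x + 1) * ind (c z = c x + 2) := by
      refine sum_le_sum fun y _ => sum_le_sum fun z _ => ?_
      rw [ind_mul]
      exact ind_mono fun h => h.1
    refine h1.trans ?_
    rw [← sum_mul_sum]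
    have e1 := A.hU (c x + 1)
    have e2 := A.hU (c x + 2)
    have e3 : 0 ≤ sz c (c x + 2) := sum_nonneg' fun _ => ind_nonneg _
    calc sz c (c x + 1) * sz c (c x + 2) ≤ N * N := mul_le_mul e1 e2 e3 hp.le
      _ = N ^ 2 := by ring
  refine (sum_le_sum fun x _ => this x).trans ?_
  rw [const_sum]
  have := A.card
  have h3 : N ^ 2 * ∑ _x : V, (1 : ℝ) ≤ N ^ 2 * (3 * N) :=
    mul_le_mul_of_nonneg_left this (by positivity)
  linarith

/-- pairs inside a class -/
def EE (c : V → Fin 3) (x y : V) : Prop := c y = c x ∧ x ≠ y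

theorem EE_sum (A : Asm c H N η) : ∑ x, ∑ y, ind (EE c x y) ≤ 3 * N ^ 2 := by
  have : ∀ x, ∑ y, ind (EE c x y) ≤ N := by
    intro x
    refine le_trans ?_ (A.hU (c x))
    exact sum_le_sum fun y _ => ind_mono fun h => h.1
  refine (sum_le_sum fun x _ => this x).trans ?_
  rw [const_sum]
  have := A.card
  have h3 : N * ∑ _x : V, (1 : ℝ) ≤ N * (3 * N) :=
    mul_le_mul_of_nonneg_left this A.pos.le
  linarith

theorem np_nonneg (x y : V) : 0 ≤ np c H x y := sum_nonneg' fun _ => ind_nonneg _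
theorem tt_nonneg (x y : V) : 0 ≤ tt c H x y := sum_nonneg' fun _ => ind_nonneg _
theorem mu_nonneg (x : V) : 0 ≤ mu c H x := sum_nonneg' fun _ => sum_nonneg' fun _ => ind_nonneg _

theorem Asm.np_le (A : Asm c H N η) (x y : V) : np c H x y ≤ N := by
  refine le_trans ?_ (A.hU (c x + 1))
  exact sum_le_sum fun z _ => ind_mono fun h => h.1
theorem Asm.tt_le (A : Asm c H N η) (x y : V) : tt c H x y ≤ N := by
  refine le_trans ?_ (A.hU (c x + 2))
  exact sum_le_sum fun z _ => ind_mono fun h => h.1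

theorem fin3_cases' : ∀ a b : Fin 3, b = a ∨ b = a + 1 ∨ b = a + 2 := by decide

theorem SI_le (S : Sys c H) :
    SI c H ≤ ∑ x, ∑ y, ind (EE c x y) * (np c H x y + tt c H x y + io c H x y) := by
  unfold SI
  refine sum_le_sum fun x _ => sum_le_sum fun y _ => ?_
  by_cases h : EE c x y
  · rw [ind_t h, one_mul]
    unfold np tt io
    rw [← sum_add_distrib, ← sum_add_distrib]
    refine sum_le_sum fun z _ => ?_
    refine ind_or3 ?_
    rintro ⟨h1, h2⟩
    rcases fin3_cases' (c x) (c z) with h3 | h3 | h3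
    · right; right; exact ⟨⟨h1, h3⟩, h2⟩
    · left; exact ⟨h3, h2⟩
    · right; left; exact ⟨h3, h2⟩
  · rw [ind_f h, zero_mul]
    refine le_of_eq (sum_eq_zero fun z _ => ?_)
    refine ind_f fun h1 => h ⟨h1.1, S.ne _ _ _ h1.2⟩

/-- deficiency of a pair -/
noncomputable def gg (c : V → Fin 3) (H : V → V → V → Prop) (N η : ℝ) (x y : V) : ℝ :=
  N + 2 * η * N - np c H x y - tt c H x y

/-- the basic estimate for pairs inside classes -/
theorem Asm.pair_bd (A : Asm c H N η) {x y : V} (h : EE c x y) :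
    (N - np c H x y) * (N - tt c H x y) ≤ N * gg c H N η x y := by
  have h1 := np_nm A.S h.1
  have h2 := A.hm x
  have h3 := A.hm y
  unfold gg
  nlinarith

theorem Asm.gg_nonneg (A : Asm c H N η) {x y : V} (h : EE c x y) : 0 ≤ gg c H N η x y := by
  have h1 := A.pair_bd h
  have h2 := A.np_le x y
  have h3 := A.tt_le x y
  have h4 : 0 ≤ (N - np c H x y) * (N - tt c H x y) :=
    mul_nonneg (by linarith) (by linarith)
  have h5 : 0 ≤ N * gg c H N η x y := h4.trans h1
  exact nonneg_of_mul_nonneg_right h5 A.pos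

/-- total deficiency of the pairs inside classes -/
theorem Asm.def_sum (A : Asm c H N η) :
    ∑ x, ∑ y, ind (EE c x y) * gg c H N η x y ≤ 10 * η * N ^ 3 := by
  have h1 := tot_le A.S
  have h2 := TA_le A
  have h3 := SI_le A.S
  have h4 := EE_sum A
  have h5 := A.ht
  have hp := A.pos
  have h0 := A.h0
  have e : ∑ x, ∑ y, ind (EE c x y) * gg c H N η x y =
      (N + 2 * η * N) * ∑ x, ∑ y, ind (EE c x y) -
        ∑ x, ∑ y, ind (EE c x y) * (np c H x y + tt c H x y) := by
    rw [mul_sum, ← sum_sub_distrib]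
    refine sum_congr rfl fun x _ => ?_
    rw [mul_sum, ← sum_sub_distrib]
    exact sum_congr rfl fun y _ => by unfold gg; ring
  have e2 : ∑ x, ∑ y, ind (EE c x y) * (np c H x y + tt c H x y + io c H x y) ≤
      ∑ x, ∑ y, ind (EE c x y) * (np c H x y + tt c H x y) + η * N * ∑ x, ∑ y, ind (EE c x y) := by
    rw [mul_sum, ← sum_add_distrib]
    refine sum_le_sum fun x _ => ?_
    rw [mul_sum, ← sum_add_distrib]
    refine sum_le_sum fun y _ => ?_
    have := mul_le_mul_of_nonneg_left (A.hI x y) (ind_nonneg (EE c x y))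
    linarith
  rw [e]
  have h6 : (N + 2 * η * N + η * N) * ∑ x, ∑ y, ind (EE c x y) ≤
      (N + 2 * η * N + η * N) * (3 * N ^ 2) := mul_le_mul_of_nonneg_left h4 (by positivity)
  have h7 : 0 ≤ η * N ^ 3 := by positivity
  nlinarith

def PL (c : V → Fin 3) (H : V → V → V → Prop) (N : ℝ) (x y : V) : Prop :=
  EE c x y ∧ 3 * N ≤ 4 * np c H x y
def MI (c : V → Fin 3) (H : V → V → V → Prop) (N : ℝ) (x y : V) : Prop :=
  EE c x y ∧ 3 * N ≤ 4 * tt c H x y
def BA (c : V → Fin 3) (H : V → V → V → Prop) (N : ℝ) (x y : V) : Prop :=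
  EE c x y ∧ ¬ 3 * N ≤ 4 * np c H x y ∧ ¬ 3 * N ≤ 4 * tt c H x y

theorem Asm.PL_pt (A : Asm c H N η) {x y : V} (h : PL c H N x y) :
    N - np c H x y ≤ gg c H N η x y + η * N := by
  have h1 := np_nm A.S h.1.1
  have h2 := A.hm x
  have h3 := A.hm y
  have hp := A.pos
  have h0 := A.h0
  have h4 : N * tt c H x y ≤ N * (3 * η * N) := by
    have h5 := h.2
    have h6 := tt_nonneg (c := c) (H := H) x y
    nlinarith
  have h7 := le_of_mul_le_mul_left h4 hp
  unfold gg
  linarith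

theorem Asm.MI_pt (A : Asm c H N η) {x y : V} (h : MI c H N x y) :
    N - tt c H x y ≤ gg c H N η x y + η * N := by
  have h1 := np_nm A.S h.1.1
  have h2 := A.hm x
  have h3 := A.hm y
  have hp := A.pos
  have h0 := A.h0
  have h4 : N * np c H x y ≤ N * (3 * η * N) := by
    have h5 := h.2
    have h6 := np_nonneg (c := c) (H := H) x y
    nlinarith
  have h7 := le_of_mul_le_mul_left h4 hp
  unfold gg
  linarith

theorem Asm.BA_pt (A : Asm c H N η) {x y : V} (h : BA c H N x y) :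
    N ≤ 16 * gg c H N η x y := by
  have h1 := A.pair_bd h.1
  obtain ⟨-, h2, h3⟩ := h
  push Not at h2 h3
  have hp := A.pos
  have h4 : N * N ≤ N * (16 * gg c H N η x y) := by nlinarith
  exact le_of_mul_le_mul_left h4 hp

theorem Asm.EEgg (A : Asm c H N η) :
    ∑ x, ∑ y, ind (EE c x y) * (gg c H N η x y + η * N) ≤ 13 * η * N ^ 3 := by
  have h1 := A.def_sum
  have h2 := EE_sum A
  have e : ∑ x, ∑ y, ind (EE c x y) * (gg c H N η x y + η * N) =
      ∑ x, ∑ y, ind (EE c x y) * gg c H N η x y +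
        (η * N) * ∑ x, ∑ y, ind (EE c x y) := by
    rw [mul_sum, ← sum_add_distrib]
    refine sum_congr rfl fun x _ => ?_
    rw [mul_sum, ← sum_add_distrib]
    exact sum_congr rfl fun y _ => by ring
  rw [e]
  have h3 : η * N * ∑ x, ∑ y, ind (EE c x y) ≤ η * N * (3 * N ^ 2) :=
    mul_le_mul_of_nonneg_left h2 (mul_nonneg A.h0 A.pos.le)
  nlinarith

theorem Asm.PL_sum (A : Asm c H N η) :
    ∑ x, ∑ y, ind (PL c H N x y) * (N - np c H x y) ≤ 13 * η * N ^ 3 := by
  refine le_trans ?_ A.EEgg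
  refine sum_le_sum fun x _ => sum_le_sum fun y _ => ?_
  by_cases h : PL c H N x y
  · rw [ind_t h, ind_t h.1, one_mul, one_mul]
    exact A.PL_pt h
  · rw [ind_f h, zero_mul]
    by_cases h2 : EE c x y
    · rw [ind_t h2, one_mul]
      have := A.gg_nonneg h2
      have : 0 ≤ η * N := mul_nonneg A.h0 A.pos.le
      linarith
    · rw [ind_f h2, zero_mul]

theorem Asm.MI_sum (A : Asm c H N η) :
    ∑ x, ∑ y, ind (MI c H N x y) * (N - tt c H x y) ≤ 13 * η * N ^ 3 := by
  refine le_trans ?_ A.EEgg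
  refine sum_le_sum fun x _ => sum_le_sum fun y _ => ?_
  by_cases h : MI c H N x y
  · rw [ind_t h, ind_t h.1, one_mul, one_mul]
    exact A.MI_pt h
  · rw [ind_f h, zero_mul]
    by_cases h2 : EE c x y
    · rw [ind_t h2, one_mul]
      have := A.gg_nonneg h2
      have : 0 ≤ η * N := mul_nonneg A.h0 A.pos.le
      linarith
    · rw [ind_f h2, zero_mul]

theorem Asm.BA_sum (A : Asm c H N η) :
    ∑ x, ∑ y, ind (BA c H N x y) ≤ 160 * η * N ^ 2 := by
  have h1 := A.def_sum
  have h0 := A.pos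
  have h2 : N * ∑ x, ∑ y, ind (BA c H N x y) ≤ N * (160 * η * N ^ 2) := by
    have : N * (160 * η * N ^ 2) = 16 * (10 * η * N ^ 3) := by ring
    rw [this]
    refine le_trans ?_ (mul_le_mul_of_nonneg_left h1 (by norm_num))
    rw [mul_sum, mul_sum]
    refine sum_le_sum fun x _ => ?_
    rw [mul_sum, mul_sum]
    refine sum_le_sum fun y _ => ?_
    by_cases h : BA c H N x y
    · rw [ind_t h, ind_t h.1, one_mul, mul_one]
      exact A.BA_pt h
    · rw [ind_f h, mul_zero]
      by_cases h2 : EE c x y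
      · rw [ind_t h2, one_mul]
        have := A.gg_nonneg h2
        linarith
      · rw [ind_f h2, zero_mul, mul_zero]
  exact le_of_mul_le_mul_left h2 h0

/-- abstract conflict count -/
theorem conflict_abs {α β : Type} [Fintype α] [Fintype β] (P : α → Prop) (M : β → Prop)
    (a : α → ℝ) (b : β → ℝ) (F G : α → β → ℝ) (hF0 : ∀ p q, 0 ≤ F p q) (hG0 : ∀ p q, 0 ≤ G p q)
    (h : ∀ p q, P p → M q → 1 ≤ F p q + G p q) (hF : ∀ p, P p → ∑ q, F p q ≤ a p)
    (hG : ∀ q, M q → ∑ p, G p q ≤ b q) :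
    (∑ p, ind (P p)) * (∑ q, ind (M q)) ≤ ∑ p, ind (P p) * a p + ∑ q, ind (M q) * b q := by
  have h1 : (∑ p, ind (P p)) * (∑ q, ind (M q)) ≤
      ∑ p, ∑ q, (ind (P p) * F p q + ind (M q) * G p q) := by
    rw [sum_mul_sum]
    refine sum_le_sum fun p _ => sum_le_sum fun q _ => ?_
    by_cases hp : P p <;> by_cases hq : M q
    · rw [ind_t hp, ind_t hq]; linarith [h p q hp hq]
    · rw [ind_t hp, ind_f hq]; linarith [hF0 p q]
    · rw [ind_f hp, ind_t hq]; linarith [hG0 p q]
    · rw [ind_f hp, ind_f hq]; linarith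
  refine h1.trans ?_
  simp only [sum_add_distrib]
  refine add_le_add ?_ ?_
  · refine sum_le_sum fun p _ => ?_
    rw [← mul_sum]
    by_cases hp : P p
    · rw [ind_t hp, one_mul, one_mul]; exact hF p hp
    · rw [ind_f hp, zero_mul, zero_mul]
  · rw [sum_comm]
    refine sum_le_sum fun q _ => ?_
    rw [← mul_sum]
    by_cases hq : M q
    · rw [ind_t hq, one_mul, one_mul]; exact hG q hq
    · rw [ind_f hq, zero_mul, zero_mul]

noncomputable def PK (c : V → Fin 3) (H : V → V → V → Prop) (N : ℝ) (k : Fin 3) : ℝ :=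
  ∑ p : V × V, ind (c p.1 = k ∧ PL c H N p.1 p.2)
noncomputable def MK (c : V → Fin 3) (H : V → V → V → Prop) (N : ℝ) (k : Fin 3) : ℝ :=
  ∑ p : V × V, ind (c p.1 = k ∧ MI c H N p.1 p.2)

theorem Asm.conflict (A : Asm c H N η) (k : Fin 3) :
    PK c H N k * MK c H N (k + 1) ≤ 52 * (η * N ^ 2) * N ^ 2 := by
  have h1 := A.PL_sum
  have h2 := A.MI_sum
  have S := A.S
  have hp := A.pos
  have h3 := conflict_abs (α := V × V) (β := V × V) (fun p => c p.1 = k ∧ PL c H N p.1 p.2)
    (fun q => c q.1 = k + 1 ∧ MI c H N q.1 q.2)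
    (fun p => 2 * N * (N - np c H p.1 p.2)) (fun q => 2 * N * (N - tt c H q.1 q.2))
    (fun p q => ind (c q.1 = k + 1 ∧ ¬ H p.1 p.2 q.1) * ind (c q.2 = k + 1) +
      ind (c q.1 = k + 1) * ind (c q.2 = k + 1 ∧ ¬ H p.1 p.2 q.2))
    (fun p q => ind (c p.1 = k ∧ ¬ H q.1 q.2 p.1) * ind (c p.2 = k) +
      ind (c p.1 = k) * ind (c p.2 = k ∧ ¬ H q.1 q.2 p.2)) ?_ ?_ ?_ ?_ ?_
  · refine h3.trans ?_
    have e1 : ∑ p : V × V, ind (c p.1 = k ∧ PL c H N p.1 p.2) * (2 * N * (N - np c H p.1 p.2)) ≤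
        2 * N * (13 * η * N ^ 3) := by
      refine le_trans ?_ (mul_le_mul_of_nonneg_left h1 (by linarith))
      rw [Fintype.sum_prod_type, mul_sum]
      refine sum_le_sum fun x _ => ?_
      rw [mul_sum]
      refine sum_le_sum fun y _ => ?_
      have h4 : ind (c x = k ∧ PL c H N x y) ≤ ind (PL c H N x y) := ind_mono fun h => h.2
      have h5 : 0 ≤ N - np c H x y := by linarith [A.np_le x y]
      have h6 : 0 ≤ 2 * N * (N - np c H x y) := mul_nonneg (by linarith) h5
      calc _ ≤ ind (PL c H N x y) * (2 * N * (N - np c H x y)) :=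
            mul_le_mul_of_nonneg_right h4 h6
        _ = _ := by ring
    have e2 : ∑ p : V × V, ind (c p.1 = k + 1 ∧ MI c H N p.1 p.2) * (2 * N * (N - tt c H p.1 p.2)) ≤
        2 * N * (13 * η * N ^ 3) := by
      refine le_trans ?_ (mul_le_mul_of_nonneg_left h2 (by linarith))
      rw [Fintype.sum_prod_type, mul_sum]
      refine sum_le_sum fun x _ => ?_
      rw [mul_sum]
      refine sum_le_sum fun y _ => ?_
      have h4 : ind (c x = k + 1 ∧ MI c H N x y) ≤ ind (MI c H N x y) := ind_mono fun h => h.2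
      have h5 : 0 ≤ N - tt c H x y := by linarith [A.tt_le x y]
      have h6 : 0 ≤ 2 * N * (N - tt c H x y) := mul_nonneg (by linarith) h5
      calc _ ≤ ind (MI c H N x y) * (2 * N * (N - tt c H x y)) :=
            mul_le_mul_of_nonneg_right h4 h6
        _ = _ := by ring
    linarith
  · intro p q
    have a1 := ind_nonneg (c q.1 = k + 1 ∧ ¬ H p.1 p.2 q.1)
    have a2 := ind_nonneg (c q.2 = k + 1)
    have a3 := ind_nonneg (c q.1 = k + 1)
    have a4 := ind_nonneg (c q.2 = k + 1 ∧ ¬ H p.1 p.2 q.2)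
    positivity
  · intro p q
    have a1 := ind_nonneg (c p.1 = k ∧ ¬ H q.1 q.2 p.1)
    have a2 := ind_nonneg (c p.2 = k)
    have a3 := ind_nonneg (c p.1 = k)
    have a4 := ind_nonneg (c p.2 = k ∧ ¬ H q.1 q.2 p.2)
    positivity
  · rintro ⟨x, x'⟩ ⟨y, y'⟩ ⟨hp1, hp2⟩ ⟨hq1, hq2⟩
    simp only at hp1 hp2 hq1 hq2
    have hx' : c x' = k := by rw [hp2.1.1, hp1]
    have hy' : c y' = k + 1 := by rw [hq2.1.1, hq1]
    simp only
    rw [@ind_t (c y' = k + 1) hy', @ind_t (c y = k + 1) hq1, @ind_t (c x' = k) hx',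
      @ind_t (c x = k) hp1, mul_one, one_mul, mul_one, one_mul]
    by_cases g1 : H x x' y
    · by_cases g2 : H x x' y'
      · by_cases g3 : H y y' x
        · have g4 : ¬ H y y' x' := by
            intro g4
            exact S.k4 x x' y y' g1 g2 (S.s3 g3) (S.s3 g4)
          rw [@ind_t (c x' = k ∧ ¬ H y y' x') ⟨hx', g4⟩]
          linarith [ind_nonneg (c y = k + 1 ∧ ¬ H x x' y), ind_nonneg (c y' = k + 1 ∧ ¬ H x x' y'),
            ind_nonneg (c x = k ∧ ¬ H y y' x)]
        · rw [@ind_t (c x = k ∧ ¬ H y y' x) ⟨hp1, g3⟩]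
          linarith [ind_nonneg (c y = k + 1 ∧ ¬ H x x' y), ind_nonneg (c y' = k + 1 ∧ ¬ H x x' y'),
            ind_nonneg (c x' = k ∧ ¬ H y y' x')]
      · rw [@ind_t (c y' = k + 1 ∧ ¬ H x x' y') ⟨hy', g2⟩]
        linarith [ind_nonneg (c y = k + 1 ∧ ¬ H x x' y), ind_nonneg (c x = k ∧ ¬ H y y' x),
          ind_nonneg (c x' = k ∧ ¬ H y y' x')]
    · rw [@ind_t (c y = k + 1 ∧ ¬ H x x' y) ⟨hq1, g1⟩]
      linarith [ind_nonneg (c y' = k + 1 ∧ ¬ H x x' y'), ind_nonneg (c x = k ∧ ¬ H y y' x),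
          ind_nonneg (c x' = k ∧ ¬ H y y' x')]
  · rintro ⟨x, x'⟩ ⟨hp1, hp2⟩
    simp only at hp1 hp2
    rw [Fintype.sum_prod_type]
    simp only [sum_add_distrib]
    rw [← sum_mul_sum, ← sum_mul_sum]
    have e1 : ∑ y, ind (c y = k + 1) ≤ N := A.hU (k + 1)
    have e0 : 0 ≤ ∑ y, ind (c y = k + 1) := sum_nonneg' fun _ => ind_nonneg _
    have e3 : 0 ≤ ∑ y, ind (c y = k + 1 ∧ ¬ H x x' y) := sum_nonneg' fun _ => ind_nonneg _
    have e2 : ∑ y, ind (c y = k + 1 ∧ ¬ H x x' y) ≤ N - np c H x x' := by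
      have : ∑ y, ind (c y = k + 1 ∧ ¬ H x x' y) = sz c (k + 1) - np c H x x' := by
        unfold np sz
        rw [← sum_sub_distrib, hp1]
        refine sum_congr rfl fun y _ => ?_
        by_cases h1 : c y = k + 1 <;> by_cases h2 : H x x' y <;> simp [ind, h1, h2]
      rw [this]
      linarith [A.hU (k + 1)]
    nlinarith
  · rintro ⟨y, y'⟩ ⟨hq1, hq2⟩
    simp only at hq1 hq2
    rw [Fintype.sum_prod_type]
    simp only [sum_add_distrib]
    rw [← sum_mul_sum, ← sum_mul_sum]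
    have e1 : ∑ y, ind (c y = k) ≤ N := A.hU k
    have e0 : 0 ≤ ∑ y, ind (c y = k) := sum_nonneg' fun _ => ind_nonneg _
    have e3 : 0 ≤ ∑ x, ind (c x = k ∧ ¬ H y y' x) := sum_nonneg' fun _ => ind_nonneg _
    have e2 : ∑ x, ind (c x = k ∧ ¬ H y y' x) ≤ N - tt c H y y' := by
      have : ∑ x, ind (c x = k ∧ ¬ H y y' x) = sz c k - tt c H y y' := by
        unfold tt sz
        rw [← sum_sub_distrib, hq1, fin3_12]
        refine sum_congr rfl fun x _ => ?_
        by_cases h1 : c x = k <;> by_cases h2 : H y y' x <;> simp [ind, h1, h2]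
      rw [this]
      linarith [A.hU k]
    nlinarith

/-- classwise count of pairs -/
theorem Asm.three_kinds (A : Asm c H N η) (k : Fin 3) :
    99 / 100 * N ^ 2 ≤ PK c H N k + MK c H N k + 160 * (η * N ^ 2) := by
  have h1 := A.BA_sum
  have hp := A.pos
  have h2 : sz c k ^ 2 - sz c k = ∑ x, ∑ y, ind (c x = k ∧ EE c x y) := by
    have : ∀ x, ∑ y, ind (c x = k ∧ EE c x y) = ind (c x = k) * (sz c k - 1) := by
      intro x
      have e : ∀ y, ind (c x = k ∧ EE c x y) = ind (c x = k) * (ind (c y = k) - ind (x = y)) := by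
        intro y
        unfold EE
        by_cases h0 : c x = k
        · by_cases h1 : x = y
          · subst h1; simp [ind, h0]
          · by_cases h2 : c y = k <;> simp [ind, h1, h2, h0]
        · simp [ind, h0]
      rw [sum_congr rfl fun y _ => e y, ← mul_sum, sum_sub_distrib, sum_ind_eq']
      rfl
    rw [sum_congr rfl fun x _ => this x, ← sum_mul]
    have : ∑ x, ind (c x = k) = sz c k := rfl
    rw [this]; ring
  have h4 := A.hL k
  have h5 := A.hU k
  have h6 : 99 / 100 * N ^ 2 ≤ sz c k ^ 2 - sz c k := by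
    have : 1000 * N ≤ N ^ 2 := by nlinarith [A.hN]
    nlinarith
  refine h6.trans ?_
  rw [h2]
  refine le_trans ?_ (add_le_add le_rfl (le_trans h1 (le_of_eq (by ring))))
  unfold PK MK
  rw [Fintype.sum_prod_type, Fintype.sum_prod_type, ← sum_add_distrib, ← sum_add_distrib]
  refine sum_le_sum fun x _ => ?_
  rw [← sum_add_distrib, ← sum_add_distrib]
  refine sum_le_sum fun y _ => ?_
  refine ind_or3 ?_
  rintro ⟨g1, g2⟩
  by_cases g3 : 3 * N ≤ 4 * np c H x y
  · left; exact ⟨g1, g2, g3⟩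
  · by_cases g4 : 3 * N ≤ 4 * tt c H x y
    · right; left; exact ⟨g1, g2, g4⟩
    · right; right; exact ⟨g2, g3, g4⟩

theorem PK_nonneg (N : ℝ) (k : Fin 3) : 0 ≤ PK c H N k := sum_nonneg fun _ _ => ind_nonneg _
theorem MK_nonneg (N : ℝ) (k : Fin 3) : 0 ≤ MK c H N k := sum_nonneg fun _ _ => ind_nonneg _

theorem dichotomy {P M : Fin 3 → ℝ} {N m : ℝ} (hN : 1000 ≤ N) (hm0 : 0 ≤ m)
    (hm : 1000000 * m ≤ N ^ 2) (hP : ∀ k, 0 ≤ P k) (hM : ∀ k, 0 ≤ M k)
    (h1 : ∀ k, P k * M (k + 1) ≤ 52 * m * N ^ 2) (h2 : ∀ k, 99 / 100 * N ^ 2 ≤ P k + M k + 160 * m) :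
    (∀ k, M k ≤ 130 * m) ∨ ∀ k, P k ≤ 130 * m := by
  have hN3 : (0 : ℝ) < N ^ 2 := by positivity
  have step : ∀ k, 2 * N ^ 2 ≤ 5 * P k → M (k + 1) ≤ 130 * m ∧ 2 * N ^ 2 ≤ 5 * P (k + 1) := by
    intro k hk
    have a1 := h1 k
    have a2 : M (k + 1) ≤ 130 * m := by
      have : N ^ 2 * M (k + 1) ≤ N ^ 2 * (130 * m) := by nlinarith [hM (k + 1)]
      exact le_of_mul_le_mul_left this hN3
    refine ⟨a2, ?_⟩
    have a3 := h2 (k + 1)
    linarith
  by_cases h : ∃ k, 2 * N ^ 2 ≤ 5 * P k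
  · left
    obtain ⟨k, hk⟩ := h
    obtain ⟨b1, b2⟩ := step k hk
    obtain ⟨b3, b4⟩ := step (k + 1) b2
    obtain ⟨b5, b6⟩ := step (k + 1 + 1) b4
    intro j
    have : ∀ a b : Fin 3, b = a + 1 ∨ b = a + 1 + 1 ∨ b = a + 1 + 1 + 1 := by decide
    rcases this k j with hj | hj | hj <;> rw [hj] <;> assumption
  · right
    push Not at h
    intro k
    have a1 := h1 k
    have a2 := h2 (k + 1)
    have a3 := h (k + 1)
    have a4 : 2 * N ^ 2 ≤ 5 * M (k + 1) := by linarith
    have : N ^ 2 * P k ≤ N ^ 2 * (130 * m) := by nlinarith [hP k]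
    exact le_of_mul_le_mul_left this hN3

/-- number of triples missing in the good direction -/
noncomputable def MS (c : V → Fin 3) (H : V → V → V → Prop) : ℝ :=
  ∑ x, ∑ y, ∑ z, ind ((EE c x y ∧ c z = c x + 1) ∧ ¬ H x y z)

theorem Asm.MS_le (A : Asm c H N η) :
    MS c H ≤ ∑ x, ∑ y, ind (EE c x y) * (N - np c H x y) := by
  unfold MS
  refine sum_le_sum fun x _ => sum_le_sum fun y _ => ?_
  have e : ∑ z, ind ((EE c x y ∧ c z = c x + 1) ∧ ¬ H x y z) =
      ind (EE c x y) * (sz c (c x + 1) - np c H x y) := by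
    unfold np sz
    rw [← sum_sub_distrib, mul_sum]
    refine sum_congr rfl fun z _ => ?_
    by_cases h0 : EE c x y <;> by_cases h1 : c z = c x + 1 <;> by_cases h2 : H x y z <;>
      simp [ind, h0, h1, h2]
  rw [e]
  exact mul_le_mul_of_nonneg_left (by linarith [A.hU (c x + 1)]) (ind_nonneg _)

def neg3 (c : V → Fin 3) : V → Fin 3 := fun v => - c v

theorem neg_one_iff : ∀ a b : Fin 3, (-a = -b + 1 ↔ a = b + 2) := by decide
theorem neg_two_iff : ∀ a b : Fin 3, (-a = -b + 2 ↔ a = b + 1) := by decide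
theorem neg_eq_iff' : ∀ a b : Fin 3, (-a = -b ↔ a = b) := by decide

theorem np_neg (x y : V) : np (neg3 c) H x y = tt c H x y := by
  unfold np tt neg3
  refine sum_congr rfl fun z _ => ind_congr ?_
  rw [neg_one_iff]

theorem EE_neg (x y : V) : EE (neg3 c) x y ↔ EE c x y := by
  unfold EE neg3
  rw [neg_eq_iff']

theorem sz_neg (k : Fin 3) : sz (neg3 c) k = sz c (-k) := by
  unfold sz neg3
  refine sum_congr rfl fun z _ => ind_congr ?_
  generalize c z = a
  revert a k
  decide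

theorem io_neg (x y : V) : io (neg3 c) H x y = io c H x y := by
  unfold io neg3
  refine sum_congr rfl fun z _ => ind_congr ?_
  rw [neg_eq_iff', neg_eq_iff']

theorem mu_neg (S : Sys c H) (v : V) : mu (neg3 c) H v = mu c H v := by
  unfold mu
  rw [sum_comm]
  refine sum_congr rfl fun y _ => sum_congr rfl fun z _ => ind_congr ?_
  unfold neg3
  rw [neg_one_iff, neg_two_iff]
  constructor
  · rintro ⟨h1, h2, h3⟩; exact ⟨h2, h1, fun h => h3 (S.s2 _ _ _ h)⟩
  · rintro ⟨h1, h2, h3⟩; exact ⟨h2, h1, fun h => h3 (S.s2 _ _ _ h)⟩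

theorem Sys_neg (S : Sys c H) : Sys (neg3 c) H := ⟨S.s1, S.s2, S.ne, S.k4⟩

theorem Asm.neg (A : Asm c H N η) : Asm (neg3 c) H N η :=
  ⟨Sys_neg A.S, fun k => by rw [sz_neg]; exact A.hU _, fun k => by rw [sz_neg]; exact A.hL _,
    fun v => by rw [mu_neg A.S]; exact A.hm v, fun x y => by rw [io_neg]; exact A.hI x y,
    A.ht, A.hN, A.h0, A.h1⟩

theorem fin3_all : ∀ a : Fin 3, a = 0 ∨ a = 1 ∨ a = 2 := by decide

/-- Stage 1: after reversing the cyclic order of the classes if necessary, almost all triples of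
Turán's construction with two vertices in a class are present. -/
theorem Asm.stage1 (A : Asm c H N η) :
    MS c H ≤ 563 * η * N ^ 3 ∨ MS (neg3 c) H ≤ 563 * η * N ^ 3 := by
  have hp := A.pos
  have h00 := A.h0
  have g1 := A.PL_sum
  have g2 := A.MI_sum
  have g3 := A.BA_sum
  have hPs : ∑ x, ∑ y, ind (PL c H N x y) = PK c H N 0 + PK c H N 1 + PK c H N 2 := by
    unfold PK
    rw [Fintype.sum_prod_type, Fintype.sum_prod_type, Fintype.sum_prod_type, ← sum_add_distrib,
      ← sum_add_distrib]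
    refine sum_congr rfl fun x _ => ?_
    rw [← sum_add_distrib, ← sum_add_distrib]
    refine sum_congr rfl fun y _ => ?_
    rcases fin3_all (c x) with h | h | h <;> simp [ind, h]
  have hMs : ∑ x, ∑ y, ind (MI c H N x y) = MK c H N 0 + MK c H N 1 + MK c H N 2 := by
    unfold MK
    rw [Fintype.sum_prod_type, Fintype.sum_prod_type, Fintype.sum_prod_type, ← sum_add_distrib,
      ← sum_add_distrib]
    refine sum_congr rfl fun x _ => ?_
    rw [← sum_add_distrib, ← sum_add_distrib]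
    refine sum_congr rfl fun y _ => ?_
    rcases fin3_all (c x) with h | h | h <;> simp [ind, h]
  have hsm : 1000000 * (η * N ^ 2) ≤ N ^ 2 := by
    have := mul_le_mul_of_nonneg_right A.h1 (show 0 ≤ N ^ 2 by positivity)
    linarith
  rcases dichotomy A.hN (mul_nonneg h00 (by positivity)) hsm (PK_nonneg (c := c) (H := H) N)
    (MK_nonneg (c := c) (H := H) N) A.conflict A.three_kinds with h | h
  · left
    refine A.MS_le.trans ?_
    have : ∑ x, ∑ y, ind (EE c x y) * (N - np c H x y) ≤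
        ∑ x, ∑ y, (ind (PL c H N x y) * (N - np c H x y) + N * ind (MI c H N x y) +
          N * ind (BA c H N x y)) := by
      refine sum_le_sum fun x _ => sum_le_sum fun y _ => ?_
      have b1 := np_nonneg (c := c) (H := H) x y
      have b2 := A.np_le x y
      by_cases h0 : EE c x y
      · rw [ind_t h0, one_mul]
        by_cases h1 : 3 * N ≤ 4 * np c H x y
        · rw [@ind_t (PL c H N x y) ⟨h0, h1⟩]
          have := ind_nonneg (MI c H N x y)
          have := ind_nonneg (BA c H N x y)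
          nlinarith
        · by_cases h2 : 3 * N ≤ 4 * tt c H x y
          · rw [@ind_t (MI c H N x y) ⟨h0, h2⟩, @ind_f (PL c H N x y) (fun h => h1 h.2)]
            have := ind_nonneg (BA c H N x y)
            nlinarith
          · rw [@ind_t (BA c H N x y) ⟨h0, h1, h2⟩, @ind_f (PL c H N x y) (fun h => h1 h.2)]
            have := ind_nonneg (MI c H N x y)
            nlinarith
      · rw [ind_f h0, @ind_f (PL c H N x y) (fun h => h0 h.1),
          @ind_f (MI c H N x y) (fun h => h0 h.1), @ind_f (BA c H N x y) (fun h => h0 h.1)]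
        linarith
    refine this.trans ?_
    simp only [sum_add_distrib, ← mul_sum]
    rw [hMs]
    have := h 0
    have := h 1
    have := h 2
    nlinarith
  · right
    refine A.neg.MS_le.trans ?_
    have : ∑ x, ∑ y, ind (EE (neg3 c) x y) * (N - np (neg3 c) H x y) ≤
        ∑ x, ∑ y, (ind (MI c H N x y) * (N - tt c H x y) + N * ind (PL c H N x y) +
          N * ind (BA c H N x y)) := by
      refine sum_le_sum fun x _ => sum_le_sum fun y _ => ?_
      rw [np_neg, ind_congr (EE_neg x y)]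
      have b1 := tt_nonneg (c := c) (H := H) x y
      have b2 := A.tt_le x y
      by_cases h0 : EE c x y
      · rw [ind_t h0, one_mul]
        by_cases h1 : 3 * N ≤ 4 * tt c H x y
        · rw [@ind_t (MI c H N x y) ⟨h0, h1⟩]
          have := ind_nonneg (PL c H N x y)
          have := ind_nonneg (BA c H N x y)
          nlinarith
        · by_cases h2 : 3 * N ≤ 4 * np c H x y
          · rw [@ind_t (PL c H N x y) ⟨h0, h2⟩, @ind_f (MI c H N x y) (fun h => h1 h.2)]
            have := ind_nonneg (BA c H N x y)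
            nlinarith
          · rw [@ind_t (BA c H N x y) ⟨h0, h2, h1⟩, @ind_f (MI c H N x y) (fun h => h1 h.2)]
            have := ind_nonneg (PL c H N x y)
            nlinarith
      · rw [ind_f h0, @ind_f (PL c H N x y) (fun h => h0 h.1),
          @ind_f (MI c H N x y) (fun h => h0 h.1), @ind_f (BA c H N x y) (fun h => h0 h.1)]
        linarith
    refine this.trans ?_
    simp only [sum_add_distrib, ← mul_sum]
    rw [hPs]
    have := h 0
    have := h 1
    have := h 2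
    nlinarith

end Pool.Agent.Y439.Loc
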