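import Pool.Agent.Y439.LocD

/-! 3-colourable 3-graphs containing almost all transversals: the links. -/

set_option autoImplicit false
set_option linter.unusedVariables false
set_option linter.unusedSectionVars false

open Finset
open scoped Classical

namespace Pool.Agent.Y439.Loc

variable {V : Type} [Fintype V] {c : V → Fin 3} {H : V → V → V → Prop} {N η : ℝ}

noncomputable def deg (H : V → V → V → Prop) (v : V) : ℝ := ∑ y, ∑ z, ind (H v y z)
noncomputable def QQ (c : V → Fin 3) (H : V → V → V → Prop) (v : V) : ℝ :=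
  ∑ y, ∑ z, ind ((c y = c v + 1 ∧ c z = c v + 1) ∧ H v y z)
noncomputable def PP (c : V → Fin 3) (H : V → V → V → Prop) (v : V) : ℝ :=
  ∑ y, ∑ z, ind ((c y = c v + 2 ∧ c z = c v + 2) ∧ H v y z)
noncomputable def XP (c : V → Fin 3) (H : V → V → V → Prop) (v : V) : ℝ :=
  ∑ y, ∑ z, ind ((c y = c v ∧ c z = c v + 1) ∧ H v y z)
noncomputable def XM (c : V → Fin 3) (H : V → V → V → Prop) (v : V) : ℝ :=
  ∑ y, ∑ z, ind ((c y = c v ∧ c z = c v + 2) ∧ H v y z)
noncomputable def II (c : V → Fin 3) (H : V → V → V → Prop) (v : V) : ℝ :=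
  ∑ y, ∑ z, ind ((c y = c v ∧ c z = c v) ∧ H v y z)
noncomputable def mP (c : V → Fin 3) (H : V → V → V → Prop) (v : V) : ℝ :=
  ∑ y, ∑ z, ind ((c y = c v + 2 ∧ c z = c v + 2) ∧ y ≠ z ∧ ¬ H v y z)

/-- the pairs in the next class -/
theorem Asm.QQ_le (A : Asm c H N η) (v : V) :
    999 / 1000 * N * QQ c H v ≤ MS c H + 2 * N * mu c H v := by
  have S := A.S
  have hQ0 : 0 ≤ QQ c H v := sum_nonneg' fun _ => sum_nonneg' fun _ => ind_nonneg _
  have hm0 : 0 ≤ mu c H v := mu_nonneg v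
  have h1 : sz c (c v + 2) * QQ c H v =
      ∑ y, ∑ y', ∑ z, ind ((c y = c v + 1 ∧ c y' = c v + 1) ∧ H v y y') *
      ind (c z = c v + 2) := by
    unfold QQ
    rw [mul_sum]
    refine sum_congr rfl fun y _ => ?_
    rw [mul_sum]
    refine sum_congr rfl fun y' _ => ?_
    rw [← mul_sum]
    unfold sz
    ring
  have h2 : sz c (c v + 2) * QQ c H v ≤
      ∑ y, ∑ y', ∑ z, (ind ((EE c y y' ∧ c z = c y + 1) ∧ ¬ H y y' z) +
      ind (c y' = c v + 1) * ind (c y = c v + 1 ∧ c z = c v + 2 ∧ ¬ H v y z) +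
      ind (c y = c v + 1) * ind (c y' = c v + 1 ∧ c z = c v + 2 ∧ ¬ H v y' z)) := by
    rw [h1]
    refine sum_le_sum fun y _ => sum_le_sum fun y' _ => sum_le_sum fun z _ => ?_
    rw [ind_mul, ind_mul, ind_mul]
    refine ind_or3 ?_
    rintro ⟨⟨⟨g1, g2⟩, g3⟩, g4⟩
    by_cases t1 : H v y z
    · by_cases t2 : H v y' z
      · left
        refine ⟨⟨⟨by rw [g1, g2], S.ne23 g3⟩, by rw [g4, g1]; exact (fin3_11 _).symm⟩, fun t3 => ?_⟩
        exact S.k4 v y y' z g3 t1 t2 t3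
      · right; right; exact ⟨g1, g2, g4, t2⟩
    · right; left; exact ⟨g2, g1, g4, t1⟩
  have h3 : 999 / 1000 * N * QQ c H v ≤ sz c (c v + 2) * QQ c H v :=
    mul_le_mul_of_nonneg_right (A.hL _) hQ0
  refine (h3.trans h2).trans ?_
  simp only [sum_add_distrib]
  have e1 : ∑ y : V, ∑ y' : V, ∑ z : V, ind (c y' = c v + 1) *
      ind (c y = c v + 1 ∧ c z = c v + 2 ∧ ¬ H v y z) = sz c (c v + 1) * mu c H v := by
    unfold mu
    rw [mul_sum]
    refine sum_congr rfl fun y _ => ?_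
    unfold sz
    rw [sum_mul_sum]
  have e2 : ∑ y : V, ∑ y' : V, ∑ z : V, ind (c y = c v + 1) *
      ind (c y' = c v + 1 ∧ c z = c v + 2 ∧ ¬ H v y' z) = sz c (c v + 1) * mu c H v := by
    rw [← e1, sum_comm]
  rw [e1, e2]
  have h4 : sz c (c v + 1) * mu c H v ≤ N * mu c H v :=
    mul_le_mul_of_nonneg_right (A.hU _) hm0
  unfold MS
  linarith

/-- the squares of the codegrees in the wrong direction -/
theorem Asm.tt_sq (A : Asm c H N η) (v : V) :
    ∑ y, ind (c y = c v) * (tt c H v y * tt c H v y) ≤ N ^ 2 + N * mP c H v + MS c H := by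
  have S := A.S
  have hp := A.pos
  have h1 : ∀ y, ind (c y = c v) * (tt c H v y * tt c H v y) ≤
      ∑ u, ∑ w, (ind (c y = c v) * (ind (u = w) * ind (c u = c v + 2)) +
        ind (c y = c v) * ind ((c u = c v + 2 ∧ c w = c v + 2) ∧ u ≠ w ∧ ¬ H v u w) +
        ind ((EE c u w ∧ c y = c u + 1) ∧ ¬ H u w y)) := by
    intro y
    by_cases h0 : c y = c v
    · rw [ind_t h0, one_mul]
      unfold tt
      rw [sum_mul_sum]
      refine sum_le_sum fun u _ => sum_le_sum fun w _ => ?_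
      rw [one_mul, one_mul, ind_mul, ind_mul]
      refine ind_or3 ?_
      rintro ⟨⟨g1, g2⟩, g3, g4⟩
      by_cases t0 : u = w
      · left; exact ⟨t0, g1⟩
      by_cases t1 : H v u w
      · right; right
        refine ⟨⟨⟨by rw [g3, g1], t0⟩, by rw [h0, g1]; exact (fin3_21 _).symm⟩, fun t2 => ?_⟩
        exact S.k4 v y u w g2 g4 t1 (S.s3 t2)
      · right; left
        exact ⟨⟨g1, g3⟩, t0, t1⟩
    · rw [ind_f h0, zero_mul]
      refine sum_nonneg' fun u => sum_nonneg' fun w => ?_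
      have := ind_nonneg ((EE c u w ∧ c y = c u + 1) ∧ ¬ H u w y)
      linarith
  refine (sum_le_sum fun y _ => h1 y).trans ?_
  simp only [sum_add_distrib]
  have hsame : ∑ y, ind (c y = c v) ≤ N := A.hU (c v)
  have hsame0 : 0 ≤ ∑ y, ind (c y = c v) := sum_nonneg' fun _ => ind_nonneg _
  have a1 : ∑ y : V, ∑ u : V, ∑ w : V, ind (c y = c v) * (ind (u = w) * ind (c u = c v + 2)) ≤
      N ^ 2 := by
    have : ∀ y : V, ∑ u : V, ∑ w : V, ind (c y = c v) * (ind (u = w) * ind (c u = c v + 2)) =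
        ind (c y = c v) * sz c (c v + 2) := by
      intro y
      unfold sz
      rw [mul_sum]
      refine sum_congr rfl fun u _ => ?_
      rw [← mul_sum, ← sum_mul, sum_ind_eq', one_mul]
    rw [sum_congr rfl fun y _ => this y, ← sum_mul]
    have h3 : 0 ≤ sz c (c v + 2) := sum_nonneg' fun _ => ind_nonneg _
    have h4 := mul_le_mul hsame (A.hU (c v + 2)) h3 hp.le
    linarith
  have a2 : ∑ y : V, ∑ u : V, ∑ w : V,
      ind (c y = c v) * ind ((c u = c v + 2 ∧ c w = c v + 2) ∧ u ≠ w ∧ ¬ H v u w) ≤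
      N * mP c H v := by
    have : ∑ y : V, ∑ u : V, ∑ w : V,
      ind (c y = c v) * ind ((c u = c v + 2 ∧ c w = c v + 2) ∧ u ≠ w ∧ ¬ H v u w) =
      (∑ y, ind (c y = c v)) * mP c H v := by
      unfold mP
      rw [sum_mul]
      refine sum_congr rfl fun y _ => ?_
      rw [mul_sum]
      refine sum_congr rfl fun u _ => ?_
      rw [mul_sum]
    rw [this]
    exact mul_le_mul_of_nonneg_right hsame (sum_nonneg' fun _ => sum_nonneg' fun _ => ind_nonneg _)
  have a3 : ∑ y : V, ∑ u : V, ∑ w : V, ind ((EE c u w ∧ c y = c u + 1) ∧ ¬ H u w y) = MS c H := by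
    unfold MS
    rw [sum_comm]
    refine sum_congr rfl fun u _ => ?_
    rw [sum_comm]
  rw [a3]
  linarith

theorem XM_eq (v : V) : XM c H v = ∑ y, ind (c y = c v) * tt c H v y := by
  unfold XM tt
  refine sum_congr rfl fun y _ => ?_
  rw [mul_sum]
  refine sum_congr rfl fun z _ => ?_
  rw [ind_mul]
  exact ind_congr ⟨fun h => ⟨h.1.1, h.1.2, h.2⟩, fun h => ⟨⟨h.1, h.2.1⟩, h.2.2⟩⟩

theorem XP_eq (v : V) : XP c H v = ∑ y, ind (c y = c v) * np c H v y := by
  unfold XP np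
  refine sum_congr rfl fun y _ => ?_
  rw [mul_sum]
  refine sum_congr rfl fun z _ => ?_
  rw [ind_mul]
  exact ind_congr ⟨fun h => ⟨h.1.1, h.1.2, h.2⟩, fun h => ⟨⟨h.1, h.2.1⟩, h.2.2⟩⟩

theorem Asm.XM_sq (A : Asm c H N η) (v : V) :
    XM c H v ^ 2 ≤ N * (N ^ 2 + N * mP c H v + MS c H) := by
  rw [XM_eq]
  have hts := A.tt_sq v
  have h1 : (∑ y, ind (c y = c v) * tt c H v y) ^ 2 ≤
      (∑ y, ind (c y = c v) ^ 2) * ∑ y, (ind (c y = c v) * tt c H v y) ^ 2 := by
    have h2 := Finset.sum_mul_sq_le_sq_mul_sq (univ : Finset V) (fun y => ind (c y = c v))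
      (fun y => ind (c y = c v) * tt c H v y)
    have h3 : ∀ y, ind (c y = c v) * (ind (c y = c v) * tt c H v y) = ind (c y = c v) * tt c H v y := by
      intro y
      by_cases h : c y = c v
      · rw [ind_t h]; ring
      · rw [ind_f h]; ring
    rw [sum_congr rfl fun y _ => h3 y] at h2
    exact h2
  have h4 : ∑ y, ind (c y = c v) ^ 2 ≤ N := by
    refine le_trans (le_of_eq ?_) (A.hU (c v))
    unfold sz
    refine sum_congr rfl fun y _ => ?_
    by_cases h : c y = c v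
    · rw [ind_t h]; ring
    · rw [ind_f h]; ring
  have h5 : ∑ y, (ind (c y = c v) * tt c H v y) ^ 2 =
      ∑ y, ind (c y = c v) * (tt c H v y * tt c H v y) := by
    refine sum_congr rfl fun y _ => ?_
    by_cases h : c y = c v
    · rw [ind_t h]; ring
    · rw [ind_f h]; ring
  rw [h5] at h1
  have h6 : 0 ≤ ∑ y, ind (c y = c v) * (tt c H v y * tt c H v y) :=
    sum_nonneg' fun y => mul_nonneg (ind_nonneg _) (mul_self_nonneg _)
  exact h1.trans (mul_le_mul h4 hts h6 A.pos.le)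

theorem Asm.XPM (A : Asm c H N η) (v : V) : XP c H v + XM c H v ≤ N ^ 2 + 2 * η * N ^ 2 := by
  rw [XP_eq, XM_eq, ← sum_add_distrib]
  have hp := A.pos
  have h00 := A.h0
  have h1 : ∀ y, ind (c y = c v) * np c H v y + ind (c y = c v) * tt c H v y ≤
      ind (c y = c v) * (N + 2 * η * N) := by
    intro y
    by_cases h : c y = c v
    · rw [ind_t h, one_mul, one_mul, one_mul]
      by_cases h2 : v = y
      · subst h2
        have e1 : np c H v v = 0 := by
          unfold np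
          exact sum_eq_zero fun z _ => ind_f fun h => A.S.ne _ _ _ h.2 rfl
        have e2 : tt c H v v = 0 := by
          unfold tt
          exact sum_eq_zero fun z _ => ind_f fun h => A.S.ne _ _ _ h.2 rfl
        rw [e1, e2]
        have : 0 ≤ 2 * η * N := by positivity
        linarith
      · have := A.gg_nonneg (x := v) (y := y) ⟨h, h2⟩
        unfold gg at this
        linarith
    · rw [ind_f h]; linarith
  refine (sum_le_sum fun y _ => h1 y).trans ?_
  rw [← sum_mul]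
  have h3 : (∑ y, ind (c y = c v)) * (N + 2 * η * N) ≤ N * (N + 2 * η * N) :=
    mul_le_mul_of_nonneg_right (A.hU (c v)) (by positivity)
  linarith

theorem Asm.II_le (A : Asm c H N η) (v : V) : II c H v ≤ η * N ^ 2 := by
  have hp := A.pos
  have h00 := A.h0
  have h1 : II c H v ≤ ∑ y, ind (c y = c v) * (η * N) := by
    unfold II
    refine sum_le_sum fun y _ => ?_
    by_cases h : c y = c v
    · rw [ind_t h, one_mul]
      exact A.hI v y
    · rw [ind_f h, zero_mul]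
      exact le_of_eq (sum_eq_zero fun z _ => ind_f fun h' => h h'.1.1)
  refine h1.trans ?_
  rw [← sum_mul]
  have h3 : (∑ y, ind (c y = c v)) * (η * N) ≤ N * (η * N) :=
    mul_le_mul_of_nonneg_right (A.hU (c v)) (by positivity)
  linarith

theorem Asm.sz_mul (A : Asm c H N η) (i j : Fin 3) :
    (∑ y, ind (c y = i)) * (∑ y, ind (c y = j)) ≤ N ^ 2 := by
  have h1 : ∑ y, ind (c y = i) ≤ N := A.hU i
  have h2 : ∑ y, ind (c y = j) ≤ N := A.hU j
  have h3 : 0 ≤ ∑ y, ind (c y = j) := sum_nonneg' fun _ => ind_nonneg _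
  have := mul_le_mul h1 h2 h3 A.pos.le
  linarith

theorem Asm.deg_le (A : Asm c H N η) (v : V) :
    deg H v ≤ 2 * N ^ 2 + 2 * XP c H v + 2 * XM c H v + PP c H v + QQ c H v + II c H v := by
  have S := A.S
  have h1 : deg H v ≤ ∑ y, ∑ z, (ind (c y = c v + 1) * ind (c z = c v + 2) +
      ind (c y = c v + 2) * ind (c z = c v + 1) +
      ind ((c y = c v ∧ c z = c v + 1) ∧ H v y z) + ind ((c z = c v ∧ c y = c v + 1) ∧ H v z y) +
      ind ((c y = c v ∧ c z = c v + 2) ∧ H v y z) + ind ((c z = c v ∧ c y = c v + 2) ∧ H v z y) +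
      ind ((c y = c v + 2 ∧ c z = c v + 2) ∧ H v y z) +
      ind ((c y = c v + 1 ∧ c z = c v + 1) ∧ H v y z) +
      ind ((c y = c v ∧ c z = c v) ∧ H v y z)) := by
    unfold deg
    refine sum_le_sum fun y _ => sum_le_sum fun z _ => ?_
    rw [ind_mul, ind_mul]
    have n1 := ind_nonneg (c y = c v + 1 ∧ c z = c v + 2)
    have n2 := ind_nonneg (c y = c v + 2 ∧ c z = c v + 1)
    have n3 := ind_nonneg ((c y = c v ∧ c z = c v + 1) ∧ H v y z)
    have n4 := ind_nonneg ((c z = c v ∧ c y = c v + 1) ∧ H v z y)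
    have n5 := ind_nonneg ((c y = c v ∧ c z = c v + 2) ∧ H v y z)
    have n6 := ind_nonneg ((c z = c v ∧ c y = c v + 2) ∧ H v z y)
    have n7 := ind_nonneg ((c y = c v + 2 ∧ c z = c v + 2) ∧ H v y z)
    have n8 := ind_nonneg ((c y = c v + 1 ∧ c z = c v + 1) ∧ H v y z)
    have n9 := ind_nonneg ((c y = c v ∧ c z = c v) ∧ H v y z)
    by_cases h : H v y z
    · have h' : H v z y := S.s2 _ _ _ h
      rw [ind_t h]
      rcases fin3_cases' (c v) (c y) with h1 | h1 | h1 <;>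
      rcases fin3_cases' (c v) (c z) with h2 | h2 | h2
      · rw [@ind_t ((c y = c v ∧ c z = c v) ∧ H v y z) ⟨⟨h1, h2⟩, h⟩]; linarith
      · rw [@ind_t ((c y = c v ∧ c z = c v + 1) ∧ H v y z) ⟨⟨h1, h2⟩, h⟩]; linarith
      · rw [@ind_t ((c y = c v ∧ c z = c v + 2) ∧ H v y z) ⟨⟨h1, h2⟩, h⟩]; linarith
      · rw [@ind_t ((c z = c v ∧ c y = c v + 1) ∧ H v z y) ⟨⟨h2, h1⟩, h'⟩]; linarith
      · rw [@ind_t ((c y = c v + 1 ∧ c z = c v + 1) ∧ H v y z) ⟨⟨h1, h2⟩, h⟩]; linarith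
      · rw [@ind_t (c y = c v + 1 ∧ c z = c v + 2) ⟨h1, h2⟩]; linarith
      · rw [@ind_t ((c z = c v ∧ c y = c v + 2) ∧ H v z y) ⟨⟨h2, h1⟩, h'⟩]; linarith
      · rw [@ind_t (c y = c v + 2 ∧ c z = c v + 1) ⟨h1, h2⟩]; linarith
      · rw [@ind_t ((c y = c v + 2 ∧ c z = c v + 2) ∧ H v y z) ⟨⟨h1, h2⟩, h⟩]; linarith
    · rw [ind_f h]; linarith
  refine h1.trans ?_
  simp only [sum_add_distrib]
  rw [← sum_mul_sum, ← sum_mul_sum]
  have e1 := A.sz_mul (c v + 1) (c v + 2)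
  have e2 := A.sz_mul (c v + 2) (c v + 1)
  have e3 : ∑ y, ∑ z, ind ((c z = c v ∧ c y = c v + 1) ∧ H v z y) = XP c H v := by
    unfold XP; rw [sum_comm]
  have e4 : ∑ y, ∑ z, ind ((c z = c v ∧ c y = c v + 2) ∧ H v z y) = XM c H v := by
    unfold XM; rw [sum_comm]
  rw [e3, e4]
  unfold XP XM PP QQ II
  linarith

theorem Asm.PPmP (A : Asm c H N η) (v : V) : PP c H v + mP c H v ≤ N ^ 2 := by
  refine le_trans ?_ (A.sz_mul (c v + 2) (c v + 2))
  rw [sum_mul_sum]
  unfold PP mP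
  rw [← sum_add_distrib]
  refine sum_le_sum fun y _ => ?_
  rw [← sum_add_distrib]
  refine sum_le_sum fun z _ => ?_
  rw [ind_mul]
  by_cases h1 : c y = c v + 2 ∧ c z = c v + 2
  · rw [ind_t h1]
    by_cases h2 : H v y z
    · rw [@ind_t ((c y = c v + 2 ∧ c z = c v + 2) ∧ H v y z) ⟨h1, h2⟩,
        @ind_f ((c y = c v + 2 ∧ c z = c v + 2) ∧ y ≠ z ∧ ¬ H v y z) (fun h => h.2.2 h2)]
      linarith
    · rw [@ind_f ((c y = c v + 2 ∧ c z = c v + 2) ∧ H v y z) (fun h => h2 h.2)]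
      linarith [ind_le_one ((c y = c v + 2 ∧ c z = c v + 2) ∧ y ≠ z ∧ ¬ H v y z)]
  · rw [@ind_f ((c y = c v + 2 ∧ c z = c v + 2) ∧ H v y z) (fun h => h1 h.1),
      @ind_f ((c y = c v + 2 ∧ c z = c v + 2) ∧ y ≠ z ∧ ¬ H v y z) (fun h => h1 h.1)]
    linarith [ind_nonneg (c y = c v + 2 ∧ c z = c v + 2)]

/-- missing pairs between the own and the next class -/
theorem Asm.XP_miss (A : Asm c H N η) (v : V) :
    ∑ y, ∑ z, ind ((c y = c v ∧ c z = c v + 1) ∧ ¬ H v y z) ≤ N ^ 2 - XP c H v := by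
  have h0 := A.sz_mul (c v) (c v + 1)
  have : ∑ y, ∑ z, ind ((c y = c v ∧ c z = c v + 1) ∧ ¬ H v y z) + XP c H v =
      (∑ y, ind (c y = c v)) * ∑ y, ind (c y = c v + 1) := by
    rw [sum_mul_sum]
    unfold XP
    rw [← sum_add_distrib]
    refine sum_congr rfl fun y _ => ?_
    rw [← sum_add_distrib]
    refine sum_congr rfl fun z _ => ?_
    rw [ind_mul]
    by_cases h1 : c y = c v ∧ c z = c v + 1
    · by_cases h2 : H v y z
      · rw [ind_t h1, @ind_t ((c y = c v ∧ c z = c v + 1) ∧ H v y z) ⟨h1, h2⟩,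
          @ind_f ((c y = c v ∧ c z = c v + 1) ∧ ¬ H v y z) (fun h => h.2 h2)]
        norm_num
      · rw [ind_t h1, @ind_f ((c y = c v ∧ c z = c v + 1) ∧ H v y z) (fun h => h2 h.2),
          @ind_t ((c y = c v ∧ c z = c v + 1) ∧ ¬ H v y z) ⟨h1, h2⟩]
        norm_num
    · rw [ind_f h1, @ind_f ((c y = c v ∧ c z = c v + 1) ∧ H v y z) (fun h => h1 h.1),
          @ind_f ((c y = c v ∧ c z = c v + 1) ∧ ¬ H v y z) (fun h => h1 h.1)]
      norm_num
  linarith

theorem tu_next {c : V → Fin 3} {x y z : V} (h1 : c y = c x) (h2 : c z = c x + 1) (h3 : Tu c x y z) :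
    x ≠ y := h3.1

theorem Asm.wr_le (A : Asm c H N η) (v : V) :
    wr c H v ≤ 2 * mu c H v + 2 * (N ^ 2 - XP c H v) + 2 * XM c H v + mP c H v + QQ c H v +
      II c H v := by
  have S := A.S
  have h1 : wr c H v ≤ ∑ y, ∑ z, (ind (c y = c v + 1 ∧ c z = c v + 2 ∧ ¬ H v y z) +
      ind (c z = c v + 1 ∧ c y = c v + 2 ∧ ¬ H v z y) +
      ind ((c y = c v ∧ c z = c v + 1) ∧ ¬ H v y z) +
      ind ((c z = c v ∧ c y = c v + 1) ∧ ¬ H v z y) +
      ind ((c y = c v ∧ c z = c v + 2) ∧ H v y z) + ind ((c z = c v ∧ c y = c v + 2) ∧ H v z y) +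
      ind ((c y = c v + 2 ∧ c z = c v + 2) ∧ y ≠ z ∧ ¬ H v y z) +
      ind ((c y = c v + 1 ∧ c z = c v + 1) ∧ H v y z) +
      ind ((c y = c v ∧ c z = c v) ∧ H v y z)) := by
    unfold wr
    refine sum_le_sum fun y _ => sum_le_sum fun z _ => ?_
    have n1 := ind_nonneg (c y = c v + 1 ∧ c z = c v + 2 ∧ ¬ H v y z)
    have n2 := ind_nonneg (c z = c v + 1 ∧ c y = c v + 2 ∧ ¬ H v z y)
    have n3 := ind_nonneg ((c y = c v ∧ c z = c v + 1) ∧ ¬ H v y z)
    have n4 := ind_nonneg ((c z = c v ∧ c y = c v + 1) ∧ ¬ H v z y)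
    have n5 := ind_nonneg ((c y = c v ∧ c z = c v + 2) ∧ H v y z)
    have n6 := ind_nonneg ((c z = c v ∧ c y = c v + 2) ∧ H v z y)
    have n7 := ind_nonneg ((c y = c v + 2 ∧ c z = c v + 2) ∧ y ≠ z ∧ ¬ H v y z)
    have n8 := ind_nonneg ((c y = c v + 1 ∧ c z = c v + 1) ∧ H v y z)
    have n9 := ind_nonneg ((c y = c v ∧ c z = c v) ∧ H v y z)
    by_cases h : ¬ (H v y z ↔ Tu c v y z)
    · rw [ind_t h]
      have hs : H v y z ↔ H v z y := ⟨S.s2 _ _ _, S.s2 _ _ _⟩
      rcases fin3_cases' (c v) (c y) with h1 | h1 | h1 <;>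
      rcases fin3_cases' (c v) (c z) with h2 | h2 | h2
      · have t : H v y z := by
          by_contra t
          refine h ⟨fun h3 => absurd h3 t, fun h3 => ?_⟩
          obtain ⟨-, -, -, h3⟩ := h3
          rw [h1, h2] at h3
          beta_reduce at h3
          exfalso
          revert h3
          generalize c v = k
          revert k; decide
        rw [@ind_t ((c y = c v ∧ c z = c v) ∧ H v y z) ⟨⟨h1, h2⟩, t⟩]; linarith
      · have t : ¬ H v y z := by
          intro t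
          exact h ⟨fun _ => tu_two h1 h2 (S.ne _ _ _ t), fun _ => t⟩
        rw [@ind_t ((c y = c v ∧ c z = c v + 1) ∧ ¬ H v y z) ⟨⟨h1, h2⟩, t⟩]; linarith
      · have t : H v y z := by
          by_contra t
          exact h ⟨fun h3 => absurd h3 t, fun h3 => absurd h3 (tu_not' h1 h2)⟩
        rw [@ind_t ((c y = c v ∧ c z = c v + 2) ∧ H v y z) ⟨⟨h1, h2⟩, t⟩]; linarith
      · have t : ¬ H v z y := by
          intro t
          exact h ⟨fun _ => FD_s2 (tu_two h2 h1 (S.ne _ _ _ t)), fun _ => hs.2 t⟩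
        rw [@ind_t ((c z = c v ∧ c y = c v + 1) ∧ ¬ H v z y) ⟨⟨h2, h1⟩, t⟩]; linarith
      · have t : H v y z := by
          by_contra t
          exact h ⟨fun h3 => absurd h3 t, fun h3 => absurd h3 (tu_not h1 h2)⟩
        rw [@ind_t ((c y = c v + 1 ∧ c z = c v + 1) ∧ H v y z) ⟨⟨h1, h2⟩, t⟩]; linarith
      · have t : ¬ H v y z := by
          intro t
          exact h ⟨fun _ => tu_three h1 h2, fun _ => t⟩
        rw [@ind_t (c y = c v + 1 ∧ c z = c v + 2 ∧ ¬ H v y z) ⟨h1, h2, t⟩]; linarith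
      · have t : H v z y := by
          by_contra t
          exact h ⟨fun h3 => absurd (hs.1 h3) t, fun h3 => absurd (FD_s2 h3) (tu_not' h2 h1)⟩
        rw [@ind_t ((c z = c v ∧ c y = c v + 2) ∧ H v z y) ⟨⟨h2, h1⟩, t⟩]; linarith
      · have t : ¬ H v z y := by
          intro t
          exact h ⟨fun _ => FD_s2 (tu_three h2 h1), fun _ => hs.2 t⟩
        rw [@ind_t (c z = c v + 1 ∧ c y = c v + 2 ∧ ¬ H v z y) ⟨h2, h1, t⟩]; linarith
      · by_cases t0 : y = z
        · exfalso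
          apply h
          constructor
          · intro h3; exact absurd t0 (S.ne23 h3)
          · rintro ⟨-, h3, -, -⟩; exact absurd t0 h3
        · have t : ¬ H v y z := by
            intro t
            exact h ⟨fun _ => tu_pre h1 h2 t0, fun _ => t⟩
          rw [@ind_t ((c y = c v + 2 ∧ c z = c v + 2) ∧ y ≠ z ∧ ¬ H v y z) ⟨⟨h1, h2⟩, t0, t⟩]
          linarith
    · rw [ind_f h]; linarith
  refine h1.trans ?_
  simp only [sum_add_distrib]
  have e1 : ∑ y, ∑ z, ind (c z = c v + 1 ∧ c y = c v + 2 ∧ ¬ H v z y) = mu c H v := by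
    unfold mu; rw [sum_comm]
  have e2 : ∑ y, ∑ z, ind ((c z = c v ∧ c y = c v + 1) ∧ ¬ H v z y) ≤ N ^ 2 - XP c H v := by
    refine le_trans (le_of_eq ?_) (A.XP_miss v)
    rw [sum_comm]
  have e4 : ∑ y, ∑ z, ind ((c z = c v ∧ c y = c v + 2) ∧ H v z y) = XM c H v := by
    unfold XM; rw [sum_comm]
  have e5 := A.XP_miss v
  rw [e1, e4]
  unfold mu XM mP QQ II
  linarith

end Pool.Agent.Y439.Loc
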