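import Pool.Agent.Y439.LocE

/-! 3-graphs containing almost all transversals of a partition: exact bound. -/

set_option autoImplicit false
set_option linter.unusedVariables false
set_option linter.unusedSectionVars false

open Finset
open scoped Classical

namespace Pool.Agent.Y439.Loc

variable {V : Type} [Fintype V] {c : V → Fin 3} {H : V → V → V → Prop} {N η : ℝ}

theorem QQ_nonneg (v : V) : 0 ≤ QQ c H v := sum_nonneg' fun _ => sum_nonneg' fun _ => ind_nonneg _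
theorem XM_nonneg (v : V) : 0 ≤ XM c H v := sum_nonneg' fun _ => sum_nonneg' fun _ => ind_nonneg _
theorem XP_nonneg (v : V) : 0 ≤ XP c H v := sum_nonneg' fun _ => sum_nonneg' fun _ => ind_nonneg _
theorem mP_nonneg (v : V) : 0 ≤ mP c H v := sum_nonneg' fun _ => sum_nonneg' fun _ => ind_nonneg _
theorem PP_nonneg (v : V) : 0 ≤ PP c H v := sum_nonneg' fun _ => sum_nonneg' fun _ => ind_nonneg _

theorem Asm.QQ_small (A : Asm c H N η) (hMS : MS c H ≤ 563 * η * N ^ 3) (v : V) :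
    QQ c H v ≤ 566 * η * N ^ 2 := by
  have h1 := A.QQ_le v
  have h2 := A.hm v
  have hp := A.pos
  have h0 := A.h0
  have h3 : 0 ≤ η * N ^ 3 := by positivity
  have : 999 / 1000 * N * QQ c H v ≤ 999 / 1000 * N * (566 * η * N ^ 2) := by nlinarith
  exact le_of_mul_le_mul_left this (by positivity)

theorem Asm.deg_up (A : Asm c H N η) (hMS : MS c H ≤ 563 * η * N ^ 3) (v : V) :
    deg H v ≤ 5 * N ^ 2 + 571 * η * N ^ 2 := by
  have h1 := A.QQ_small hMS v
  have h2 := A.deg_le v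
  have h3 := A.XPM v
  have h4 := A.PPmP v
  have h5 := mP_nonneg (c := c) (H := H) v
  have h6 := A.II_le v
  linarith

theorem Asm.good_wr (A : Asm c H N η) (hMS : MS c H ≤ 563 * η * N ^ 3)
    (hbig : (10 : ℝ) ^ 34 ≤ N) (hη : (10 : ℝ) ^ 32 * η ≤ 1) (v : V)
    (hv : (5 - 4 / 10 ^ 14) * N ^ 2 ≤ deg H v) : wr c H v ≤ 85 / 10 ^ 8 * N ^ 2 := by
  have hN0 := A.pos
  have h00 := A.h0
  have h1 := A.QQ_small hMS v
  have h2 := A.deg_le v
  have h3 := A.XPM v
  have h4 := A.PPmP v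
  have h5 := mP_nonneg (c := c) (H := H) v
  have h6 := A.XM_sq v
  have h7 := A.wr_le v
  have h8 := A.hm v
  have h9 := XM_nonneg (c := c) (H := H) v
  have h10 := A.II_le v
  have hN2 : 0 < N ^ 2 := by positivity
  have hηN : η * N ^ 2 ≤ 1 / 10 ^ 32 * N ^ 2 := by
    have : η ≤ 1 / 10 ^ 32 := by linarith
    exact mul_le_mul_of_nonneg_right this hN2.le
  have a1 : mP c H v ≤ (4 / 10 ^ 14 + 571 / 10 ^ 32) * N ^ 2 := by linarith
  have a2 : XM c H v ≤ 21 / 10 ^ 8 * N ^ 2 := by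
    have b1 : XM c H v ^ 2 ≤ N ^ 3 + N ^ 2 * ((4 / 10 ^ 14 + 571 / 10 ^ 32) * N ^ 2) +
        563 * N ^ 2 * (η * N ^ 2) := by
      refine h6.trans ?_
      have : N * (N ^ 2 + N * mP c H v + MS c H) = N ^ 3 + N ^ 2 * mP c H v + N * MS c H := by ring
      rw [this]
      have c1 : N ^ 2 * mP c H v ≤ N ^ 2 * ((4 / 10 ^ 14 + 571 / 10 ^ 32) * N ^ 2) :=
        mul_le_mul_of_nonneg_left a1 hN2.le
      have c2 : N * MS c H ≤ N * (563 * η * N ^ 3) := mul_le_mul_of_nonneg_left hMS hN0.le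
      have c3 : N * (563 * η * N ^ 3) = 563 * N ^ 2 * (η * N ^ 2) := by ring
      linarith
    have b2 : N ^ 3 ≤ 1 / 10 ^ 34 * N ^ 4 := by
      have : N ^ 3 * 10 ^ 34 ≤ N ^ 3 * N := mul_le_mul_of_nonneg_left hbig (by positivity)
      linarith
    have b3 : 563 * N ^ 2 * (η * N ^ 2) ≤ 563 / 10 ^ 32 * N ^ 4 := by
      have : N ^ 2 * (η * N ^ 2) ≤ N ^ 2 * (1 / 10 ^ 32 * N ^ 2) :=
        mul_le_mul_of_nonneg_left hηN hN2.le
      linarith
    have b4 : XM c H v ^ 2 ≤ (21 / 10 ^ 8 * N ^ 2) ^ 2 := by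
      have e : (21 / 10 ^ 8 * N ^ 2) ^ 2 = 441 / 10 ^ 16 * N ^ 4 := by ring
      rw [e]
      have : 0 < N ^ 4 := by positivity
      linarith
    exact le_of_sq_le_sq b4 (by positivity)
  linarith

theorem clone_wr (hcard : ∑ _x : V, (1 : ℝ) ≤ 3 * N) (φ : V → V) (B : V → Prop)
    (hφ : ∀ v, c (φ v) = c v) (hB : ∀ v, ¬ B v → φ v = v) (v : V) :
    wr c (fun x y z => H (φ x) (φ y) (φ z)) v ≤
      wr c H (φ v) + 6 * N * (∑ x, ind (B x)) + 12 * N := by
  have h1 : wr c (fun x y z => H (φ x) (φ y) (φ z)) v ≤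
      ∑ y, ∑ z, (ind (¬ (H (φ v) y z ↔ Tu c (φ v) y z)) + ind (B y) * 1 + 1 * ind (B z) +
        (ind (v = y) * 1 + 1 * ind (v = z) + ind (φ v = y) * 1 + 1 * ind (φ v = z))) := by
    unfold wr
    refine sum_le_sum fun y _ => sum_le_sum fun z _ => ?_
    have n1 := ind_nonneg (¬ (H (φ v) y z ↔ Tu c (φ v) y z))
    have n2 := ind_nonneg (B y)
    have n3 := ind_nonneg (B z)
    have n4 := ind_nonneg (v = y)
    have n5 := ind_nonneg (v = z)
    have n6 := ind_nonneg (φ v = y)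
    have n7 := ind_nonneg (φ v = z)
    have n8 := ind_le_one (¬ (H (φ v) (φ y) (φ z) ↔ Tu c v y z))
    by_cases t1 : B y
    · rw [ind_t t1]; linarith
    by_cases t2 : B z
    · rw [ind_t t2]; linarith
    by_cases t3 : v = y
    · rw [ind_t t3]; linarith
    by_cases t4 : v = z
    · rw [ind_t t4]; linarith
    by_cases t5 : φ v = y
    · rw [ind_t t5]; linarith
    by_cases t6 : φ v = z
    · rw [ind_t t6]; linarith
    have e1 : φ y = y := hB y t1
    have e2 : φ z = z := hB z t2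
    have e3 : Tu c v y z ↔ Tu c (φ v) y z := by
      unfold Tu FD
      rw [hφ v]
      constructor
      · rintro ⟨-, g2, -, g4⟩; exact ⟨t5, g2, t6, g4⟩
      · rintro ⟨-, g2, -, g4⟩; exact ⟨t3, g2, t4, g4⟩
    have e4 : ind (¬ (H (φ v) (φ y) (φ z) ↔ Tu c v y z)) =
        ind (¬ (H (φ v) y z ↔ Tu c (φ v) y z)) := by
      rw [e1, e2]
      exact ind_congr (not_congr (by rw [e3]))
    rw [e4]
    linarith
  refine h1.trans ?_
  simp only [sum_add_distrib, ← sum_mul_sum, sum_ind_eq']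
  have hb : 0 ≤ ∑ x, ind (B x) := sum_nonneg' fun _ => ind_nonneg _
  have h2 : (∑ x, ind (B x)) * ∑ _x : V, (1 : ℝ) ≤ (∑ x, ind (B x)) * (3 * N) :=
    mul_le_mul_of_nonneg_left hcard hb
  unfold wr
  linarith

theorem clone_io (φ : V → V) (B : V → Prop)
    (hφ : ∀ v, c (φ v) = c v) (hB : ∀ v, ¬ B v → φ v = v) (x y : V) :
    io c (fun x y z => H (φ x) (φ y) (φ z)) x y ≤ io c H (φ x) (φ y) + ∑ x, ind (B x) := by
  unfold io
  rw [← sum_add_distrib]
  refine sum_le_sum fun z _ => ind_or ?_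
  rintro ⟨⟨h1, h2⟩, h3⟩
  by_cases t : B z
  · exact Or.inr t
  · rw [hB z t] at h3
    exact Or.inl ⟨⟨by rw [hφ, hφ, h1], by rw [hφ, h2]⟩, h3⟩

theorem clone_tot (S : Sys c H) (hN : 0 ≤ N) (hcard : ∑ _x : V, (1 : ℝ) ≤ 3 * N)
    (φ : V → V) (B : V → Prop) (hB : ∀ v, ¬ B v → φ v = v)
    (hd : ∀ v, B v → deg H v + 6 * N * (∑ x, ind (B x)) + 1 ≤ deg H (φ v)) :
    tot H + 3 * ∑ x, ind (B x) ≤ tot (fun x y z => H (φ x) (φ y) (φ z)) := by
  have h1 : tot H ≤ ∑ x, ∑ y, ∑ z, (ind (¬ B x ∧ ¬ B y ∧ ¬ B z ∧ H x y z) +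
      ind (B x) * ind (H x y z) + ind (B y) * ind (H y x z) + ind (B z) * ind (H z x y)) := by
    unfold tot
    refine sum_le_sum fun x _ => sum_le_sum fun y _ => sum_le_sum fun z _ => ?_
    rw [ind_mul, ind_mul, ind_mul]
    refine ind_or4 fun h => ?_
    by_cases t1 : B x
    · right; left; exact ⟨t1, h⟩
    by_cases t2 : B y
    · right; right; left; exact ⟨t2, S.s1 _ _ _ h⟩
    by_cases t3 : B z
    · right; right; right; exact ⟨t3, S.s3 h⟩
    left; exact ⟨t1, t2, t3, h⟩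
  have h2 : ∑ x, ∑ y, ∑ z, (ind (¬ B x ∧ ¬ B y ∧ ¬ B z ∧ H x y z) +
      ind (B x ∧ ¬ B y ∧ ¬ B z ∧ H (φ x) y z) + ind (B y ∧ ¬ B x ∧ ¬ B z ∧ H (φ y) x z) +
      ind (B z ∧ ¬ B x ∧ ¬ B y ∧ H (φ z) x y)) ≤ tot (fun x y z => H (φ x) (φ y) (φ z)) := by
    unfold tot
    refine sum_le_sum fun x _ => sum_le_sum fun y _ => sum_le_sum fun z _ => ?_
    by_cases t1 : B x <;> by_cases t2 : B y <;> by_cases t3 : B z <;>
      simp only [t1, t2, t3, not_true_eq_false, not_false_eq_true, true_and, false_and,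
        ind_f (fun h : False => h), add_zero, zero_add] <;>
      try exact ind_nonneg _
    · rw [hB y t2, hB z t3]
    · rw [hB x t1, hB z t3]; exact ind_mono fun h => S.s1 _ _ _ h
    · rw [hB x t1, hB y t2]; exact ind_mono fun h => S.s3 (S.s3 h)
    · rw [hB x t1, hB y t2, hB z t3]
  have hb : 0 ≤ ∑ x, ind (B x) := sum_nonneg' fun _ => ind_nonneg _
  have hbc : (∑ x, ind (B x)) * ∑ _x : V, (1 : ℝ) ≤ (∑ x, ind (B x)) * (3 * N) :=
    mul_le_mul_of_nonneg_left hcard hb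
  have h3 : ∀ x, ind (B x) * deg H x + ind (B x) ≤
      ∑ y, ∑ z, ind (B x ∧ ¬ B y ∧ ¬ B z ∧ H (φ x) y z) := by
    intro x
    by_cases t : B x
    · rw [ind_t t, one_mul]
      have g1 : deg H (φ x) ≤ ∑ y, ∑ z, (ind (B x ∧ ¬ B y ∧ ¬ B z ∧ H (φ x) y z) +
          (ind (B y) * 1 + 1 * ind (B z))) := by
        unfold deg
        refine sum_le_sum fun y _ => sum_le_sum fun z _ => ?_
        rw [mul_one, one_mul, ← add_assoc]
        refine ind_or3 fun h => ?_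
        by_cases t2 : B y
        · right; left; exact t2
        by_cases t3 : B z
        · right; right; exact t3
        left; exact ⟨t, t2, t3, h⟩
      simp only [sum_add_distrib, ← sum_mul_sum] at g1
      have := hd x t
      linarith
    · rw [ind_f t, zero_mul, zero_add]
      exact sum_nonneg' fun _ => sum_nonneg' fun _ => ind_nonneg _
  have e1 : ∑ x, ∑ y, ∑ z, ind (B x) * ind (H x y z) = ∑ x, ind (B x) * deg H x := by
    refine sum_congr rfl fun x _ => ?_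
    unfold deg
    rw [mul_sum]
    exact sum_congr rfl fun y _ => by rw [mul_sum]
  have e2 : ∑ x, ∑ y, ∑ z, ind (B y) * ind (H y x z) = ∑ x, ind (B x) * deg H x := by
    rw [← e1, sum_comm]
  have e3 : ∑ x, ∑ y, ∑ z, ind (B z) * ind (H z x y) = ∑ x, ind (B x) * deg H x := by
    rw [← e2, ← sum3_comm]
  have f2 : ∑ x, ∑ y, ∑ z, ind (B y ∧ ¬ B x ∧ ¬ B z ∧ H (φ y) x z) =
      ∑ x, ∑ y, ∑ z, ind (B x ∧ ¬ B y ∧ ¬ B z ∧ H (φ x) y z) := by
    rw [sum_comm]
  have f3 : ∑ x, ∑ y, ∑ z, ind (B z ∧ ¬ B x ∧ ¬ B y ∧ H (φ z) x y) =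
      ∑ x, ∑ y, ∑ z, ind (B x ∧ ¬ B y ∧ ¬ B z ∧ H (φ x) y z) := by
    rw [← f2, ← sum3_comm]
  simp only [sum_add_distrib] at h1 h2
  rw [e1, e2, e3] at h1
  rw [f2, f3] at h2
  have h4 := sum_le_sum fun (x : V) (_ : x ∈ univ) => h3 x
  rw [sum_add_distrib] at h4
  linarith

theorem clone_sys (S : Sys c H) (φ : V → V) :
    Sys c (fun x y z => H (φ x) (φ y) (φ z)) :=
  ⟨fun x y z h => S.s1 _ _ _ h, fun x y z h => S.s2 _ _ _ h,
    fun x y z h e => S.ne _ _ _ h (by rw [e]), fun x y z w h1 h2 h3 h4 => S.k4 _ _ _ _ h1 h2 h3 h4⟩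

theorem Asm.stage2 (A : Asm c H N η) (hMS : MS c H ≤ 563 * η * N ^ 3)
    (hbig : (10 : ℝ) ^ 34 ≤ N) (hη : (10 : ℝ) ^ 32 * η ≤ 1) :
    ∃ H' : V → V → V → Prop, Sys c H' ∧ (tot H < tot H' ∨ H' = H) ∧
      (∀ v, wr c H' v ≤ 86 / 10 ^ 8 * N ^ 2) ∧ ∀ x y, io c H' x y ≤ N / 10 ^ 4 := by
  have hN0 := A.pos
  have h00 := A.h0
  have hN2 : 0 < N ^ 2 := by positivity
  have hV := A.card
  have hNN : (10 : ℝ) ^ 34 * N ≤ N ^ 2 := by nlinarith
  have htd : tot H = ∑ v, deg H v := rfl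
  have hη1 : η ≤ 1 / 10 ^ 32 := by linarith
  -- few vertices of small degree
  have few : ∀ (B : V → Prop) (c0 : ℝ), (∀ v, B v → deg H v ≤ (5 - c0) * N ^ 2) →
      c0 * ∑ v, ind (B v) ≤ 1714 * η * N := by
    intro B c0 hB
    have h1 : ∑ v, deg H v ≤ ∑ v, ((5 * N ^ 2 + 571 * η * N ^ 2) * 1 - c0 * N ^ 2 * ind (B v)) := by
      refine sum_le_sum fun v _ => ?_
      by_cases t : B v
      · rw [ind_t t]
        have := hB v t
        have : 0 ≤ 571 * η * N ^ 2 := by positivity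
        linarith
      · rw [ind_f t]
        have := A.deg_up hMS v
        linarith
    rw [sum_sub_distrib, ← mul_sum, ← mul_sum, ← htd] at h1
    have h2 : (5 * N ^ 2 + 571 * η * N ^ 2) * ∑ _x : V, (1 : ℝ) ≤
        (5 * N ^ 2 + 571 * η * N ^ 2) * (3 * N) := mul_le_mul_of_nonneg_left hV (by positivity)
    have h3 := A.ht
    have h4 : N ^ 2 * (c0 * ∑ v, ind (B v)) ≤ N ^ 2 * (1714 * η * N) := by linarith
    exact le_of_mul_le_mul_left h4 hN2
  -- good vertices in every class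
  have hg : ∀ k : Fin 3, ∃ v, c v = k ∧ (5 - 2 / 10 ^ 14) * N ^ 2 ≤ deg H v := by
    intro k
    by_contra hc
    push Not at hc
    have h1 := few (fun v => c v = k) (2 / 10 ^ 14) (fun v hv => (hc v hv).le)
    have h2 : 999 / 1000 * N ≤ ∑ v, ind (c v = k) := A.hL k
    have h3 : η * N ≤ 1 / 10 ^ 32 * N := mul_le_mul_of_nonneg_right hη1 hN0.le
    linarith
  choose g hg1 hg2 using hg
  set B : V → Prop := fun v => deg H v < (5 - 4 / 10 ^ 14) * N ^ 2 with hBdef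
  have hβ : ∑ v, ind (B v) ≤ 1 / 10 ^ 15 * N := by
    have h1 := few B (4 / 10 ^ 14) (fun v hv => le_of_lt hv)
    have h3 : η * N ≤ 1 / 10 ^ 32 * N := mul_le_mul_of_nonneg_right hη1 hN0.le
    linarith
  have hβ0 : 0 ≤ ∑ v, ind (B v) := sum_nonneg' fun _ => ind_nonneg _
  set φ : V → V := fun v => if B v then g (c v) else v with hφdef
  have hφB : ∀ v, B v → φ v = g (c v) := fun v h => by simp only [hφdef, if_pos h]
  have hφn : ∀ v, ¬ B v → φ v = v := fun v h => by simp only [hφdef, if_neg h]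
  have hφc : ∀ v, c (φ v) = c v := by
    intro v
    by_cases t : B v
    · rw [hφB v t, hg1]
    · rw [hφn v t]
  have hφd : ∀ v, (5 - 4 / 10 ^ 14) * N ^ 2 ≤ deg H (φ v) := by
    intro v
    by_cases t : B v
    · rw [hφB v t]
      have := hg2 (c v)
      linarith
    · rw [hφn v t]
      exact not_lt.1 t
  refine ⟨fun x y z => H (φ x) (φ y) (φ z), clone_sys A.S φ, ?_, ?_, ?_⟩
  · by_cases hex : ∃ v, B v
    · left
      have hct : tot H + 3 * ∑ x, ind (B x) ≤ tot (fun x y z => H (φ x) (φ y) (φ z)) := by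
        refine clone_tot A.S hN0.le hV φ B hφn fun v hv => ?_
        rw [hφB v hv]
        have h1 := hg2 (c v)
        have h2 : deg H v < (5 - 4 / 10 ^ 14) * N ^ 2 := hv
        have h3 : 6 * N * (∑ x, ind (B x)) ≤ 6 * N * (1 / 10 ^ 15 * N) :=
          mul_le_mul_of_nonneg_left hβ (by linarith)
        have h4 : 6 * N * (1 / 10 ^ 15 * N) = 6 / 10 ^ 15 * N ^ 2 := by ring
        have h5 : (1 : ℝ) ≤ 1 / 10 ^ 15 * N ^ 2 := by
          have : (10 : ℝ) ^ 34 * 10 ^ 34 ≤ N * N :=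
            mul_le_mul hbig hbig (by norm_num) hN0.le
          have h6 : (10 : ℝ) ^ 15 ≤ 10 ^ 34 * 10 ^ 34 := by norm_num
          nlinarith
        linarith
      obtain ⟨v, hv⟩ := hex
      have : ind (B v) ≤ ∑ x, ind (B x) :=
        single_le_sum (f := fun x => ind (B x)) (fun x _ => ind_nonneg _) (mem_univ v)
      rw [ind_t hv] at this
      linarith
    · right
      push Not at hex
      have hid : ∀ v, φ v = v := fun v => hφn v (hex v)
      funext x y z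
      rw [hid x, hid y, hid z]
  · intro v
    have h1 := clone_wr (H := H) hV φ B hφc hφn v
    have h2 := A.good_wr hMS hbig hη (φ v) (hφd v)
    have h3 : 6 * N * (∑ x, ind (B x)) ≤ 6 * N * (1 / 10 ^ 15 * N) :=
      mul_le_mul_of_nonneg_left hβ (by linarith)
    have h4 : 6 * N * (1 / 10 ^ 15 * N) = 6 / 10 ^ 15 * N ^ 2 := by ring
    linarith
  · intro x y
    have h1 := clone_io (H := H) φ B hφc hφn x y
    have h2 := A.hI (φ x) (φ y)
    have h3 : η * N ≤ 1 / 10 ^ 32 * N := mul_le_mul_of_nonneg_right hη1 hN0.le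
    linarith

theorem Asm.big (A : Asm c H N η) (hbig : (10 : ℝ) ^ 34 ≤ N) (hη : (10 : ℝ) ^ 32 * η ≤ 1)
    (q r : ℕ) (hr : r ≤ 2) (hn : ∑ _x : V, (1 : ℝ) = 3 * q + r) :
    tot H ≤ TT q r ∧ (tot H = TT q r → ∃ (c' : V → Fin 3) (rev : V → V → Bool),
      (c' = c ∨ c' = neg3 c) ∧ ∀ x y z, H x y z ↔ FD c' rev x y z) := by
  have fin : ∀ c' : V → Fin 3, Asm c' H N η → MS c' H ≤ 563 * η * N ^ 3 →
      tot H ≤ TT q r ∧ (tot H = TT q r → ∃ rev : V → V → Bool, ∀ x y z, H x y z ↔ FD c' rev x y z) := by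
    intro c' A' hMS
    obtain ⟨H', SH, h1, h2, h3⟩ := A'.stage2 hMS hbig hη
    have hcU := A'.card
    have hcL : 3 * (999 / 1000 * N) ≤ ∑ _x : V, (1 : ℝ) := by
      rw [cardV' (c := c')]
      linarith [A'.hL 0, A'.hL 1, A'.hL 2]
    set M : ℝ := (3 * q + r) / 3 with hMdef
    have hM3 : 3 * M = 3 * q + r := by rw [hMdef]; ring
    have hMU : M ≤ N := by rw [hn] at hcU; linarith
    have hML : 999 / 1000 * N ≤ M := by rw [hn] at hcL; linarith
    have hN0 := A'.pos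
    have hM2 : (999 / 1000 * N) ^ 2 ≤ M ^ 2 := by
      have : 0 ≤ 999 / 1000 * N := by positivity
      nlinarith
    have hNsq : 0 < N ^ 2 := by positivity
    have hqM : (q : ℝ) ≤ M := by
      have : (0 : ℝ) ≤ r := Nat.cast_nonneg r
      linarith
    have hnear := near2 SH q r hn hr hM3 (fun k => by have := A'.hL k; linarith)
      (fun v => by have := h2 v; linarith) (fun x y => by have := h3 x y; linarith)
    rcases h1 with h1 | h1
    · refine ⟨by linarith [hnear.1], fun heq => ?_⟩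
      have := hnear.1
      exfalso
      linarith
    · rw [h1] at hnear
      exact hnear
  rcases A.stage1 with h | h
  · obtain ⟨h1, h2⟩ := fin c A h
    refine ⟨h1, fun heq => ?_⟩
    obtain ⟨rev, hr⟩ := h2 heq
    exact ⟨c, rev, Or.inl rfl, hr⟩
  · obtain ⟨h1, h2⟩ := fin (neg3 c) A.neg h
    refine ⟨h1, fun heq => ?_⟩
    obtain ⟨rev, hr⟩ := h2 heq
    exact ⟨neg3 c, rev, Or.inr rfl, hr⟩

end Pool.Agent.Y439.Loc
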