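import Pool.Agent.Y439.LocC

/-! 3-graphs near Turán's construction: unequal classes, and the exact bound. -/

set_option autoImplicit false
set_option linter.unusedVariables false
set_option linter.unusedSectionVars false

open Finset
open scoped Classical

namespace Pool.Agent.Y439.Loc

variable {V : Type} [Fintype V] {c : V → Fin 3} {H : V → V → V → Prop}

theorem q1 : ∀ (k : Fin 3) (r1 r2 r3 r5 : Bool), fdB (k + 1) (k + 1) k r1 r2 r3 true r5 false = true := by
  decide
theorem q2 : ∀ (k : Fin 3) (r1 r2 r3 r5 : Bool), fdB (k + 1) (k + 1) k r1 r2 r3 false r5 true = true := by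
  decide
theorem q3 : ∀ (k : Fin 3) (r1 r3 r5 r6 : Bool), fdB (k + 1) k k r1 true r3 false r5 r6 = true := by
  decide
theorem q4 : ∀ (k : Fin 3) (r1 r3 r5 r6 : Bool), fdB (k + 1) k k r1 false r3 true r5 r6 = true := by
  decide

/-- number of missing triples -/
noncomputable def DD (c : V → Fin 3) (H : V → V → V → Prop) : ℝ :=
  ∑ x, ∑ y, ∑ z, ind (Dm c H x y z)

noncomputable def rin (c : V → Fin 3) (H : V → V → V → Prop) (v : V) : ℝ :=
  ∑ x, ind (rv c H x v = true)
noncomputable def onl (c : V → Fin 3) (H : V → V → V → Prop) (v v' : V) : ℝ :=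
  ∑ x, ind (rv c H x v = true ∧ ¬ rv c H x v' = true)
noncomputable def com (c : V → Fin 3) (H : V → V → V → Prop) (v v' : V) : ℝ :=
  ∑ x, ind (rv c H x v = true ∧ rv c H x v' = true)

theorem onl_com (v v' : V) : onl c H v v' + com c H v v' = rin c H v := by
  unfold onl com rin
  rw [← sum_add_distrib]
  refine sum_congr rfl fun x _ => ?_
  by_cases h1 : rv c H x v = true <;> by_cases h2 : rv c H x v' = true <;> simp [ind, h1, h2]

theorem com_comm (v v' : V) : com c H v v' = com c H v' v := by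
  unfold com
  exact sum_congr rfl fun x _ => ind_congr and_comm

theorem com_nonneg (v v' : V) : 0 ≤ com c H v v' := sum_nonneg' fun _ => ind_nonneg _
theorem onl_nonneg (v v' : V) : 0 ≤ onl c H v v' := sum_nonneg' fun _ => ind_nonneg _
theorem rin_nonneg (v : V) : 0 ≤ rin c H v := sum_nonneg' fun _ => ind_nonneg _

/-- directed 4-cycles contain missing triples -/
theorem quad (S : Sys c H) (v v' x x' : V) (hc : c v' = c v) :
    ind (rv c H x v = true ∧ ¬ rv c H x v' = true) * ind (rv c H x' v' = true ∧ ¬ rv c H x' v = true) ≤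
      ind (Dm c H v v' x) * ind (rv c H x' v' = true) + ind (Dm c H v v' x') * ind (rv c H x v = true) +
        ind (Dm c H v x x') * ind (rv c H x' v' = true) +
          ind (Dm c H v' x x') * ind (rv c H x v = true) := by
  rw [ind_mul, ind_mul, ind_mul, ind_mul, ind_mul]
  refine ind_or4 ?_
  rintro ⟨⟨h1, h2⟩, h3, h4⟩
  have e1 : c v = c x + 1 := ((rv_iff c H x v).1 h1).1
  have e2 : c v' = c x' + 1 := ((rv_iff c H x' v').1 h3).1
  have e3 : c x' = c x := by
    have : ∀ a b : Fin 3, a + 1 = b + 1 → a = b := by decide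
    exact this _ _ (by rw [← e2, hc, e1])
  have n1 : v ≠ v' := fun h => h2 (h ▸ h1)
  have n2 : x ≠ x' := fun h => h4 (h ▸ h1)
  have n3 : v ≠ x := fun h => fin3_ne1 (c x) (by rw [← e1, h])
  have n4 : v ≠ x' := fun h => fin3_ne1 (c x) (by rw [← e1, h, e3])
  have n5 : v' ≠ x := fun h => fin3_ne1 (c x) (by rw [← e1, ← hc, h])
  have n6 : v' ≠ x' := fun h => fin3_ne1 (c x') (by rw [← e2, h])
  have b2 : rv c H x v' = false := by simpa using h2
  have b4 : rv c H x' v = false := by simpa using h4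
  have R1 : RR c H v v' x := ⟨n1, n5, n3, by rw [hc, e1, h1, b2]; exact q1 _ _ _ _ _⟩
  have R2 : RR c H v v' x' := ⟨n1, n6, n4, by rw [hc, e1, e3, h3, b4]; exact q2 _ _ _ _ _⟩
  have R3 : RR c H v x x' := ⟨n3, n2, n4, by rw [e1, e3, h1, b4]; exact q3 _ _ _ _ _⟩
  have R4 : RR c H v' x x' := ⟨n5, n2, n6, by rw [hc, e1, e3, h3, b2]; exact q4 _ _ _ _ _⟩
  by_cases t1 : H v v' x
  · by_cases t2 : H v v' x'
    · by_cases t3 : H v x x'
      · right; right; right
        exact ⟨⟨R4, fun t4 => S.k4 v v' x x' t1 t2 t3 t4⟩, h1⟩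
      · right; right; left; exact ⟨⟨R3, t3⟩, h3⟩
    · right; left; exact ⟨⟨R2, t2⟩, h1⟩
  · left; exact ⟨⟨R1, t1⟩, h3⟩

/-- upper bound for the number of 4-cycles -/
theorem Z_le (S : Sys c H) {ρ : ℝ} (hr : 0 ≤ ρ)
    (hr1 : ∀ x, ∑ y, ind (rv c H x y = true) ≤ ρ) (hr2 : ∀ y, ∑ x, ind (rv c H x y = true) ≤ ρ) :
    ∑ v, ∑ v', ind (c v' = c v) * (onl c H v v' * onl c H v' v) ≤ 4 * ρ * DD c H := by
  have h1 : ∑ v, ∑ v', ind (c v' = c v) * (onl c H v v' * onl c H v' v) ≤
      ∑ v, ∑ v', ∑ x, ∑ x', (ind (Dm c H v v' x) * ind (rv c H x' v' = true) +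
        ind (Dm c H v v' x') * ind (rv c H x v = true) +
        ind (Dm c H v x x') * ind (rv c H x' v' = true) +
          ind (Dm c H v' x x') * ind (rv c H x v = true)) := by
    refine sum_le_sum fun v _ => sum_le_sum fun v' _ => ?_
    by_cases hc : c v' = c v
    · rw [ind_t hc, one_mul]
      unfold onl
      rw [sum_mul_sum]
      exact sum_le_sum fun x _ => sum_le_sum fun x' _ => quad S v v' x x' hc
    · rw [ind_f hc, zero_mul]
      refine sum_nonneg' fun x => sum_nonneg' fun x' => ?_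
      have a1 := mul_nonneg (ind_nonneg (Dm c H v v' x)) (ind_nonneg (rv c H x' v' = true))
      have a2 := mul_nonneg (ind_nonneg (Dm c H v v' x')) (ind_nonneg (rv c H x v = true))
      have a3 := mul_nonneg (ind_nonneg (Dm c H v x x')) (ind_nonneg (rv c H x' v' = true))
      have a4 := mul_nonneg (ind_nonneg (Dm c H v' x x')) (ind_nonneg (rv c H x v = true))
      linarith
  refine h1.trans ?_
  simp only [sum_add_distrib]
  have T1 : ∑ v, ∑ v', ∑ x, ∑ x', ind (Dm c H v v' x) * ind (rv c H x' v' = true) ≤ ρ * DD c H := by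
    unfold DD
    rw [mul_sum]
    refine sum_le_sum fun v _ => ?_
    rw [mul_sum]
    refine sum_le_sum fun v' _ => ?_
    rw [mul_sum]
    refine sum_le_sum fun x _ => ?_
    rw [← mul_sum, mul_comm]
    exact mul_le_mul_of_nonneg_right (hr2 v') (ind_nonneg _)
  have T2 : ∑ v, ∑ v', ∑ x, ∑ x', ind (Dm c H v v' x') * ind (rv c H x v = true) ≤ ρ * DD c H := by
    unfold DD
    rw [mul_sum]
    refine sum_le_sum fun v _ => ?_
    rw [mul_sum]
    refine sum_le_sum fun v' _ => ?_
    rw [sum_comm, mul_sum]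
    refine sum_le_sum fun x' _ => ?_
    rw [← mul_sum, mul_comm]
    exact mul_le_mul_of_nonneg_right (hr2 v) (ind_nonneg _)
  have T3 : ∑ v, ∑ v', ∑ x, ∑ x', ind (Dm c H v x x') * ind (rv c H x' v' = true) ≤ ρ * DD c H := by
    unfold DD
    rw [mul_sum]
    refine sum_le_sum fun v _ => ?_
    rw [sum_comm, mul_sum]
    refine sum_le_sum fun x _ => ?_
    rw [sum_comm, mul_sum]
    refine sum_le_sum fun x' _ => ?_
    rw [← mul_sum, mul_comm]
    exact mul_le_mul_of_nonneg_right (hr1 x') (ind_nonneg _)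
  have T4 : ∑ v, ∑ v', ∑ x, ∑ x', ind (Dm c H v' x x') * ind (rv c H x v = true) ≤ ρ * DD c H := by
    unfold DD
    rw [sum_comm, mul_sum]
    refine sum_le_sum fun v' _ => ?_
    rw [sum_comm, mul_sum]
    refine sum_le_sum fun x _ => ?_
    rw [sum_comm, mul_sum]
    refine sum_le_sum fun x' _ => ?_
    rw [← mul_sum, mul_comm]
    exact mul_le_mul_of_nonneg_right (hr1 x) (ind_nonneg _)
  linarith

theorem com_sum {ρ : ℝ} (hr1 : ∀ x, ∑ y, ind (rv c H x y = true) ≤ ρ) (v : V) :
    ∑ v', com c H v v' ≤ ρ * rin c H v := by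
  unfold com rin
  rw [sum_comm, mul_sum]
  refine sum_le_sum fun x _ => ?_
  by_cases h : rv c H x v = true
  · rw [ind_t h, mul_one]
    refine le_trans (sum_le_sum fun y _ => ?_) (hr1 x)
    exact ind_mono fun h => h.2
  · rw [ind_f h, mul_zero]
    refine le_of_eq (sum_eq_zero fun y _ => ind_f fun h' => h h'.1)

/-- vertices with at least `t` reversed pairs -/
def LL (c : V → Fin 3) (H : V → V → V → Prop) (i : Fin 3) (t : ℝ) (v : V) : Prop :=
  c v = i ∧ t ≤ rin c H v

theorem bip (S : Sys c H) {ρ t : ℝ} (hr : 0 ≤ ρ) (ht : 0 < t)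
    (hr1 : ∀ x, ∑ y, ind (rv c H x y = true) ≤ ρ) (hr2 : ∀ y, ∑ x, ind (rv c H x y = true) ≤ ρ)
    (i : Fin 3) :
    t ^ 2 / 4 * ((∑ v, ind (LL c H i t v)) ^ 2 - 4 * ρ * ∑ v, ind (LL c H i t v)) ≤
      4 * ρ * DD c H := by
  refine le_trans ?_ (Z_le S hr hr1 hr2)
  have key : ∀ v v', t ^ 2 / 4 * (ind (LL c H i t v) * ind (LL c H i t v') -
      ind (LL c H i t v) * (2 / rin c H v * com c H v v') -
      ind (LL c H i t v') * (2 / rin c H v' * com c H v' v)) ≤
      ind (c v' = c v) * (onl c H v v' * onl c H v' v) := by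
    intro v v'
    have o1 := onl_nonneg (c := c) (H := H) v v'
    have o2 := onl_nonneg (c := c) (H := H) v' v
    have c1 := com_nonneg (c := c) (H := H) v v'
    have c2 := com_nonneg (c := c) (H := H) v' v
    have hR : 0 ≤ ind (c v' = c v) * (onl c H v v' * onl c H v' v) :=
      mul_nonneg (ind_nonneg _) (mul_nonneg o1 o2)
    have d1 : 0 ≤ ind (LL c H i t v) * (2 / rin c H v * com c H v v') :=
      mul_nonneg (ind_nonneg _) (mul_nonneg (div_nonneg (by norm_num) (rin_nonneg _)) c1)
    have d2 : 0 ≤ ind (LL c H i t v') * (2 / rin c H v' * com c H v' v) :=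
      mul_nonneg (ind_nonneg _) (mul_nonneg (div_nonneg (by norm_num) (rin_nonneg _)) c2)
    have ht2 : 0 < t ^ 2 / 4 := by positivity
    by_cases h1 : LL c H i t v
    · by_cases h2 : LL c H i t v'
      · have hc : c v' = c v := by rw [h1.1, h2.1]
        rw [ind_t h1, ind_t h2, ind_t hc, one_mul, one_mul, one_mul, one_mul]
        have r1 : 0 < rin c H v := lt_of_lt_of_le ht h1.2
        have r2 : 0 < rin c H v' := lt_of_lt_of_le ht h2.2
        rw [com_comm v' v]
        have e1 := onl_com (c := c) (H := H) v v'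
        have e2 := onl_com (c := c) (H := H) v' v
        rw [com_comm v' v] at e2
        rw [ind_t h2, one_mul, com_comm v' v] at d2
        rw [ind_t h1, one_mul] at d1
        by_cases g1 : 2 * com c H v v' ≤ rin c H v
        · by_cases g2 : 2 * com c H v v' ≤ rin c H v'
          · have u1 : t / 2 ≤ onl c H v v' := by linarith [h1.2]
            have u2 : t / 2 ≤ onl c H v' v := by linarith [h2.2]
            have u3 : t / 2 * (t / 2) ≤ onl c H v v' * onl c H v' v :=
              mul_le_mul u1 u2 (by positivity) (by linarith)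
            nlinarith
          · push Not at g2
            have : 1 ≤ 2 / rin c H v' * com c H v v' := by
              rw [div_mul_eq_mul_div, le_div_iff₀ r2]; linarith
            have h3 : 0 ≤ onl c H v v' * onl c H v' v := mul_nonneg o1 o2
            nlinarith
        · push Not at g1
          have : 1 ≤ 2 / rin c H v * com c H v v' := by
            rw [div_mul_eq_mul_div, le_div_iff₀ r1]; linarith
          have h3 : 0 ≤ onl c H v v' * onl c H v' v := mul_nonneg o1 o2
          nlinarith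
      · rw [ind_f h2, mul_zero, zero_mul]
        nlinarith
    · rw [ind_f h1, zero_mul, zero_mul]
      nlinarith
  refine le_trans (le_of_le_of_eq ?_ rfl) (sum_le_sum fun v _ => sum_le_sum fun v' _ => key v v')
  simp only [← mul_sum]
  refine mul_le_mul_of_nonneg_left ?_ (by positivity)
  simp only [sum_sub_distrib]
  have e1 : ∑ v, ∑ v', ind (LL c H i t v) * ind (LL c H i t v') = (∑ v, ind (LL c H i t v)) ^ 2 := by
    rw [← sum_mul_sum]; ring
  have e2 : ∑ v, ∑ v', ind (LL c H i t v) * (2 / rin c H v * com c H v v') ≤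
      2 * ρ * ∑ v, ind (LL c H i t v) := by
    rw [mul_sum]
    refine sum_le_sum fun v _ => ?_
    rw [← mul_sum, ← mul_sum]
    by_cases h1 : LL c H i t v
    · rw [ind_t h1, one_mul, mul_one]
      have r1 : 0 < rin c H v := lt_of_lt_of_le ht h1.2
      have := com_sum (H := H) hr1 v
      calc 2 / rin c H v * ∑ v', com c H v v' ≤ 2 / rin c H v * (ρ * rin c H v) :=
            mul_le_mul_of_nonneg_left this (by positivity)
        _ = 2 * ρ := by field_simp
    · rw [ind_f h1]; simp
  have e3 : ∑ v, ∑ v', ind (LL c H i t v') * (2 / rin c H v' * com c H v' v) ≤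
      2 * ρ * ∑ v, ind (LL c H i t v) := by
    rw [sum_comm]; exact e2
  rw [e1]
  linarith

theorem outd_le (v : V) : outd c (rv c H) v ≤ sz c (c v + 1) + rin c H v := by
  unfold outd sz rin
  rw [← sum_add_distrib]
  refine sum_le_sum fun y _ => ind_or ?_
  intro h
  unfold Ar arcB at h
  simp only [Bool.or_eq_true, Bool.and_eq_true, beq_iff_eq] at h
  rcases h with h | h
  · exact Or.inl h.1
  · exact Or.inr h.2

theorem outd_int (rev : V → V → Bool) (v : V) : ∃ k : ℕ, outd c rev v = k := by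
  refine ⟨∑ y, (if Ar c rev v y then 1 else 0), ?_⟩
  unfold outd
  rw [Nat.cast_sum]
  refine sum_congr rfl fun z _ => ?_
  by_cases h : Ar c rev v z
  · rw [ind_t h, if_pos h, Nat.cast_one]
  · rw [ind_f h, if_neg h, Nat.cast_zero]

theorem sz_int (k : Fin 3) : ∃ m : ℕ, sz c k = m := by
  refine ⟨∑ y, (if c y = k then 1 else 0), ?_⟩
  unfold sz
  rw [Nat.cast_sum]
  refine sum_congr rfl fun z _ => ?_
  by_cases h : c z = k
  · rw [ind_t h, if_pos h, Nat.cast_one]
  · rw [ind_f h, if_neg h, Nat.cast_zero]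

theorem int_prod (a : ℤ) : 0 ≤ (a : ℝ) * ((a : ℝ) - 1) := by
  have h : 0 ≤ a * (a - 1) := by
    rcases le_or_gt a 0 with h | h
    · nlinarith
    · have : 1 ≤ a := h
      nlinarith
  have h' : ((0 : ℤ) : ℝ) ≤ ((a * (a - 1) : ℤ) : ℝ) := by exact_mod_cast h
  push_cast at h'
  linarith

theorem od_nonneg (rev : V → V → Bool) (q : ℕ) (v : V) : 0 ≤ od c rev (q : ℝ) v := by
  obtain ⟨k, hk⟩ := outd_int (c := c) rev v
  have := int_prod ((k : ℤ) - (q : ℤ))
  unfold od
  rw [hk]
  push_cast at this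
  exact this

theorem ex_nonneg (a : ℕ) : 0 ≤ ex (a : ℝ) := by
  unfold ex
  rcases Nat.lt_or_ge a 2 with h | h
  · interval_cases a <;> norm_num
  · have : (2 : ℝ) ≤ a := by exact_mod_cast h
    have h1 : (0 : ℝ) ≤ a := by linarith
    have h2 : (0 : ℝ) ≤ (a : ℝ) - 1 := by linarith
    have h3 : (0 : ℝ) ≤ (a : ℝ) - 2 := by linarith
    positivity

/-- the excess of a small class is compensated -/
theorem class_k (S : Sys c H) {M : ℝ} (q : ℕ) (hM : 1000 ≤ M) (hq : (q : ℝ) ≤ M)
    (hs1 : ∀ k, M - M / 500 ≤ sz c k) (hD : 0 ≤ DD c H)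
    (hr1 : ∀ x, ∑ y, ind (rv c H x y = true) ≤ M / 10 ^ 5)
    (hr2 : ∀ y, ∑ x, ind (rv c H x y = true) ≤ M / 10 ^ 5) (k : Fin 3) :
    - ex (sz c k - q) ≤ 3 * (∑ v, ind (c v = k + 2) * od c (rv c H) q v) + DD c H / 6 := by
  have hsum : 0 ≤ ∑ v, ind (c v = k + 2) * od c (rv c H) q v :=
    sum_nonneg' fun v => mul_nonneg (ind_nonneg _) (od_nonneg _ q v)
  obtain ⟨m, hm⟩ := sz_int (c := c) k
  rcases le_or_gt q m with h | h
  · have : ex (sz c k - q) = ex ((m - q : ℕ) : ℝ) := by rw [hm, Nat.cast_sub h]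
    rw [this]
    have := ex_nonneg (m - q)
    linarith
  · -- small class
    set j : ℝ := (q : ℝ) - sz c k with hj
    have hj1 : 1 ≤ j := by
      rw [hj, hm]
      have : (m : ℝ) + 1 ≤ q := by exact_mod_cast h
      linarith
    have hj2 : j ≤ M / 500 := by
      rw [hj]; linarith [hs1 k]
    have hex : - ex (sz c k - q) = j * (j + 1) * (j + 2) := by
      unfold ex
      rw [hj]; ring
    rw [hex]
    have ht : 0 < j / 2 := by linarith
    set ℓ : ℝ := ∑ v, ind (LL c H (k + 2) (j / 2) v) with hℓ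
    rcases le_or_gt ℓ (M / 2) with hl | hl
    · have h1 : (sz c (k + 2) - ℓ) * (j * (j + 2) / 4) ≤
          ∑ v, ind (c v = k + 2) * od c (rv c H) q v := by
        rw [hℓ]
        unfold sz
        rw [← sum_sub_distrib, sum_mul]
        refine sum_le_sum fun v _ => ?_
        by_cases h1 : c v = k + 2
        · rw [ind_t h1, one_mul]
          by_cases h2 : LL c H (k + 2) (j / 2) v
          · rw [ind_t h2]
            have := od_nonneg (c := c) (rv c H) q v
            linarith
          · rw [ind_f h2]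
            have h3 : rin c H v < j / 2 := by
              by_contra hc
              push Not at hc
              exact h2 ⟨h1, hc⟩
            have h4 := outd_le (c := c) (H := H) v
            have h5 : c v + 1 = k := by rw [h1]; exact fin3_21 k
            rw [h5] at h4
            have h6 : outd c (rv c H) v - q ≤ - (j / 2) := by
              have : sz c k = q - j := by rw [hj]; ring
              linarith
            unfold od
            nlinarith
        · rw [ind_f h1, @ind_f (LL c H (k + 2) (j / 2) v) (fun h => h1 h.1)]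
          linarith
      have h2 : M / 3 ≤ sz c (k + 2) - ℓ := by linarith [hs1 (k + 2)]
      have h3 : 0 < j * (j + 2) := by positivity
      have h4 : M / 3 * (j * (j + 2) / 4) ≤ (sz c (k + 2) - ℓ) * (j * (j + 2) / 4) :=
        mul_le_mul_of_nonneg_right h2 (by positivity)
      have h5 : j * (j + 2) * (j + 1) ≤ j * (j + 2) * (M / 4) :=
        mul_le_mul_of_nonneg_left (by linarith) h3.le
      nlinarith
    · have h1 := bip S (ρ := M / 10 ^ 5) (t := j / 2) (by linarith) ht hr1 hr2 (k + 2)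
      rw [← hℓ] at h1
      have h2 : M ^ 2 / 5 ≤ ℓ ^ 2 - 4 * (M / 10 ^ 5) * ℓ := by nlinarith
      have h3 : (j / 2) ^ 2 / 4 * (M ^ 2 / 5) ≤ 4 * (M / 10 ^ 5) * DD c H :=
        le_trans (mul_le_mul_of_nonneg_left h2 (by positivity)) h1
      have h4 : M * (M * (j ^ 2) * 300) ≤ M * DD c H := by nlinarith
      have h5 : M * (j ^ 2) * 300 ≤ DD c H := le_of_mul_le_mul_left h4 (by linarith)
      have h6 : j * (j + 1) * (j + 2) ≤ 6 * (j * j ^ 2) := by nlinarith
      have h7 : j * j ^ 2 ≤ M / 500 * j ^ 2 := mul_le_mul_of_nonneg_right hj2 (by positivity)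
      have h8 : 0 < M * j ^ 2 := by positivity
      linarith

noncomputable def tot (H : V → V → V → Prop) : ℝ := ∑ x, ∑ y, ∑ z, ind (H x y z)

/-- **Turán's bound near Turán's construction.** -/
theorem near2 (S : Sys c H) {M : ℝ} (q r : ℕ) (hn : ∑ _x : V, (1 : ℝ) = 3 * q + r)
    (hr : r ≤ 2) (hM3 : 3 * M = 3 * q + r) (hs0 : ∀ k, q - M / 1000 ≤ sz c k)
    (hw : ∀ v, (10 : ℝ) ^ 6 * wr c H v ≤ M ^ 2) (hI : ∀ x y, io c H x y ≤ M / 1000) :
    tot H ≤ TT q r ∧ (tot H = TT q r → ∃ rev : V → V → Bool, ∀ x y z, H x y z ↔ FD c rev x y z) := by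
  have hq : (q : ℝ) ≤ M := by
    have : (0 : ℝ) ≤ r := Nat.cast_nonneg r
    linarith
  have hM0 : 0 ≤ M := le_trans (Nat.cast_nonneg q) hq
  rcases lt_or_ge M 1000 with hlt | hge
  · have hz : ∀ v, wr c H v = 0 := by
      intro v
      obtain ⟨k, hk⟩ := wr_int (c := c) (H := H) v
      have h1 := hw v
      rw [hk] at h1 ⊢
      by_contra hc
      have hk0 : k ≠ 0 := fun h => hc (by rw [h]; simp)
      have hk1 : (1 : ℝ) ≤ k := by exact_mod_cast Nat.one_le_iff_ne_zero.2 hk0
      nlinarith
    have he : ∀ x y z, (H x y z ↔ Tu c x y z) := by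
      intro x y z
      have h1 := hz x
      unfold wr at h1
      have h2 := (sum_eq_zero_iff_of_nonneg (fun y _ => sum_nonneg' fun z => ind_nonneg _)).1 h1 y
        (mem_univ y)
      have h3 := (sum_eq_zero_iff_of_nonneg (fun z _ => ind_nonneg _)).1 h2 z (mem_univ z)
      by_contra hc
      rw [ind_t hc] at h3
      norm_num at h3
    have h1 := FDcount (c := c) hn (fun _ _ => false)
    have h2 : tot H = ∑ x, ∑ y, ∑ z, ind (FD c (fun _ _ => false) x y z) :=
      sum_congr rfl fun x _ => sum_congr rfl fun y _ => sum_congr rfl fun z _ => ind_congr (he x y z)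
    have h3 : 0 ≤ ∑ v, od c (fun _ _ => false) q v := sum_nonneg' fun v => od_nonneg _ q v
    have h4 : ∀ k, 0 ≤ ex (sz c k - q) := by
      intro k
      obtain ⟨m, hm⟩ := sz_int (c := c) k
      have h5 := hs0 k
      rw [hm] at h5 ⊢
      have h6 : q ≤ m := by
        by_contra hc
        push Not at hc
        have : (m : ℝ) + 1 ≤ q := by exact_mod_cast hc
        linarith
      rw [← Nat.cast_sub h6]
      exact ex_nonneg _
    have := h4 0
    have := h4 1
    have := h4 2
    refine ⟨by rw [h2]; linarith, fun _ => ⟨fun _ _ => false, he⟩⟩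
  · have hM1 : 0 < M := by linarith
    have hrR : (r : ℝ) ≤ 2 := by exact_mod_cast hr
    have hs1 : ∀ k, M - M / 500 ≤ sz c k := by
      intro k
      have := hs0 k
      linarith
    have hw' : ∀ v, wr c H v ≤ M ^ 2 / 10 ^ 6 := fun v => by
      rw [le_div_iff₀ (by norm_num)]; linarith [hw v]
    have r1 : ∀ x, ∑ y, ind (rv c H x y = true) ≤ M / 10 ^ 5 := by
      intro x
      have h := rho1 S x (M - M / 500) (hs1 _)
      have h2 := hw' x
      by_contra hc
      push Not at hc
      nlinarith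
    have r2 : ∀ y, ∑ x, ind (rv c H x y = true) ≤ M / 10 ^ 5 := by
      intro x
      have h := rho2 S x (M - M / 500) hs1
      have h2 := hw' x
      by_contra hc
      push Not at hc
      nlinarith
    have hMc := cod S (s := M / 100) (ρ := M / 10 ^ 5) (w := M ^ 2 / 10 ^ 6) (ι := M / 1000)
      (by positivity) (by positivity) hw' (by positivity) hI (by nlinarith) r1 r2
    have hK : ∀ x y z, Dp c H x y z → (M - M / 500) - (6 * (M / 10 ^ 5) + 3) ≤
        dm c H x y + dm c H x z + dm c H y z := by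
      intro x y z h
      have := ext S (L := M - M / 500) (ρ := M / 10 ^ 5) hs1 r1 r2 h
      linarith
    have hd := double S hK hMc
    have dmn : 0 ≤ ∑ x, ∑ y, dm c H x y :=
      sum_nonneg' fun _ => sum_nonneg' fun _ => sum_nonneg' fun _ => ind_nonneg _
    have dpn : 0 ≤ ∑ x, ∑ y, dp c H x y :=
      sum_nonneg' fun _ => sum_nonneg' fun _ => sum_nonneg' fun _ => ind_nonneg _
    have hle : ∑ x, ∑ y, dp c H x y ≤ (∑ x, ∑ y, dm c H x y) / 4 := by
      by_contra hc
      push Not at hc
      have h3 : 0 < (M - M / 500) - (6 * (M / 10 ^ 5) + 3) := by linarith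
      have h4 : 3 * (M / 100 + 1 + 2 * (M / 10 ^ 5) + M / 1000) * 4 ≤
          (M - M / 500) - (6 * (M / 10 ^ 5) + 3) := by
        linarith
      nlinarith
    have hDD : ∑ x, ∑ y, dm c H x y = DD c H := rfl
    have hD0 : 0 ≤ DD c H := dmn
    have hH : tot H ≤
        ∑ x, ∑ y, ∑ z, ind (RR c H x y z) + (∑ x, ∑ y, dp c H x y - ∑ x, ∑ y, dm c H x y) := by
      unfold dp dm tot
      rw [← sum_sub_distrib, ← sum_add_distrib]
      refine sum_le_sum fun x _ => ?_
      rw [← sum_sub_distrib, ← sum_add_distrib]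
      refine sum_le_sum fun y _ => ?_
      rw [← sum_sub_distrib, ← sum_add_distrib]
      refine sum_le_sum fun z _ => ?_
      unfold Dp Dm
      by_cases h1 : H x y z <;> by_cases h2 : RR c H x y z <;> simp [ind, h1, h2]
    have hF := FDcount (c := c) hn (rv c H)
    have k0 := class_k S q hge hq hs1 hD0 r1 r2 0
    have k1 := class_k S q hge hq hs1 hD0 r1 r2 1
    have k2 := class_k S q hge hq hs1 hD0 r1 r2 2
    have hod : ∑ v, od c (rv c H) q v = ∑ v, ind (c v = 0 + 2) * od c (rv c H) q v +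
        ∑ v, ind (c v = 1 + 2) * od c (rv c H) q v + ∑ v, ind (c v = 2 + 2) * od c (rv c H) q v := by
      rw [← sum_add_distrib, ← sum_add_distrib]
      refine sum_congr rfl fun v _ => ?_
      have : ∀ k : Fin 3, k = 0 ∨ k = 1 ∨ k = 2 := by decide
      rcases this (c v) with h | h | h <;> rw [h] <;> simp [ind]
    unfold RR at hH
    rw [hDD] at hle hH
    refine ⟨by linarith, fun heq => ⟨rv c H, fun x y z => ?_⟩⟩
    have hD1 : DD c H = 0 := by linarith
    have hP1 : ∑ x, ∑ y, dp c H x y = 0 := by linarith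
    have z1 : ∀ x y z, ind (Dm c H x y z) = 0 := by
      intro x y z
      have a1 := (sum_eq_zero_iff_of_nonneg (fun x _ => sum_nonneg' fun y =>
        sum_nonneg' fun z => ind_nonneg _)).1 hD1 x (mem_univ x)
      have a2 := (sum_eq_zero_iff_of_nonneg (fun y _ => sum_nonneg' fun z => ind_nonneg _)).1 a1 y
        (mem_univ y)
      exact (sum_eq_zero_iff_of_nonneg (fun z _ => ind_nonneg _)).1 a2 z (mem_univ z)
    have z2 : ∀ x y z, ind (Dp c H x y z) = 0 := by
      intro x y z
      have a1 := (sum_eq_zero_iff_of_nonneg (fun x _ => sum_nonneg' fun y =>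
        sum_nonneg' fun z => ind_nonneg _)).1 hP1 x (mem_univ x)
      have a2 := (sum_eq_zero_iff_of_nonneg (fun y _ => sum_nonneg' fun z => ind_nonneg _)).1 a1 y
        (mem_univ y)
      exact (sum_eq_zero_iff_of_nonneg (fun z _ => ind_nonneg _)).1 a2 z (mem_univ z)
    have y1 : ¬ Dm c H x y z := by
      intro h
      have := z1 x y z
      rw [ind_t h] at this
      norm_num at this
    have y2 : ¬ Dp c H x y z := by
      intro h
      have := z2 x y z
      rw [ind_t h] at this
      norm_num at this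
    constructor
    · intro h
      by_contra h'
      exact y2 ⟨h, h'⟩
    · intro h
      by_contra h'
      exact y1 ⟨h, h'⟩

end Pool.Agent.Y439.Loc
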