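import Pool.Agent.Y439.LocF

/-! Few vertices, and the final form for relations. -/

set_option autoImplicit false
set_option linter.unusedVariables false
set_option linter.unusedSectionVars false

open Finset
open scoped Classical

namespace Pool.Agent.Y439.Loc

variable {V : Type} [Fintype V] {c : V → Fin 3} {H : V → V → V → Prop} {N η : ℝ}

theorem mu_int (v : V) : ∃ k : ℕ, mu c H v = k := by
  refine ⟨∑ y, ∑ z, (if c y = c v + 1 ∧ c z = c v + 2 ∧ ¬ H v y z then 1 else 0), ?_⟩
  unfold mu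
  rw [Nat.cast_sum]
  refine sum_congr rfl fun y _ => ?_
  rw [Nat.cast_sum]
  refine sum_congr rfl fun z _ => ?_
  by_cases h : c y = c v + 1 ∧ c z = c v + 2 ∧ ¬ H v y z
  · rw [ind_t h, if_pos h, Nat.cast_one]
  · rw [ind_f h, if_neg h, Nat.cast_zero]

theorem io_int (x y : V) : ∃ k : ℕ, io c H x y = k := by
  refine ⟨∑ z, (if (c y = c x ∧ c z = c x) ∧ H x y z then 1 else 0), ?_⟩
  unfold io
  rw [Nat.cast_sum]
  refine sum_congr rfl fun z _ => ?_
  by_cases h : (c y = c x ∧ c z = c x) ∧ H x y z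
  · rw [ind_t h, if_pos h, Nat.cast_one]
  · rw [ind_f h, if_neg h, Nat.cast_zero]

theorem tu_mono {x y z : V} (h1 : c y = c x) (h2 : c z = c x) : ¬ Tu c x y z := by
  rintro ⟨-, -, -, h3⟩
  rw [h1, h2] at h3
  beta_reduce at h3
  revert h3
  generalize c x = k
  revert k; decide

/-- a characterization of Turán's construction -/
theorem tu_char (S : Sys c H) (P1 : ∀ x y z, c y = c x → x ≠ y → c z = c x + 1 → H x y z)
    (P2 : ∀ x y z, c y = c x → c z = c x + 2 → ¬ H x y z)
    (P3 : ∀ x y z, c y = c x + 1 → c z = c x + 2 → H x y z)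
    (P4 : ∀ x y z, c y = c x → c z = c x → ¬ H x y z) (x y z : V) : H x y z ↔ Tu c x y z := by
  have hs : ∀ x y z, H x y z ↔ H x z y := fun x y z => ⟨S.s2 _ _ _, S.s2 _ _ _⟩
  rcases fin3_cases' (c x) (c y) with h1 | h1 | h1 <;>
  rcases fin3_cases' (c x) (c z) with h2 | h2 | h2
  · exact ⟨fun h => absurd h (P4 _ _ _ h1 h2), fun h => absurd h (tu_mono h1 h2)⟩
  · exact ⟨fun h => tu_two h1 h2 (S.ne _ _ _ h), fun h => P1 _ _ _ h1 h.1 h2⟩
  · exact ⟨fun h => absurd h (P2 _ _ _ h1 h2), fun h => absurd h (tu_not' h1 h2)⟩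
  · exact ⟨fun h => FD_s2 (tu_two h2 h1 (S.ne _ _ _ ((hs _ _ _).1 h))),
      fun h => (hs _ _ _).1 (P1 _ _ _ h2 (FD_s2 h).1 h1)⟩
  · refine ⟨fun h => absurd (S.s3 (S.s3 h)) (P2 y z x (by rw [h1, h2]) ?_),
      fun h => absurd h (tu_not h1 h2)⟩
    rw [h1]; exact (fin3_12 _).symm
  · exact ⟨fun h => tu_three h1 h2, fun h => P3 _ _ _ h1 h2⟩
  · exact ⟨fun h => absurd ((hs _ _ _).1 h) (P2 _ _ _ h2 h1),
      fun h => absurd (FD_s2 h) (tu_not' h2 h1)⟩
  · exact ⟨fun h => FD_s2 (tu_three h2 h1), fun h => (hs _ _ _).1 (P3 _ _ _ h2 h1)⟩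
  · refine ⟨fun h => tu_pre h1 h2 (S.ne23 h), fun h => ?_⟩
    refine S.s3 (P1 y z x (by rw [h1, h2]) h.2.1 ?_)
    rw [h1]; exact (fin3_21 _).symm

theorem mu_zero (hmu : ∀ v, mu c H v = 0) (x y z : V) (h1 : c y = c x + 1) (h2 : c z = c x + 2) :
    H x y z := by
  have h := hmu x
  unfold mu at h
  have a2 := (sum_eq_zero_iff_of_nonneg (fun y _ => sum_nonneg' fun z => ind_nonneg _)).1 h y
    (mem_univ y)
  have a3 := (sum_eq_zero_iff_of_nonneg (fun z _ => ind_nonneg _)).1 a2 z (mem_univ z)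
  by_contra hc
  rw [ind_t ⟨h1, h2, hc⟩] at a3
  norm_num at a3

theorem io_zero (hio : ∀ x y, io c H x y = 0) (x y z : V) (h1 : c y = c x) (h2 : c z = c x) :
    ¬ H x y z := by
  intro hc
  have h := hio x y
  unfold io at h
  have a3 := (sum_eq_zero_iff_of_nonneg (fun z _ => ind_nonneg _)).1 h z (mem_univ z)
  rw [ind_t ⟨⟨h1, h2⟩, hc⟩] at a3
  norm_num at a3

theorem full_of_eq {k : Fin 3} {P : V → Prop} (h : ∑ z, ind (c z = k ∧ P z) = sz c k) (z : V)
    (hz : c z = k) : P z := by
  have h1 : ∑ z, (ind (c z = k) - ind (c z = k ∧ P z)) = 0 := by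
    rw [sum_sub_distrib, h]
    unfold sz
    ring
  have h2 : ∀ z ∈ (univ : Finset V), 0 ≤ ind (c z = k) - ind (c z = k ∧ P z) := fun z _ => by
    have : ind (c z = k ∧ P z) ≤ ind (c z = k) := ind_mono fun h => h.1
    linarith
  have h3 := (sum_eq_zero_iff_of_nonneg h2).1 h1 z (mem_univ z)
  by_contra hc
  rw [ind_t hz, ind_f (fun h => hc h.2)] at h3
  norm_num at h3

theorem none_of_zero {k : Fin 3} {P : V → Prop} (h : ∑ z, ind (c z = k ∧ P z) = 0) (z : V)
    (hz : c z = k) : ¬ P z := by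
  intro hc
  have h3 := (sum_eq_zero_iff_of_nonneg (fun z _ => ind_nonneg _)).1 h z (mem_univ z)
  rw [ind_t ⟨hz, hc⟩] at h3
  norm_num at h3

/-- all transversals present -/
theorem small (S : Sys c H) (m : ℕ) (hm1 : 1 ≤ m) (hN : ∀ k, sz c k = m)
    (hmu : ∀ v, mu c H v = 0) (hio : ∀ x y, io c H x y = 0) :
    tot H ≤ 15 * (m : ℝ) ^ 3 - 9 * (m : ℝ) ^ 2 ∧ (tot H = 15 * (m : ℝ) ^ 3 - 9 * (m : ℝ) ^ 2 →
      ∃ (c' : V → Fin 3) (rev : V → V → Bool),
        (c' = c ∨ c' = neg3 c) ∧ ∀ x y z, H x y z ↔ FD c' rev x y z) := by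
  have hmR : (1 : ℝ) ≤ m := by exact_mod_cast hm1
  have hcard : ∑ _x : V, (1 : ℝ) = 3 * m := by
    rw [cardV' (c := c), hN, hN, hN]; ring
  have h1 := tot_le S
  have h2 : TA c H ≤ 3 * (m : ℝ) ^ 3 := by
    unfold TA
    have : ∀ x, ∑ y, ∑ z, ind ((c y = c x + 1 ∧ c z = c x + 2) ∧ H x y z) ≤ (m : ℝ) ^ 2 := by
      intro x
      have h1 : ∑ y, ∑ z, ind ((c y = c x + 1 ∧ c z = c x + 2) ∧ H x y z) ≤
          ∑ y, ∑ z, ind (c y = c x + 1) * ind (c z = c x + 2) := by
        refine sum_le_sum fun y _ => sum_le_sum fun z _ => ?_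
        rw [ind_mul]
        exact ind_mono fun h => h.1
      refine h1.trans (le_of_eq ?_)
      rw [← sum_mul_sum]
      have e1 := hN (c x + 1)
      have e2 := hN (c x + 2)
      unfold sz at e1 e2
      rw [e1, e2]; ring
    refine (sum_le_sum fun x _ => this x).trans (le_of_eq ?_)
    rw [const_sum, hcard]; ring
  have h3 := SI_le S
  have npn := np_nonneg (c := c) (H := H)
  have ttn := tt_nonneg (c := c) (H := H)
  have npl : ∀ x y, np c H x y ≤ m := fun x y => by
    rw [← hN (c x + 1)]; exact sum_le_sum fun z _ => ind_mono fun h => h.1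
  have ttl : ∀ x y, tt c H x y ≤ m := fun x y => by
    rw [← hN (c x + 2)]; exact sum_le_sum fun z _ => ind_mono fun h => h.1
  have prod : ∀ x y, EE c x y → np c H x y * tt c H x y = 0 := by
    intro x y h
    have h5 := np_nm S h.1
    rw [hmu, hmu] at h5
    exact le_antisymm (by linarith) (mul_nonneg (npn x y) (ttn x y))
  have gn : ∀ x y, EE c x y → 0 ≤ (m : ℝ) - np c H x y - tt c H x y := by
    intro x y h
    rcases mul_eq_zero.1 (prod x y h) with h6 | h6
    · rw [h6]; linarith [ttl x y]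
    · rw [h6]; linarith [npl x y]
  have hEE : ∑ x, ∑ y, ind (EE c x y) = 3 * (m : ℝ) ^ 2 - 3 * m := by
    have : ∀ x, ∑ y, ind (EE c x y) = (m : ℝ) - 1 := by
      intro x
      have e : ∀ y, ind (EE c x y) = ind (c y = c x) - ind (x = y) := by
        intro y
        unfold EE
        by_cases h1 : x = y
        · subst h1; simp [ind]
        · by_cases h2 : c y = c x <;> simp [ind, h1, h2]
      have e2 : ∑ y, ind (c y = c x) = (m : ℝ) := hN (c x)
      rw [sum_congr rfl fun y _ => e y, sum_sub_distrib, e2, sum_ind_eq']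
    rw [sum_congr rfl fun x _ => this x, const_sum, hcard]
    ring
  have h4 : ∑ x, ∑ y, ind (EE c x y) * (np c H x y + tt c H x y + io c H x y) =
      (3 * (m : ℝ) ^ 2 - 3 * m) * m -
        ∑ x, ∑ y, ind (EE c x y) * ((m : ℝ) - np c H x y - tt c H x y) := by
    rw [← hEE, sum_mul, ← sum_sub_distrib]
    refine sum_congr rfl fun x _ => ?_
    rw [sum_mul, ← sum_sub_distrib]
    refine sum_congr rfl fun y _ => ?_
    rw [hio]; ring
  have h5 : ∀ x y, 0 ≤ ind (EE c x y) * ((m : ℝ) - np c H x y - tt c H x y) := by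
    intro x y
    by_cases h : EE c x y
    · rw [ind_t h, one_mul]; exact gn x y h
    · rw [ind_f h, zero_mul]
  have h6 : 0 ≤ ∑ x, ∑ y, ind (EE c x y) * ((m : ℝ) - np c H x y - tt c H x y) :=
    sum_nonneg' fun x => sum_nonneg' fun y => h5 x y
  rw [h4] at h3
  refine ⟨by nlinarith, fun heq => ?_⟩
  have h7 : ∑ x, ∑ y, ind (EE c x y) * ((m : ℝ) - np c H x y - tt c H x y) = 0 :=
    le_antisymm (by nlinarith) h6
  have full : ∀ x y, EE c x y → np c H x y + tt c H x y = m := by
    intro x y h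
    have a2 := (sum_eq_zero_iff_of_nonneg (fun x _ => sum_nonneg' fun y => h5 x y)).1 h7 x
      (mem_univ x)
    have a3 := (sum_eq_zero_iff_of_nonneg (fun y _ => h5 x y)).1 a2 y (mem_univ y)
    rw [ind_t h, one_mul] at a3
    linarith
  have P3 := mu_zero hmu
  have P4 := io_zero hio
  by_cases hplus : ∃ x y, EE c x y ∧ tt c H x y = 0
  · -- all pairs point to the next class
    have step : ∀ k : Fin 3, (∃ x y, c x = k ∧ EE c x y ∧ tt c H x y = 0) →
        (∀ x y, c x = k + 1 → EE c x y → tt c H x y = 0) ∧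
          (∃ x y, c x = k + 1 ∧ EE c x y ∧ tt c H x y = 0) := by
      rintro k ⟨x, y, hk, hE, h0⟩
      have hfull : ∀ z, c z = c x + 1 → H x y z := by
        intro z hz
        have h8 := full x y hE
        rw [h0, add_zero, ← hN (c x + 1)] at h8
        exact full_of_eq (k := c x + 1) (P := fun z => H x y z) h8 z hz
      have all : ∀ u w, c u = k + 1 → EE c u w → tt c H u w = 0 := by
        intro u w hu hE2
        by_contra hc
        have h9 : np c H u w = 0 := by
          rcases mul_eq_zero.1 (prod u w hE2) with h | h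
          · exact h
          · exact absurd h hc
        have h10 := full u w hE2
        rw [h9, zero_add, ← hN (c u + 2)] at h10
        have hcu : c u + 2 = k := by rw [hu]; exact fin3_12 k
        have g1 : H u w x := full_of_eq (k := c u + 2) (P := fun z => H u w z) h10 x
          (by rw [hcu, hk])
        have g2 : H u w y := full_of_eq (k := c u + 2) (P := fun z => H u w z) h10 y
          (by rw [hcu, hE.1, hk])
        have g3 : H x y u := hfull u (by rw [hk, hu])
        have g4 : H x y w := hfull w (by rw [hE2.1, hu, hk])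
        exact S.k4 x y u w g3 g4 (S.s3 g1) (S.s3 g2)
      refine ⟨all, ?_⟩
      -- the class has at least two vertices
      have hm2 : (2 : ℝ) ≤ m := by
        have h11 : ∑ z, ind (c z = k) = (m : ℝ) := hN k
        have h12 : ∑ z, (ind (z = x) + ind (z = y)) ≤ ∑ z, ind (c z = k) := by
          refine sum_le_sum fun z _ => ?_
          by_cases g1 : z = x
          · subst g1
            rw [ind_t rfl, ind_f hE.2, ind_t hk]; norm_num
          · by_cases g2 : z = y
            · subst g2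
              rw [ind_t rfl, ind_f g1, ind_t (by rw [hE.1, hk])]; norm_num
            · rw [ind_f g1, ind_f g2]
              linarith [ind_nonneg (c z = k)]
        rw [sum_add_distrib, sum_ind_eq, sum_ind_eq, h11] at h12
        linarith
      obtain ⟨u, hu⟩ : ∃ u, c u = k + 1 := by
        by_contra hc
        push Not at hc
        have h11 : ∑ z, ind (c z = k + 1) = (m : ℝ) := hN (k + 1)
        rw [sum_eq_zero fun z _ => ind_f (hc z)] at h11
        linarith
      obtain ⟨w, hw1, hw2⟩ : ∃ w, c w = k + 1 ∧ u ≠ w := by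
        by_contra hc
        push Not at hc
        have h11 : ∑ z, ind (c z = k + 1) = (m : ℝ) := hN (k + 1)
        have h12 : ∑ z, ind (c z = k + 1) ≤ ∑ z, ind (u = z) :=
          sum_le_sum fun z _ => ind_mono fun h => hc z h
        rw [h11, sum_ind_eq'] at h12
        linarith
      exact ⟨u, w, hu, ⟨by rw [hw1, hu], hw2⟩, all u w hu ⟨by rw [hw1, hu], hw2⟩⟩
    obtain ⟨x, y, hE, h0⟩ := hplus
    obtain ⟨s1, t1⟩ := step (c x) ⟨x, y, rfl, hE, h0⟩
    obtain ⟨s2, t2⟩ := step _ t1
    obtain ⟨s3, t3⟩ := step _ t2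
    have all : ∀ u w, EE c u w → tt c H u w = 0 := by
      intro u w hE2
      have : ∀ a b : Fin 3, b = a + 1 ∨ b = a + 1 + 1 ∨ b = a + 1 + 1 + 1 := by decide
      rcases this (c x) (c u) with h | h | h
      · exact s1 u w h hE2
      · exact s2 u w h hE2
      · exact s3 u w h hE2
    refine ⟨c, fun _ _ => false, Or.inl rfl, ?_⟩
    refine tu_char S ?_ ?_ P3 P4
    · intro x y z g1 g2 g3
      have h8 := full x y ⟨g1, g2⟩
      rw [all x y ⟨g1, g2⟩, add_zero, ← hN (c x + 1)] at h8
      exact full_of_eq (k := c x + 1) (P := fun z => H x y z) h8 z g3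
    · intro x y z g1 g2 g3
      exact none_of_zero (P := fun z => H x y z) (all x y ⟨g1, S.ne _ _ _ g3⟩) z g2 g3
  · push Not at hplus
    have all : ∀ x y, EE c x y → np c H x y = 0 := by
      intro x y h
      rcases mul_eq_zero.1 (prod x y h) with h8 | h8
      · exact h8
      · exact absurd h8 (hplus x y h)
    refine ⟨neg3 c, fun _ _ => false, Or.inr rfl, ?_⟩
    refine tu_char (Sys_neg S) ?_ ?_ ?_ ?_
    · intro x y z g1 g2 g3
      unfold neg3 at g1 g3
      rw [neg_eq_iff'] at g1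
      rw [neg_one_iff] at g3
      have h8 := full x y ⟨g1, g2⟩
      rw [all x y ⟨g1, g2⟩, zero_add, ← hN (c x + 2)] at h8
      exact full_of_eq (k := c x + 2) (P := fun z => H x y z) h8 z g3
    · intro x y z g1 g2 g3
      unfold neg3 at g1 g2
      rw [neg_eq_iff'] at g1
      rw [neg_two_iff] at g2
      exact none_of_zero (k := c x + 1) (P := fun z => H x y z) (all x y ⟨g1, S.ne _ _ _ g3⟩) z g2 g3
    · intro x y z g1 g2
      unfold neg3 at g1 g2
      rw [neg_one_iff] at g1
      rw [neg_two_iff] at g2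
      exact S.s2 _ _ _ (P3 x z y g2 g1)
    · intro x y z g1 g2
      unfold neg3 at g1 g2
      rw [neg_eq_iff'] at g1 g2
      exact P4 x y z g1 g2

end Pool.Agent.Y439.Loc
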