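import Pool.Agent.Y439.LocH

/-! The theorem on 3-graphs containing almost all transversals, for relations. -/

set_option autoImplicit false
set_option linter.unusedVariables false
set_option linter.unusedSectionVars false

open Finset
open scoped Classical

namespace Pool.Agent.Y439.Loc

variable {V : Type} [Fintype V] {c : V → Fin 3} {H : V → V → V → Prop} {N η : ℝ}

/-- number of transversals at a vertex -/
noncomputable def TD (c : V → Fin 3) (H : V → V → V → Prop) (v : V) : ℝ :=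
  ∑ y, ∑ z, ind (c y = c v + 1 ∧ c z = c v + 2 ∧ H v y z)

theorem TD_mu (v : V) : TD c H v + mu c H v = sz c (c v + 1) * sz c (c v + 2) := by
  unfold sz
  rw [sum_mul_sum]
  unfold TD mu
  rw [← sum_add_distrib]
  refine sum_congr rfl fun y _ => ?_
  rw [← sum_add_distrib]
  refine sum_congr rfl fun z _ => ?_
  by_cases h1 : c y = c v + 1 <;> by_cases h2 : c z = c v + 2 <;> by_cases h3 : H v y z <;>
    simp [ind, h1, h2, h3]

theorem sz_nonneg (k : Fin 3) : 0 ≤ sz c k := sum_nonneg' fun _ => ind_nonneg _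

/-- two numbers with large product -/
theorem two_prod {a b m t : ℝ} (ha : 0 ≤ a) (hb : 0 ≤ b) (hm : 0 ≤ m) (ht0 : 0 ≤ t) (ht : t ≤ 1)
    (h : t * m ^ 2 ≤ a * b) : 2 * t * m ≤ a + b := by
  have h1 : (2 * t * m) ^ 2 ≤ (a + b) ^ 2 := by
    have h2 : (a - b) ^ 2 ≥ 0 := sq_nonneg _
    have h3 : t ^ 2 * m ^ 2 ≤ t * m ^ 2 := by
      have : t ^ 2 ≤ t := by nlinarith
      exact mul_le_mul_of_nonneg_right this (by positivity)
    nlinarith
  exact le_of_sq_le_sq h1 (by positivity)

theorem TT_low {M q : ℝ} (r : ℕ) (hr : r ≤ 2) (hM : 0 ≤ M) (h : 3 * M = 3 * q + r) :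
    15 * M ^ 3 - 9 * M ^ 2 - 2 * M ≤ TT q r := by
  have hq : q = M - r / 3 := by linarith
  unfold TT
  rw [hq]
  interval_cases r
  · norm_num
    nlinarith
  · norm_num
    nlinarith
  · norm_num
    nlinarith

theorem final (S : Sys c H) (n : ℕ) (hn : ∑ _x : V, (1 : ℝ) = n)
    (hT : ∀ v, (1 - 1 / 10 ^ 70) * (n : ℝ) ^ 2 / 9 ≤ TD c H v)
    (hI : ∀ x y, io c H x y ≤ (n : ℝ) / 10 ^ 70) :
    tot H ≤ TT (n / 3 : ℕ) (n % 3 : ℕ) ∧ (tot H = TT (n / 3 : ℕ) (n % 3 : ℕ) →
      ∃ (c' : V → Fin 3) (rev : V → V → Bool),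
        (c' = c ∨ c' = neg3 c) ∧ ∀ x y z, H x y z ↔ FD c' rev x y z) := by
  rcases Nat.eq_zero_or_pos n with h0 | h0
  · subst h0
    have hE : IsEmpty V := by
      rw [← Fintype.card_eq_zero_iff]
      have : (Fintype.card V : ℝ) = 0 := by simpa using hn
      exact_mod_cast this
    constructor
    · unfold tot TT
      simp
    · intro _
      exact ⟨c, fun _ _ => false, Or.inl rfl, fun x => (hE.false x).elim⟩
  set M : ℝ := (n : ℝ) / 3 with hMdef
  have hn1 : (1 : ℝ) ≤ n := by exact_mod_cast h0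
  have hM0 : 0 < M := by rw [hMdef]; positivity
  have hnM : (n : ℝ) = 3 * M := by rw [hMdef]; ring
  have hqr : 3 * M = 3 * ((n / 3 : ℕ) : ℝ) + ((n % 3 : ℕ) : ℝ) := by
    rw [← hnM]
    exact_mod_cast (Nat.div_add_mod n 3).symm
  have hr2 : n % 3 ≤ 2 := by omega
  have hT' : ∀ v, (1 - 1 / 10 ^ 70) * M ^ 2 ≤ TD c H v := by
    intro v
    have := hT v
    rw [hnM] at this
    linarith
  -- every class is nonempty
  have hne : ∀ k, ∃ v, c v = k := by
    have hV : Nonempty V := by
      rw [← Fintype.card_pos_iff]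
      have : (Fintype.card V : ℝ) = n := by simpa using hn
      have : Fintype.card V = n := by exact_mod_cast this
      omega
    obtain ⟨v0⟩ := hV
    have h1 := hT' v0
    have h2 : 0 < TD c H v0 := lt_of_lt_of_le (by positivity) h1
    have h3 : ∃ y z, c y = c v0 + 1 ∧ c z = c v0 + 2 := by
      by_contra hc
      push Not at hc
      have : TD c H v0 = 0 := by
        unfold TD
        exact sum_eq_zero fun y _ => sum_eq_zero fun z _ => ind_f fun h => hc y z h.1 h.2.1
      linarith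
    obtain ⟨y, z, hy, hz⟩ := h3
    intro k
    rcases fin3_cases' (c v0) k with h | h | h
    · exact ⟨v0, h.symm⟩
    · exact ⟨y, by rw [hy, h]⟩
    · exact ⟨z, by rw [hz, h]⟩
  have hprod : ∀ k, (1 - 1 / 10 ^ 70) * M ^ 2 ≤ sz c (k + 1) * sz c (k + 2) := by
    intro k
    obtain ⟨v, hv⟩ := hne k
    have h1 := hT' v
    have h2 := TD_mu (c := c) (H := H) v
    have h3 := mu_nonneg (c := c) (H := H) v
    rw [hv] at h2
    linarith
  have hsum : ∀ k, sz c k + sz c (k + 1) + sz c (k + 2) = 3 * M := by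
    intro k
    have h1 := cardV' (c := c)
    rw [hn, hnM] at h1
    have h2 : ∀ k : Fin 3, (k = 0 ∨ k = 1 ∨ k = 2) := by decide
    rcases h2 k with h | h | h
    · rw [h]
      have e1 : (0 : Fin 3) + 1 = 1 := by decide
      have e2 : (0 : Fin 3) + 2 = 2 := by decide
      rw [e1, e2]; linarith
    · rw [h]
      have e1 : (1 : Fin 3) + 1 = 2 := by decide
      have e2 : (1 : Fin 3) + 2 = 0 := by decide
      rw [e1, e2]; linarith
    · rw [h]
      have e1 : (2 : Fin 3) + 1 = 0 := by decide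
      have e2 : (2 : Fin 3) + 2 = 1 := by decide
      rw [e1, e2]; linarith
  rcases le_or_gt ((10 : ℝ) ^ 34) M with hbig | hsmall
  · -- many vertices
    have hupk : ∀ k, sz c k ≤ (1 + 2 / 10 ^ 70) * M := by
      intro k
      have h1 := two_prod (sz_nonneg (c := c) (k + 1)) (sz_nonneg (c := c) (k + 2)) hM0.le
        (by norm_num) (by norm_num) (hprod k)
      have h2 := hsum k
      linarith
    have hlok : ∀ k, (1 - 4 / 10 ^ 70) * M ≤ sz c k := by
      intro k
      have h1 := hupk (k + 1)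
      have h2 := hupk (k + 2)
      have h3 := hsum k
      linarith
    have hmuk : ∀ v, mu c H v ≤ 6 / 10 ^ 70 * M ^ 2 := by
      intro v
      have h1 := hT' v
      have h2 := TD_mu (c := c) (H := H) v
      have h3 : sz c (c v + 1) * sz c (c v + 2) ≤
          ((1 + 2 / 10 ^ 70) * M) * ((1 + 2 / 10 ^ 70) * M) :=
        mul_le_mul (hupk _) (hupk _) (sz_nonneg _) (by positivity)
      have h4 : ((1 + 2 / 10 ^ 70) * M) * ((1 + 2 / 10 ^ 70) * M) =
          (1 + 2 / 10 ^ 70) ^ 2 * M ^ 2 := by ring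
      have h5 : ((1 : ℝ) + 2 / 10 ^ 70) ^ 2 - (1 - 1 / 10 ^ 70) ≤ 6 / 10 ^ 70 := by norm_num
      have h6 : 0 < M ^ 2 := by positivity
      nlinarith
    by_cases hle : TT (n / 3 : ℕ) (n % 3 : ℕ) ≤ tot H
    · have hTl := TT_low (M := M) (q := ((n / 3 : ℕ) : ℝ)) (n % 3) hr2 hM0.le hqr
      have A : Asm c H ((1 + 2 / 10 ^ 70) * M) (1 / 10 ^ 32) := by
        have hNN : M ^ 2 ≤ ((1 + 2 / 10 ^ 70) * M) ^ 2 := by
          have e : ((1 + 2 / 10 ^ 70) * M) ^ 2 = (1 + 2 / 10 ^ 70) ^ 2 * M ^ 2 := by ring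
          rw [e]
          have : (1 : ℝ) ≤ (1 + 2 / 10 ^ 70) ^ 2 := by norm_num
          have h6 : 0 < M ^ 2 := by positivity
          nlinarith
        refine ⟨S, hupk, fun k => ?_, fun v => ?_, fun x y => ?_, ?_, ?_, by norm_num, by norm_num⟩
        · refine le_trans ?_ (hlok k)
          have : (999 / 1000 * ((1 + 2 / 10 ^ 70) * M)) = (999 / 1000 * (1 + 2 / 10 ^ 70)) * M := by
            ring
          rw [this]
          exact mul_le_mul_of_nonneg_right (by norm_num) hM0.le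
        · refine (hmuk v).trans ?_
          have h6 : 0 < M ^ 2 := by positivity
          have h7 : 1 / 10 ^ 32 * M ^ 2 ≤ 1 / 10 ^ 32 * ((1 + 2 / 10 ^ 70) * M) ^ 2 :=
            mul_le_mul_of_nonneg_left hNN (by norm_num)
          linarith
        · refine (hI x y).trans ?_
          rw [hnM]
          have : (1 : ℝ) / 10 ^ 32 * ((1 + 2 / 10 ^ 70) * M) =
            (1 / 10 ^ 32 * (1 + 2 / 10 ^ 70)) * M := by ring
          rw [this]
          have : (3 * M / 10 ^ 70) = (3 / 10 ^ 70) * M := by ring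
          rw [this]
          exact mul_le_mul_of_nonneg_right (by norm_num) hM0.le
        · refine le_trans ?_ hle
          refine le_trans ?_ hTl
          have e : ((1 + 2 / 10 ^ 70) * M) ^ 3 = (1 + 2 / 10 ^ 70) ^ 3 * M ^ 3 := by ring
          rw [e]
          have h6 : ((15 : ℝ) - 1 / 10 ^ 32) * (1 + 2 / 10 ^ 70) ^ 3 ≤ 15 - 9 / 10 ^ 33 := by
            norm_num
          have h7 : 0 < M ^ 3 := by positivity
          have h8 : ((15 : ℝ) - 1 / 10 ^ 32) * (1 + 2 / 10 ^ 70) ^ 3 * M ^ 3 ≤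
              (15 - 9 / 10 ^ 33) * M ^ 3 := mul_le_mul_of_nonneg_right h6 h7.le
          have h9 : (10 : ℝ) ^ 34 * M ^ 2 ≤ M * M ^ 2 :=
            mul_le_mul_of_nonneg_right hbig (by positivity)
          have h10 : (1 : ℝ) ≤ M := by linarith [show (1 : ℝ) ≤ 10 ^ 34 by norm_num]
          have h11 : M ≤ M ^ 2 := by nlinarith
          have h12 : M ^ 3 = M * M ^ 2 := by ring
          have h13 : 90 * M ^ 2 ≤ 9 / 10 ^ 33 * M ^ 3 := by
            rw [h12]
            have : (9 : ℝ) / 10 ^ 33 * (10 ^ 34 * M ^ 2) ≤ 9 / 10 ^ 33 * (M * M ^ 2) :=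
              mul_le_mul_of_nonneg_left h9 (by norm_num)
            linarith
          linarith
        · linarith [show (1000 : ℝ) ≤ 10 ^ 34 by norm_num]
      refine A.big ?_ (by norm_num) (n / 3) (n % 3) hr2 ?_
      · linarith
      · rw [hn, hnM, hqr]
    · push Not at hle
      exact ⟨hle.le, fun heq => by linarith⟩
  · -- few vertices
    choose f hf using fun k => sz_int (c := c) k
    have hn70 : (n : ℝ) ^ 2 / 10 ^ 70 < 1 := by
      rw [hnM]
      have : M ^ 2 < (10 : ℝ) ^ 34 * 10 ^ 34 := by nlinarith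
      have e : (3 * M) ^ 2 / 10 ^ 70 = 9 / 10 ^ 70 * M ^ 2 := by ring
      rw [e]
      have h2 : (9 : ℝ) / 10 ^ 70 * (10 ^ 34 * 10 ^ 34) < 1 := by norm_num
      nlinarith
    have hge : ∀ k, M ^ 2 ≤ sz c (k + 1) * sz c (k + 2) := by
      intro k
      have h1 := hprod k
      rw [hf, hf] at h1 ⊢
      have h2 : (n : ℝ) ^ 2 - 1 < 9 * ((f (k + 1) : ℝ) * (f (k + 2) : ℝ)) := by
        have e : (1 - 1 / 10 ^ 70) * M ^ 2 * 9 = (n : ℝ) ^ 2 - (n : ℝ) ^ 2 / 10 ^ 70 := by
          rw [hnM]; ring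
        linarith
      have h3 : n ^ 2 < 9 * (f (k + 1) * f (k + 2)) + 1 := by
        have : ((n ^ 2 : ℕ) : ℝ) < ((9 * (f (k + 1) * f (k + 2)) + 1 : ℕ) : ℝ) := by
          push_cast
          linarith
        exact_mod_cast this
      have h4 : n ^ 2 ≤ 9 * (f (k + 1) * f (k + 2)) := by omega
      have h5 : ((n ^ 2 : ℕ) : ℝ) ≤ ((9 * (f (k + 1) * f (k + 2)) : ℕ) : ℝ) := by exact_mod_cast h4
      push_cast at h5
      rw [hnM] at h5
      linarith
    have hupk : ∀ k, sz c k ≤ M := by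
      intro k
      have h1 := two_prod (t := 1) (sz_nonneg (c := c) (k + 1)) (sz_nonneg (c := c) (k + 2)) hM0.le
        (by norm_num) (by norm_num) (by rw [one_mul]; exact hge k)
      have h2 := hsum k
      linarith
    have heqk : ∀ k, sz c k = M := by
      intro k
      have h1 := hupk (k + 1)
      have h2 := hupk (k + 2)
      have h3 := hsum k
      have h4 := hupk k
      linarith
    have hMf : M = f 0 := by rw [← heqk 0, hf]
    have hfn : 3 * f 0 = n := by
      have : (3 : ℝ) * f 0 = n := by rw [← hMf, hnM]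
      exact_mod_cast this
    have hf1 : 1 ≤ f 0 := by omega
    have hdiv : n / 3 = f 0 := by omega
    have hmod : n % 3 = 0 := by omega
    have hmu : ∀ v, mu c H v = 0 := by
      intro v
      obtain ⟨k, hk⟩ := mu_int (c := c) (H := H) v
      have h1 := hT' v
      have h2 := TD_mu (c := c) (H := H) v
      rw [heqk, heqk] at h2
      have h3 : mu c H v ≤ 1 / 10 ^ 70 * M ^ 2 := by linarith
      have h4 : 1 / 10 ^ 70 * M ^ 2 < 1 := by
        have e : (n : ℝ) ^ 2 / 10 ^ 70 = 9 * (1 / 10 ^ 70 * M ^ 2) := by rw [hnM]; ring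
        rw [e] at hn70
        have : 0 ≤ 1 / 10 ^ 70 * M ^ 2 := by positivity
        linarith
      rw [hk] at h3 ⊢
      have h5 : (k : ℝ) < 1 := lt_of_le_of_lt h3 h4
      have h6 : k < 1 := by exact_mod_cast h5
      have h7 : k = 0 := by omega
      rw [h7]; simp
    have hio : ∀ x y, io c H x y = 0 := by
      intro x y
      obtain ⟨k, hk⟩ := io_int (c := c) (H := H) x y
      have h3 := hI x y
      have h4 : (n : ℝ) / 10 ^ 70 < 1 := by
        have : (n : ℝ) ≤ (n : ℝ) ^ 2 := by nlinarith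
        have : (n : ℝ) / 10 ^ 70 ≤ (n : ℝ) ^ 2 / 10 ^ 70 :=
          div_le_div_of_nonneg_right this (by norm_num)
        linarith
      rw [hk] at h3 ⊢
      have h5 : (k : ℝ) < 1 := lt_of_le_of_lt h3 h4
      have h6 : k < 1 := by exact_mod_cast h5
      have h7 : k = 0 := by omega
      rw [h7]; simp
    have hsm := small S (f 0) hf1 (fun k => by rw [heqk k, hMf]) hmu hio
    have hTT : TT (n / 3 : ℕ) (n % 3 : ℕ) = 15 * (f 0 : ℝ) ^ 3 - 9 * (f 0 : ℝ) ^ 2 := by
      rw [hdiv, hmod]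
      unfold TT
      push_cast
      ring
    rw [hTT]
    exact hsm

end Pool.Agent.Y439.Loc
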